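import Pool.Agent.Helper25.SH.Tools

/-!
# MP_506470_co : set-homogeneous graphs with arbitrarily large finite cliques and independent sets,
definitions and basic tools
-/

namespace SetHom

variable {V : Type}

/-- The finite set `A` is a clique. -/
def Clq (G : SimpleGraph V) (A : Finset V) : Prop := ∀ x ∈ A, ∀ y ∈ A, x ≠ y → G.Adj x y

/-- `x` is adjacent to all elements of `A`. -/
def Full (G : SimpleGraph V) (x : V) (A : Finset V) : Prop := ∀ a ∈ A, G.Adj x a

/-- Set-homogeneous graphs with arbitrarily large finite cliques and independent sets, containing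
a path with three vertices and an edge together with an isolated vertex. -/
structure DI (G : SimpleGraph V) : Prop where
  sh : SetHomogeneous G
  cl : ∀ n : ℕ, ∃ A : Finset V, Clq G A ∧ A.card = n
  ind : ∀ n : ℕ, ∃ A : Finset V, Indep G A ∧ A.card = n
  p3 : ∃ a b c, G.Adj a b ∧ G.Adj b c ∧ a ≠ c ∧ ¬ G.Adj a c
  cp3 : ∃ a b c, G.Adj a b ∧ a ≠ c ∧ b ≠ c ∧ ¬ G.Adj a c ∧ ¬ G.Adj b c

theorem clq_compl {G : SimpleGraph V} {A : Finset V} : Clq Gᶜ A ↔ Indep G A := by
  constructor
  · intro h x hx y hy hxy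
    have := h x hx y hy hxy.ne
    rw [SimpleGraph.compl_adj] at this
    exact this.2 hxy
  · intro h x hx y hy hxy
    rw [SimpleGraph.compl_adj]
    exact ⟨hxy, h x hx y hy⟩

theorem indep_compl {G : SimpleGraph V} {A : Finset V} : Indep Gᶜ A ↔ Clq G A := by
  constructor
  · intro h x hx y hy hxy
    have := h x hx y hy
    rw [SimpleGraph.compl_adj] at this
    by_contra h2
    exact this ⟨hxy, h2⟩
  · intro h x hx y hy hxy
    rw [SimpleGraph.compl_adj] at hxy
    exact hxy.2 (h x hx y hy hxy.1)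

theorem Clq.mono {G : SimpleGraph V} {A B : Finset V} (h : Clq G A) (hBA : B ⊆ A) : Clq G B :=
  fun x hx y hy hxy => h x (hBA hx) y (hBA hy) hxy

theorem Indep.sub {G : SimpleGraph V} {A B : Finset V} (h : Indep G A) (hBA : B ⊆ A) :
    Indep G B :=
  fun x hx y hy => h x (hBA hx) y (hBA hy)

/-- Isomorphisms of graphs and complements. -/
def cIso {V W : Type*} {G : SimpleGraph V} {H : SimpleGraph W} (f : G ≃g H) : Gᶜ ≃g Hᶜ where
  toEquiv := f.toEquiv
  map_rel_iff' := by
    intro a b
    have h := f.map_rel_iff (a := a) (b := b)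
    simp only [SimpleGraph.compl_adj]
    have h2 : f.toEquiv a = f.toEquiv b ↔ a = b := f.toEquiv.injective.eq_iff
    constructor
    · rintro ⟨h3, h4⟩
      exact ⟨fun e => h3 (h2.2 e), fun e => h4 (h.2 e)⟩
    · rintro ⟨h3, h4⟩
      exact ⟨fun e => h3 (h2.1 e), fun e => h4 (h.1 e)⟩

/-- Isomorphisms between induced subgraphs of the complement. -/
def uIso {V : Type*} {G : SimpleGraph V} {U W : Set V} (f : Gᶜ.induce U ≃g Gᶜ.induce W) :
    G.induce U ≃g G.induce W where
  toEquiv := f.toEquiv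
  map_rel_iff' := by
    intro a b
    have h := f.map_rel_iff (a := a) (b := b)
    have h2 : f.toEquiv a = f.toEquiv b ↔ a = b := f.toEquiv.injective.eq_iff
    have h3 : ((f.toEquiv a : V) = (f.toEquiv b : V)) ↔ (a : V) = b := by
      rw [← Subtype.ext_iff, h2, Subtype.ext_iff]
    simp only [SimpleGraph.comap_adj, SimpleGraph.compl_adj, Function.Embedding.subtype_apply] at h ⊢
    by_cases hab : (a : V) = b
    · have : (f.toEquiv a : V) = (f.toEquiv b : V) := h3.2 hab
      rw [this, hab]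
      simp
    · have h4 : ¬ (f.toEquiv a : V) = (f.toEquiv b : V) := fun e => hab (h3.1 e)
      have h5 : ((f.toEquiv a : V) ≠ (f.toEquiv b : V) ∧ ¬ G.Adj (f.toEquiv a) (f.toEquiv b)) ↔
          ((a : V) ≠ b ∧ ¬ G.Adj a b) := h
      constructor
      · intro h6
        by_contra h7
        exact (h5.2 ⟨hab, h7⟩).2 h6
      · intro h6
        by_contra h7
        exact (h5.1 ⟨h4, h7⟩).2 h6

theorem sh_compl {V : Type*} {G : SimpleGraph V} (hs : SetHomogeneous G) :
    SetHomogeneous Gᶜ := by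
  rintro U W ⟨f⟩
  obtain ⟨φ, hφ⟩ := hs U W ⟨uIso f⟩
  exact ⟨cIso φ, hφ⟩

theorem DI.compl {G : SimpleGraph V} (h : DI G) : DI Gᶜ where
  sh := sh_compl h.sh
  cl n := by
    obtain ⟨A, hA, hn⟩ := h.ind n
    exact ⟨A, clq_compl.2 hA, hn⟩
  ind n := by
    obtain ⟨A, hA, hn⟩ := h.cl n
    exact ⟨A, indep_compl.2 hA, hn⟩
  p3 := by
    obtain ⟨a, b, c, h1, h2, h3, h4, h5⟩ := h.cp3
    refine ⟨a, c, b, ?_, ?_, h1.ne, ?_⟩
    · rw [SimpleGraph.compl_adj]
      exact ⟨h2, h4⟩
    · rw [SimpleGraph.compl_adj]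
      exact ⟨h3.symm, fun e => h5 e.symm⟩
    · rw [SimpleGraph.compl_adj]
      exact fun e => e.2 h1
  cp3 := by
    obtain ⟨a, b, c, h1, h2, h3, h4⟩ := h.p3
    refine ⟨a, c, b, ?_, h1.ne, h2.ne.symm, ?_, ?_⟩
    · rw [SimpleGraph.compl_adj]
      exact ⟨h3, h4⟩
    · rw [SimpleGraph.compl_adj]
      exact fun e => e.2 h1
    · rw [SimpleGraph.compl_adj]
      exact fun e => e.2 h2.symm

/-- Set-homogeneity for a set given with a copy. -/
theorem SHmap {G : SimpleGraph V} (hs : SetHomogeneous G) (S : Finset V) (f : V → V)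
    (hf : Set.InjOn f S) (hadj : ∀ x ∈ S, ∀ y ∈ S, (G.Adj (f x) (f y) ↔ G.Adj x y)) :
    ∃ φ : G ≃g G, φ '' (S : Set V) = f '' (S : Set V) := by
  classical
  obtain ⟨φ, hφ⟩ := hs S (S.image f) (iso_of_map S f hf hadj)
  exact ⟨φ, by rw [hφ, Finset.coe_image]⟩

/-- A bijection between finite sets, as a function on the vertices. -/
theorem exists_map {A B : Finset V} (h : A.card = B.card) :
    ∃ f : V → V, Set.InjOn f A ∧ f '' (A : Set V) = B := by
  classical
  obtain ⟨e⟩ : Nonempty (A ≃ B) := Fintype.card_eq.1 (by simpa using h)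
  refine ⟨fun x => if hx : x ∈ A then (e ⟨x, hx⟩ : V) else x, ?_, ?_⟩
  · intro x hx y hy hxy
    have hx' : x ∈ A := hx
    have hy' : y ∈ A := hy
    simp only [hx', hy', dif_pos] at hxy
    have := e.injective (Subtype.ext hxy)
    exact congrArg Subtype.val this
  · ext y
    constructor
    · rintro ⟨x, hx, rfl⟩
      have hx' : x ∈ A := hx
      simp only [hx', dif_pos]
      exact (e ⟨x, hx'⟩).2
    · intro hy
      refine ⟨(e.symm ⟨y, hy⟩ : V), (e.symm ⟨y, hy⟩).2, ?_⟩
      simp only [(e.symm ⟨y, hy⟩).2, dif_pos]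
      simp

theorem clq_trans {G : SimpleGraph V} (hs : SetHomogeneous G) {A B : Finset V} (hA : Clq G A)
    (hB : Clq G B) (h : A.card = B.card) : ∃ φ : G ≃g G, φ '' (A : Set V) = B := by
  obtain ⟨f, hf, hfB⟩ := exists_map h
  have hm : ∀ x ∈ A, f x ∈ B := fun x hx => by
    have : f x ∈ f '' (A : Set V) := ⟨x, hx, rfl⟩
    rw [hfB] at this
    exact this
  obtain ⟨φ, hφ⟩ := SHmap hs A f hf (by
    intro x hx y hy
    by_cases hxy : x = y
    · subst hxy
      simp
    · exact iff_of_true (hB _ (hm x hx) _ (hm y hy) (fun e => hxy (hf hx hy e)))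
        (hA x hx y hy hxy))
  exact ⟨φ, hφ.trans hfB⟩

theorem indep_trans {G : SimpleGraph V} (hs : SetHomogeneous G) {A B : Finset V}
    (hA : Indep G A) (hB : Indep G B) (h : A.card = B.card) :
    ∃ φ : G ≃g G, φ '' (A : Set V) = B := by
  obtain ⟨φ, hφ⟩ := clq_trans (sh_compl hs) (clq_compl.2 hA) (clq_compl.2 hB) h
  have e := cIso φ
  refine ⟨⟨φ.toEquiv, ?_⟩, hφ⟩
  intro a b
  have h1 := φ.map_rel_iff (a := a) (b := b)
  rw [SimpleGraph.compl_adj, SimpleGraph.compl_adj] at h1
  have h2 : φ.toEquiv a = φ.toEquiv b ↔ a = b := φ.toEquiv.injective.eq_iff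
  have h3 : (φ a ≠ φ b ∧ ¬ G.Adj (φ a) (φ b)) ↔ (a ≠ b ∧ ¬ G.Adj a b) := h1
  show G.Adj (φ a) (φ b) ↔ G.Adj a b
  by_cases hab : a = b
  · subst hab
    simp
  · have h4 : φ a ≠ φ b := fun e => hab (h2.1 e)
    constructor
    · intro h5
      by_contra h6
      exact (h3.2 ⟨hab, h6⟩).2 h5
    · intro h5
      by_contra h6
      exact (h3.1 ⟨h4, h6⟩).2 h5

/-- Every clique extends to cliques of all larger sizes. -/
theorem clq_extend {G : SimpleGraph V} (hs : SetHomogeneous G)
    (hcl : ∀ n : ℕ, ∃ A : Finset V, Clq G A ∧ A.card = n) {A : Finset V} (hA : Clq G A) {n : ℕ}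
    (hn : A.card ≤ n) : ∃ B : Finset V, A ⊆ B ∧ Clq G B ∧ B.card = n := by
  classical
  obtain ⟨C, hC, hCn⟩ := hcl n
  obtain ⟨D, hDC, hD⟩ := Finset.exists_subset_card_eq (s := C) (n := A.card) (by omega)
  obtain ⟨φ, hφ⟩ := clq_trans hs (hC.mono hDC) hA hD
  refine ⟨C.map φ.toEquiv.toEmbedding, ?_, ?_, ?_⟩
  · intro x hx
    have : x ∈ φ '' (D : Set V) := by
      rw [hφ]
      exact hx
    obtain ⟨y, hy, rfl⟩ := this
    exact Finset.mem_map_of_mem _ (hDC hy)
  · intro x hx y hy hxy
    obtain ⟨x', hx', rfl⟩ := Finset.mem_map.1 hx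
    obtain ⟨y', hy', rfl⟩ := Finset.mem_map.1 hy
    exact φ.map_adj_iff.2 (hC x' hx' y' hy' (fun e => hxy (by rw [e])))
  · rw [Finset.card_map, hCn]

/-- Every independent set extends to independent sets of all larger sizes. -/
theorem indep_extend {G : SimpleGraph V} (hs : SetHomogeneous G)
    (hi : ∀ n : ℕ, ∃ A : Finset V, Indep G A ∧ A.card = n) {A : Finset V} (hA : Indep G A)
    {n : ℕ} (hn : A.card ≤ n) : ∃ B : Finset V, A ⊆ B ∧ Indep G B ∧ B.card = n := by
  obtain ⟨B, h1, h2, h3⟩ := clq_extend (sh_compl hs) (fun m => by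
    obtain ⟨A, hA, hm⟩ := hi m
    exact ⟨A, clq_compl.2 hA, hm⟩) (clq_compl.2 hA) hn
  exact ⟨B, h1, clq_compl.1 h2, h3⟩

/-- Pairs of non-adjacent vertices. -/
theorem sh_nonadj {G : SimpleGraph V} (hs : SetHomogeneous G) {a b a' b' : V} (hab : a ≠ b)
    (h : ¬ G.Adj a b) (hab' : a' ≠ b') (h' : ¬ G.Adj a' b') :
    ∃ φ : G ≃g G, (φ a = a' ∧ φ b = b') ∨ (φ a = b' ∧ φ b = a') := by
  classical
  obtain ⟨φ, hφ⟩ := indep_trans hs (A := {a, b}) (B := {a', b'})
    (by
      intro x hx y hy
      simp only [Finset.mem_insert, Finset.mem_singleton] at hx hy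
      rcases hx with rfl | rfl <;> rcases hy with rfl | rfl
      · exact G.irrefl
      · exact h
      · exact fun e => h e.symm
      · exact G.irrefl)
    (by
      intro x hx y hy
      simp only [Finset.mem_insert, Finset.mem_singleton] at hx hy
      rcases hx with rfl | rfl <;> rcases hy with rfl | rfl
      · exact G.irrefl
      · exact h'
      · exact fun e => h' e.symm
      · exact G.irrefl)
    (by rw [Finset.card_pair hab, Finset.card_pair hab'])
  refine ⟨φ, ?_⟩
  have ha : φ a ∈ φ '' (({a, b} : Finset V) : Set V) := ⟨a, by simp, rfl⟩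
  have hb : φ b ∈ φ '' (({a, b} : Finset V) : Set V) := ⟨b, by simp, rfl⟩
  rw [hφ] at ha hb
  have hne : φ a ≠ φ b := fun e => hab (φ.injective e)
  simp only [Finset.coe_insert, Finset.coe_singleton, Set.mem_insert_iff,
    Set.mem_singleton_iff] at ha hb
  rcases ha with ha | ha <;> rcases hb with hb | hb
  · exact absurd (ha.trans hb.symm) hne
  · exact Or.inl ⟨ha, hb⟩
  · exact Or.inr ⟨ha, hb⟩
  · exact absurd (ha.trans hb.symm) hne

/-- A clique with two non-adjacent common neighbours. -/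
theorem sh_cone2 {G : SimpleGraph V} (hs : SetHomogeneous G) {K K' : Finset V} (hK : Clq G K)
    (hK' : Clq G K') (hc : K.card = K'.card) {x y x' y' : V} (hx : Full G x K)
    (hy : Full G y K) (hxy : x ≠ y) (h : ¬ G.Adj x y) (hx' : Full G x' K') (hy' : Full G y' K')
    (hxy' : x' ≠ y') (h' : ¬ G.Adj x' y') :
    ∃ φ : G ≃g G, φ '' (K : Set V) = K' ∧
      ((φ x = x' ∧ φ y = y') ∨ (φ x = y' ∧ φ y = x')) := by
  classical
  obtain ⟨f, hf, hfB⟩ := exists_map hc
  have hm : ∀ z ∈ K, f z ∈ K' := fun z hz => by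
    have : f z ∈ f '' (K : Set V) := ⟨z, hz, rfl⟩
    rw [hfB] at this
    exact this
  have hxK : x ∉ K := fun e => G.irrefl (hx x e)
  have hyK : y ∉ K := fun e => G.irrefl (hy y e)
  have hxK' : x' ∉ K' := fun e => G.irrefl (hx' x' e)
  have hyK' : y' ∉ K' := fun e => G.irrefl (hy' y' e)
  let F : V → V := fun z => if z = x then x' else if z = y then y' else f z
  have Fx : F x = x' := if_pos rfl
  have Fy : F y = y' := by
    show (if y = x then x' else if y = y then y' else f y) = y'
    rw [if_neg hxy.symm, if_pos rfl]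
  have FK : ∀ z ∈ K, F z = f z := by
    intro z hz
    show (if z = x then x' else if z = y then y' else f z) = f z
    rw [if_neg (by rintro rfl; exact hxK hz), if_neg (by rintro rfl; exact hyK hz)]
  let S : Finset V := insert x (insert y K)
  have hS : ∀ z ∈ S, z = x ∨ z = y ∨ z ∈ K := by
    intro z hz
    simpa [S] using hz
  obtain ⟨φ, hφ⟩ := SHmap hs S F
    (by
      intro a ha b hb hab
      rcases hS a ha with rfl | rfl | ha2 <;> rcases hS b hb with rfl | rfl | hb2
      · rfl
      · rw [Fx, Fy] at hab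
        exact absurd hab hxy'
      · rw [Fx, FK b hb2] at hab
        exact absurd (hab ▸ hm b hb2) hxK'
      · rw [Fx, Fy] at hab
        exact absurd hab.symm hxy'
      · rfl
      · rw [Fy, FK b hb2] at hab
        exact absurd (hab ▸ hm b hb2) hyK'
      · rw [Fx, FK a ha2] at hab
        exact absurd (hab ▸ hm a ha2) hxK'
      · rw [Fy, FK a ha2] at hab
        exact absurd (hab ▸ hm a ha2) hyK'
      · rw [FK a ha2, FK b hb2] at hab
        exact hf ha2 hb2 hab)
    (by
      intro a ha b hb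
      rcases hS a ha with rfl | rfl | ha2 <;> rcases hS b hb with rfl | rfl | hb2
      · simp
      · rw [Fx, Fy]
        exact iff_of_false h' h
      · rw [Fx, FK b hb2]
        exact iff_of_true (hx' _ (hm b hb2)) (hx b hb2)
      · rw [Fx, Fy]
        exact iff_of_false (fun e => h' e.symm) (fun e => h e.symm)
      · simp
      · rw [Fy, FK b hb2]
        exact iff_of_true (hy' _ (hm b hb2)) (hy b hb2)
      · rw [Fx, FK a ha2]
        exact iff_of_true (hx' _ (hm a ha2)).symm (hx a ha2).symm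
      · rw [Fy, FK a ha2]
        exact iff_of_true (hy' _ (hm a ha2)).symm (hy a ha2).symm
      · rw [FK a ha2, FK b hb2]
        by_cases hab : a = b
        · subst hab
          simp
        · exact iff_of_true (hK' _ (hm a ha2) _ (hm b hb2) (fun e => hab (hf ha2 hb2 e)))
            (hK a ha2 b hb2 hab))
  -- the image of `S`
  have him : ∀ z ∈ S, φ z = x' ∨ φ z = y' ∨ φ z ∈ K' := by
    intro z hz
    have : φ z ∈ F '' (S : Set V) := by
      rw [← hφ]
      exact ⟨z, hz, rfl⟩
    obtain ⟨w, hw, hwz⟩ := this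
    rcases hS w hw with rfl | rfl | hw
    · exact Or.inl (hwz.symm.trans Fx)
    · exact Or.inr (Or.inl (hwz.symm.trans Fy))
    · rw [FK w hw] at hwz
      exact Or.inr (Or.inr (hwz ▸ hm w hw))
  have hxS : x ∈ S := by simp [S]
  have hyS : y ∈ S := by simp [S]
  have hKS : ∀ z ∈ K, z ∈ S := fun z hz => by simp [S, hz]
  -- elements of `K` are adjacent to everything, so they go to `K'`
  have hdom : ∀ z ∈ K, φ z ∈ K' := by
    intro z hz
    have hadj : ∀ w ∈ S, w ≠ z → G.Adj (φ z) (φ w) := by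
      intro w hw hwz
      apply φ.map_adj_iff.2
      rcases hS w hw with rfl | rfl | hw
      · exact (hx z hz).symm
      · exact (hy z hz).symm
      · exact hK z hz w hw hwz.symm
    have hx2 : ∃ w ∈ S, φ w = x' := by
      have : x' ∈ φ '' (S : Set V) := by
        rw [hφ]
        exact ⟨x, hxS, Fx⟩
      obtain ⟨w, hw, e⟩ := this
      exact ⟨w, hw, e⟩
    have hy2 : ∃ w ∈ S, φ w = y' := by
      have : y' ∈ φ '' (S : Set V) := by
        rw [hφ]
        exact ⟨y, hyS, Fy⟩
      obtain ⟨w, hw, e⟩ := this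
      exact ⟨w, hw, e⟩
    rcases him z (hKS z hz) with e | e | e
    · exfalso
      obtain ⟨w, hw, hw2⟩ := hy2
      have hwz : w ≠ z := by
        rintro rfl
        exact hxy' (e.symm.trans hw2)
      have := hadj w hw hwz
      rw [e, hw2] at this
      exact h' this
    · exfalso
      obtain ⟨w, hw, hw2⟩ := hx2
      have hwz : w ≠ z := by
        rintro rfl
        exact hxy' (hw2.symm.trans e)
      have := hadj w hw hwz
      rw [e, hw2] at this
      exact h' this.symm
    · exact e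
  have hKim : φ '' (K : Set V) = K' := by
    have h1 : (K.map φ.toEquiv.toEmbedding) ⊆ K' := by
      intro w hw
      obtain ⟨z, hz, rfl⟩ := Finset.mem_map.1 hw
      exact hdom z hz
    have h2 : K.map φ.toEquiv.toEmbedding = K' :=
      Finset.eq_of_subset_of_card_le h1 (by rw [Finset.card_map, hc])
    rw [← h2]
    ext w
    simp
  refine ⟨φ, hKim, ?_⟩
  have hnot : ∀ z, z ∉ K → φ z ∉ K' := by
    intro z hz hz2
    have : φ z ∈ φ '' (K : Set V) := by
      rw [hKim]
      exact hz2
    obtain ⟨w, hw, e⟩ := this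
    exact hz (φ.injective e ▸ hw)
  have hne : φ x ≠ φ y := fun e => hxy (φ.injective e)
  rcases him x hxS with e | e | e
  · rcases him y hyS with e2 | e2 | e2
    · exact absurd (e.trans e2.symm) hne
    · exact Or.inl ⟨e, e2⟩
    · exact absurd e2 (hnot y hyK)
  · rcases him y hyS with e2 | e2 | e2
    · exact Or.inr ⟨e, e2⟩
    · exact absurd (e.trans e2.symm) hne
    · exact absurd e2 (hnot y hyK)
  · exact absurd e (hnot x hxK)

/-- For every vertex `v` there is an automorphism carrying a given vertex to it. -/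
theorem sh_vert {G : SimpleGraph V} (hs : SetHomogeneous G) (a b : V) :
    ∃ φ : G ≃g G, φ a = b := by
  classical
  obtain ⟨φ, hφ⟩ := clq_trans hs (A := {a}) (B := {b})
    (by
      intro x hx y hy hxy
      simp only [Finset.mem_singleton] at hx hy
      exact absurd (hx.trans hy.symm) hxy)
    (by
      intro x hx y hy hxy
      simp only [Finset.mem_singleton] at hx hy
      exact absurd (hx.trans hy.symm) hxy)
    (by simp)
  refine ⟨φ, ?_⟩
  have : φ a ∈ φ '' (({a} : Finset V) : Set V) := ⟨a, by simp, rfl⟩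
  rw [hφ] at this
  simpa using this

/-- No clique with `N` vertices has two different non-adjacent common neighbours. -/
def NoCone (G : SimpleGraph V) (N : ℕ) : Prop :=
  ∀ K : Finset V, Clq G K → K.card = N → ∀ x y, Full G x K → Full G y K → x ≠ y → G.Adj x y

/-- The lines `K ∪ C(K)` (used when `NoCone G N`). -/
def LineA (G : SimpleGraph V) (N : ℕ) (L : Set V) : Prop :=
  ∃ K : Finset V, Clq G K ∧ K.card = N ∧ L = {x | x ∈ K ∨ Full G x K}

/-- Every vertex has at most `t` neighbours or at most `t` non-neighbours in every finite clique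
which does not contain it. -/
def FC (G : SimpleGraph V) (t : ℕ) : Prop :=
  ∀ K : Finset V, Clq G K → ∀ v ∉ K, (∀ T ⊆ K, Full G v T → T.card ≤ t) ∨
    ∀ T ⊆ K, (∀ x ∈ T, ¬ G.Adj v x) → T.card ≤ t

/-- The line of a large clique `K`: the vertices almost complete to `K`. -/
def EL (G : SimpleGraph V) (t : ℕ) (K : Finset V) : Set V :=
  {v | ∀ T ⊆ K, (∀ x ∈ T, ¬ G.Adj v x) → T.card ≤ t + 1}

/-- The lines (used when `FC G t`). -/
def LineC (G : SimpleGraph V) (t : ℕ) (L : Set V) : Prop :=
  ∃ K : Finset V, Clq G K ∧ 2 * t + 3 ≤ K.card ∧ L = EL G t K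

end SetHom
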