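import Pool.Agent.Helper25.DI.Final

/-!
# MP_506470_co : finite set-homogeneous graphs are homogeneous (Enomoto)
-/

namespace SetHom

variable {V : Type}

/-- The vertices adjacent to all elements of `P` and to no element of `Q`. -/
def TrSet (G : SimpleGraph V) (P Q : Finset V) : Set V :=
  {v | (∀ p ∈ P, G.Adj v p) ∧ ∀ q ∈ Q, ¬ G.Adj v q}

theorem trSet_split [Finite V] (G : SimpleGraph V) [DecidableEq V] (P Q : Finset V) (q : V) :
    (TrSet G P (insert q Q)).ncard + (TrSet G (insert q P) Q).ncard = (TrSet G P Q).ncard := by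
  rw [← Set.ncard_union_eq]
  · congr 1
    ext v
    constructor
    · rintro (⟨h1, h2⟩ | ⟨h1, h2⟩)
      · exact ⟨h1, fun x hx => h2 x (Finset.mem_insert_of_mem hx)⟩
      · exact ⟨fun x hx => h1 x (Finset.mem_insert_of_mem hx), h2⟩
    · rintro ⟨h1, h2⟩
      by_cases h : G.Adj v q
      · right
        refine ⟨fun x hx => ?_, h2⟩
        rcases Finset.mem_insert.1 hx with rfl | hx
        · exact h
        · exact h1 x hx
      · left
        refine ⟨h1, fun x hx => ?_⟩
        rcases Finset.mem_insert.1 hx with rfl | hx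
        · exact h
        · exact h2 x hx
  · rw [Set.disjoint_left]
    intro v hv hv'
    exact hv.2 q (Finset.mem_insert_self _ _) (hv'.1 q (Finset.mem_insert_self _ _))

theorem trSet_map [Finite V] {G : SimpleGraph V} [DecidableEq V] (hs : SetHomogeneous G)
    {U : Finset V} {f : V → V} (hf : Set.InjOn f U)
    (hadj : ∀ x ∈ U, ∀ y ∈ U, (G.Adj (f x) (f y) ↔ G.Adj x y)) (Q : Finset V) :
    ∀ P : Finset V, P ⊆ U → Q ⊆ U → Disjoint P Q →
      (TrSet G P Q).ncard = (TrSet G (P.image f) (Q.image f)).ncard := by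
  induction Q using Finset.induction_on with
  | empty =>
    intro P hP _ _
    obtain ⟨φ, hφ⟩ := SHmap hs P f (hf.mono (Finset.coe_subset.2 hP))
      (fun x hx y hy => hadj x (hP hx) y (hP hy))
    have himg : TrSet G (P.image f) ∅ = φ '' (TrSet G P ∅) := by
      ext v
      constructor
      · rintro ⟨h1, -⟩
        refine ⟨φ.symm v, ⟨fun p hp => ?_, by simp⟩, φ.apply_symm_apply v⟩
        have h2 : φ p ∈ f '' (P : Set V) := by
          rw [← hφ]
          exact ⟨p, hp, rfl⟩
        obtain ⟨p', hp', h3⟩ := h2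
        have h4 : G.Adj v (φ p) := by
          rw [← h3]
          exact h1 _ (Finset.mem_image_of_mem f hp')
        have h5 : G.Adj (φ.symm v) (φ.symm (φ p)) := φ.symm.map_adj_iff.2 h4
        rwa [φ.symm_apply_apply] at h5
      · rintro ⟨w, ⟨h1, -⟩, rfl⟩
        refine ⟨fun p hp => ?_, by simp⟩
        obtain ⟨p', hp', rfl⟩ := Finset.mem_image.1 hp
        have h2 : f p' ∈ φ '' (P : Set V) := by
          rw [hφ]
          exact ⟨p', hp', rfl⟩
        obtain ⟨p'', hp'', h3⟩ := h2
        rw [← h3]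
        exact φ.map_adj_iff.2 (h1 p'' hp'')
    rw [Finset.image_empty, himg, Set.ncard_image_of_injective _ φ.injective]
  | insert q Q hq ih =>
    intro P hP hQ hd
    have hqU : q ∈ U := hQ (Finset.mem_insert_self _ _)
    have hQU : Q ⊆ U := fun x hx => hQ (Finset.mem_insert_of_mem hx)
    have hqP : q ∉ P := fun h => (Finset.disjoint_left.1 hd h) (Finset.mem_insert_self _ _)
    have hd1 : Disjoint P Q := Finset.disjoint_left.2 (fun x hx hx2 =>
      Finset.disjoint_left.1 hd hx (Finset.mem_insert_of_mem hx2))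
    have hd2 : Disjoint (insert q P) Q := Finset.disjoint_left.2 (fun x hx hx2 => by
      rcases Finset.mem_insert.1 hx with rfl | hx
      · exact hq hx2
      · exact Finset.disjoint_left.1 hd1 hx hx2)
    have h1 := ih P hP hQU hd1
    have h2 := ih (insert q P) (Finset.insert_subset hqU hP) hQU hd2
    have h3 := trSet_split G P Q q
    have h4 := trSet_split G (P.image f) (Q.image f) (f q)
    rw [Finset.image_insert] at h2 ⊢
    omega

/-- Finite set-homogeneous graphs have the one-point extension property. -/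
theorem ope_of_finite [Finite V] {G : SimpleGraph V} (hs : SetHomogeneous G) : OPE G := by
  classical
  intro U f hf hadj a ha
  let P : Finset V := U.filter (fun u => G.Adj a u)
  let Q : Finset V := U.filter (fun u => ¬ G.Adj a u)
  have hPU : P ⊆ U := Finset.filter_subset _ _
  have hQU : Q ⊆ U := Finset.filter_subset _ _
  have hd : Disjoint P Q := by
    rw [Finset.disjoint_left]
    intro x hx hx2
    exact (Finset.mem_filter.1 hx2).2 (Finset.mem_filter.1 hx).2
  have hcount := trSet_map hs hf hadj Q P hPU hQU hd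
  -- the vertices of `U`
  have hin : (TrSet G (P.image f) (Q.image f) ∩ (U.image f : Finset V)) =
      f '' (TrSet G P Q ∩ (U : Set V)) := by
    ext v
    constructor
    · rintro ⟨⟨h1, h2⟩, h3⟩
      rw [Finset.mem_coe] at h3
      obtain ⟨u, hu, rfl⟩ := Finset.mem_image.1 h3
      refine ⟨u, ⟨⟨fun p hp => ?_, fun q hq => ?_⟩, hu⟩, rfl⟩
      · exact (hadj u hu p (hPU hp)).1 (h1 _ (Finset.mem_image_of_mem f hp))
      · exact fun h => h2 _ (Finset.mem_image_of_mem f hq) ((hadj u hu q (hQU hq)).2 h)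
    · rintro ⟨u, ⟨⟨h1, h2⟩, hu⟩, rfl⟩
      refine ⟨⟨fun p hp => ?_, fun q hq => ?_⟩, ?_⟩
      · obtain ⟨p', hp', rfl⟩ := Finset.mem_image.1 hp
        exact (hadj u hu p' (hPU hp')).2 (h1 p' hp')
      · obtain ⟨q', hq', rfl⟩ := Finset.mem_image.1 hq
        exact fun h => h2 q' hq' ((hadj u hu q' (hQU hq')).1 h)
      · rw [Finset.mem_coe]
        exact Finset.mem_image_of_mem f hu
  have hin2 : (TrSet G (P.image f) (Q.image f) ∩ (U.image f : Finset V)).ncard =
      (TrSet G P Q ∩ (U : Set V)).ncard := by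
    rw [hin]
    exact (hf.mono Set.inter_subset_right).ncard_image
  have haT : a ∈ TrSet G P Q :=
    ⟨fun p hp => (Finset.mem_filter.1 hp).2, fun q hq => (Finset.mem_filter.1 hq).2⟩
  have hlt : (TrSet G P Q ∩ (U : Set V)).ncard < (TrSet G P Q).ncard := by
    apply Set.ncard_lt_ncard _ (Set.toFinite _)
    refine ⟨Set.inter_subset_left, fun h => ha ?_⟩
    exact (h haT).2
  have hlt2 : (TrSet G (P.image f) (Q.image f) ∩ (U.image f : Finset V)).ncard <
      (TrSet G (P.image f) (Q.image f)).ncard := by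
    rw [hin2, ← hcount]
    exact hlt
  obtain ⟨b, hb, hb2⟩ := Set.exists_mem_notMem_of_ncard_lt_ncard hlt2 (Set.toFinite _)
  refine ⟨b, ?_, ?_⟩
  · intro x hx e
    apply hb2
    refine ⟨hb, ?_⟩
    rw [Finset.mem_coe, ← e]
    exact Finset.mem_image_of_mem f hx
  · intro x hx
    by_cases hax : G.Adj a x
    · exact iff_of_true (hb.1 _ (Finset.mem_image_of_mem f (Finset.mem_filter.2 ⟨hx, hax⟩))) hax
    · exact iff_of_false (hb.2 _ (Finset.mem_image_of_mem f (Finset.mem_filter.2 ⟨hx, hax⟩))) hax

/-- Homogeneous graphs are set-homogeneous. -/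
theorem sh_of_homogeneous {V : Type*} {G : SimpleGraph V} (h : Homogeneous G) :
    SetHomogeneous G := by
  rintro U W ⟨f⟩
  obtain ⟨φ, hφ⟩ := h U W f
  refine ⟨φ, ?_⟩
  ext x
  constructor
  · rintro ⟨u, hu, rfl⟩
    rw [hφ ⟨u, hu⟩]
    exact (f ⟨u, hu⟩).2
  · intro hx
    obtain ⟨u, hu⟩ := f.surjective ⟨x, hx⟩
    refine ⟨u.1, u.2, ?_⟩
    rw [hφ u, hu]

/-- The classification of all countable set-homogeneous graphs, finite ones included, from the
doubly infinite case. -/
theorem classify_all_of (hDI : ∀ (W : Type) [Countable W] (H : SimpleGraph W), DI H →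
    Homogeneous H) {V : Type} [Countable V] (G : SimpleGraph V) (hs : SetHomogeneous G) :
    Homogeneous G ∨ Nonempty (G ≃g R3) ∨ Nonempty (G ≃g R3ᶜ) := by
  rcases finite_or_infinite V with h | h
  · exact Or.inl (homogeneous_of_ope (ope_of_finite hs))
  · exact classify_of hDI G hs

end SetHom
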