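import Pool.Agent.Helper25.SH.Induct
import Pool.Agent.Helper25.DI.Defs
import Pool.Agent.Helper30.SH.BackForth

/-!
# MP_506470_co : reduction of the classification to the doubly infinite case `DI`
-/

namespace SetHom

variable {V : Type}

/-- Infinite unions of infinite cliques. -/
theorem ope_of_p3f_inf {G : SimpleGraph V} (hs : SetHomogeneous G)
    (hcl : ∀ n : ℕ, ∃ A : Finset V, Clq G A ∧ A.card = n)
    (hind : ∀ n : ℕ, ∃ A : Finset V, Indep G A ∧ A.card = n) (h : P3F G Set.univ) : OPE G := by
  classical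
  intro U f hf hadj a ha
  by_cases hc : ∃ u ∈ U, G.Adj a u
  · obtain ⟨u, hu, hau⟩ := hc
    have hU : 0 < U.card := Finset.card_pos.2 ⟨u, hu⟩
    obtain ⟨B, hB1, hB2, hB3⟩ := clq_extend hs hcl (A := {f u}) (n := U.card + 1)
      (by
        intro x hx y hy hxy
        simp only [Finset.mem_singleton] at hx hy
        exact absurd (hx.trans hy.symm) hxy)
      (by
        rw [Finset.card_singleton]
        omega)
    have hlt : (U.image f).card < B.card := by
      have : (U.image f).card ≤ U.card := Finset.card_image_le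
      omega
    obtain ⟨b, hb, hbU⟩ := Finset.exists_mem_notMem_of_card_lt_card hlt
    have hne : ∀ x ∈ U, f x ≠ b := fun x hx e => hbU (e ▸ Finset.mem_image_of_mem f hx)
    have hub : G.Adj (f u) b := hB2 _ (hB1 (Finset.mem_singleton_self _)) b hb (hne u hu)
    refine ⟨b, hne, ?_⟩
    intro x hx
    have hax : a ≠ x := fun e => ha (e ▸ hx)
    by_cases hxu : x = u
    · subst hxu
      exact iff_of_true hub.symm hau
    · have hfx : f x ≠ f u := fun e => hxu (hf hx hu e)
      constructor
      · intro h1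
        have h2 : G.Adj (f u) (f x) :=
          h (f u) trivial b trivial (f x) trivial hub h1 (Ne.symm hfx)
        have h3 : G.Adj u x := (hadj u hu x hx).1 h2
        exact h a trivial u trivial x trivial hau h3 hax
      · intro h1
        have h2 : G.Adj u x := h u trivial a trivial x trivial hau.symm h1 (Ne.symm hxu)
        have h3 : G.Adj (f u) (f x) := (hadj u hu x hx).2 h2
        exact h b trivial (f u) trivial (f x) trivial hub.symm h3 (Ne.symm (hne x hx))
  · push Not at hc
    obtain ⟨B, hB1, hB2⟩ := hind (U.card + 1)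
    have hex : ∃ b ∈ B, ∀ x ∈ U, f x ≠ b ∧ ¬ G.Adj b (f x) := by
      by_contra hcon
      push Not at hcon
      have hch : ∀ b : B, ∃ x : U, f x = b ∨ G.Adj b (f x) := by
        intro b
        obtain ⟨x, hx, h1⟩ := hcon b.1 b.2
        refine ⟨⟨x, hx⟩, ?_⟩
        by_cases h2 : f x = b.1
        · exact Or.inl h2
        · exact Or.inr (h1 h2)
      choose g hg using hch
      have hinj : Function.Injective g := by
        intro b c hbc
        by_contra hne
        have hne' : (b : V) ≠ c := fun e => hne (Subtype.ext e)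
        have h1 := hg b
        have h2 := hg c
        rw [hbc] at h1
        rcases h1 with h1 | h1 <;> rcases h2 with h2 | h2
        · exact hne' (h1.symm.trans h2)
        · rw [h1] at h2
          exact hB1 c.1 c.2 b.1 b.2 h2
        · rw [h2] at h1
          exact hB1 b.1 b.2 c.1 c.2 h1
        · exact hB1 b.1 b.2 c.1 c.2 (h _ trivial _ trivial _ trivial h1 h2.symm hne')
      have := Fintype.card_le_of_injective g hinj
      simp only [Fintype.card_coe] at this
      omega
    obtain ⟨b, hb, hb2⟩ := hex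
    refine ⟨b, fun x hx => (hb2 x hx).1, ?_⟩
    intro x hx
    exact iff_of_false (hb2 x hx).2 (hc x hx)

theorem hom_compl' {V : Type*} {G : SimpleGraph V} (hs : Homogeneous G) :
    Homogeneous Gᶜ := by
  intro U W f
  obtain ⟨φ, hφ⟩ := hs U W (uIso f)
  exact ⟨cIso φ, hφ⟩

theorem clq_of_not_cliqueFree {G : SimpleGraph V} {n : ℕ} (h : ¬ G.CliqueFree n) :
    ∃ A : Finset V, Clq G A ∧ A.card = n := by
  unfold SimpleGraph.CliqueFree at h
  push Not at h
  obtain ⟨A, hA⟩ := h
  rw [SimpleGraph.isNClique_iff] at hA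
  exact ⟨A, fun x hx y hy hxy => hA.1 hx hy hxy, hA.2⟩

/-- Reduction of the classification of countably infinite set-homogeneous graphs to graphs with
arbitrarily large cliques and independent sets and with both non-trivial triples. -/
theorem classify_of (hDI : ∀ (W : Type) [Countable W] (H : SimpleGraph W), DI H → Homogeneous H)
    {V : Type} [Countable V] [Infinite V] (G : SimpleGraph V) (hs : SetHomogeneous G) :
    Homogeneous G ∨ Nonempty (G ≃g R3) ∨ Nonempty (G ≃g R3ᶜ) := by
  classical
  by_cases h1 : ∃ N, G.CliqueFree N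
  · obtain ⟨N, hN⟩ := h1
    rcases fc_main G hs N hN with h | h
    · exact Or.inl h
    · exact Or.inr (Or.inr h)
  by_cases h2 : ∃ N, Gᶜ.CliqueFree N
  · obtain ⟨N, hN⟩ := h2
    rcases fc_main Gᶜ (sh_compl hs) N hN with h | h
    · have := hom_compl' h
      rw [compl_compl] at this
      exact Or.inl this
    · obtain ⟨e⟩ := h
      have e2 := cIso e
      rw [compl_compl, compl_compl] at e2
      exact Or.inr (Or.inl ⟨e2⟩)
  left
  have hcl : ∀ n : ℕ, ∃ A : Finset V, Clq G A ∧ A.card = n := fun n =>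
    clq_of_not_cliqueFree (fun h => h1 ⟨n, h⟩)
  have hclc : ∀ n : ℕ, ∃ A : Finset V, Clq Gᶜ A ∧ A.card = n := fun n =>
    clq_of_not_cliqueFree (fun h => h2 ⟨n, h⟩)
  have hind : ∀ n : ℕ, ∃ A : Finset V, Indep G A ∧ A.card = n := fun n => by
    obtain ⟨A, hA, hn⟩ := hclc n
    exact ⟨A, clq_compl.1 hA, hn⟩
  have hindc : ∀ n : ℕ, ∃ A : Finset V, Indep Gᶜ A ∧ A.card = n := fun n => by
    obtain ⟨A, hA, hn⟩ := hcl n
    exact ⟨A, indep_compl.2 hA, hn⟩
  by_cases h3 : P3F G Set.univ
  · exact homogeneous_of_ope (ope_of_p3f_inf hs hcl hind h3)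
  by_cases h4 : P3F Gᶜ Set.univ
  · have := hom_compl' (homogeneous_of_ope (ope_of_p3f_inf (sh_compl hs) hclc hindc h4))
    rwa [compl_compl] at this
  apply hDI
  refine ⟨hs, hcl, hind, ?_, ?_⟩
  · unfold P3F at h3
    push Not at h3
    obtain ⟨a, -, b, -, c, -, hab, hbc, hac, hnac⟩ := h3
    exact ⟨a, b, c, hab, hbc, hac, hnac⟩
  · unfold P3F at h4
    push Not at h4
    obtain ⟨a, -, b, -, c, -, hab, hbc, hac, hnac⟩ := h4
    rw [SimpleGraph.compl_adj] at hab hbc hnac
    refine ⟨a, c, b, ?_, hab.1, hbc.1.symm, hab.2, fun e => hbc.2 e.symm⟩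
    by_contra hcon
    exact hnac ⟨hac, hcon⟩

end SetHom
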