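import Pool.Agent.Helper25.DI.Rel

/-!
# MP_506470_co : the link of a clique is set-homogeneous for finite sets which are cliques or
without dominating vertex; its complement satisfies QSH
-/

namespace SetHom

variable {V : Type} {G : SimpleGraph V}

/-- Restriction of an automorphism preserving the finite set `W` to the common neighbourhood
of `W`. -/
def lkRestr {W : Finset V} (φ : G ≃g G) (hφ : φ '' (W : Set V) = W) :
    G.induce {v | Full G v W} ≃g G.induce {v | Full G v W} where
  toFun x := ⟨φ x.1, by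
    intro w hw
    have : w ∈ φ '' (W : Set V) := by
      rw [hφ]
      exact hw
    obtain ⟨z, hz, rfl⟩ := this
    exact φ.map_adj_iff.2 (x.2 z hz)⟩
  invFun x := ⟨φ.symm x.1, by
    intro w hw
    have h1 : φ w ∈ φ '' (W : Set V) := ⟨w, hw, rfl⟩
    rw [hφ] at h1
    have h2 := x.2 (φ w) h1
    have h3 : G.Adj (φ.symm x.1) (φ.symm (φ w)) := φ.symm.map_adj_iff.2 h2
    rwa [φ.symm_apply_apply] at h3⟩
  left_inv x := Subtype.ext (φ.symm_apply_apply x.1)
  right_inv x := Subtype.ext (φ.apply_symm_apply x.1)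
  map_rel_iff' := by
    intro a b
    exact φ.map_adj_iff

theorem link_psh (hs : SetHomogeneous G) (hK : FS.FullSym Gᶜ) {W : Finset V} (hW : Clq G W)
    (U U' : Finset {v // v ∈ {v | Full G v W}})
    (he : Nonempty ((G.induce {v | Full G v W}).induce (U : Set _) ≃g
      (G.induce {v | Full G v W}).induce (U' : Set _)))
    (hcase : Clq (G.induce {v | Full G v W}) U ∨
      ∀ x ∈ U, ∃ y ∈ U, y ≠ x ∧ ¬ (G.induce {v | Full G v W}).Adj x y) :
    ∃ φ : G.induce {v | Full G v W} ≃g G.induce {v | Full G v W},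
      φ '' (U : Set _) = U' := by
  classical
  obtain ⟨e⟩ := he
  let A : Finset V := U.map (Function.Embedding.subtype _)
  let A' : Finset V := U'.map (Function.Embedding.subtype _)
  have hA : ∀ x : {v // v ∈ {v | Full G v W}}, x.1 ∈ A ↔ x ∈ U := by
    intro x
    simp only [A, Finset.mem_map, Function.Embedding.subtype_apply]
    constructor
    · rintro ⟨y, hy, hyx⟩
      rw [← Subtype.ext hyx]
      exact hy
    · intro hx
      exact ⟨x, hx, rfl⟩
  have hA' : ∀ x : {v // v ∈ {v | Full G v W}}, x.1 ∈ A' ↔ x ∈ U' := by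
    intro x
    simp only [A', Finset.mem_map, Function.Embedding.subtype_apply]
    constructor
    · rintro ⟨y, hy, hyx⟩
      rw [← Subtype.ext hyx]
      exact hy
    · intro hx
      exact ⟨x, hx, rfl⟩
  have hAe : ∀ a ∈ A, ∃ x ∈ U, x.1 = a := by
    intro a ha
    simpa [A] using ha
  have hAe' : ∀ a ∈ A', ∃ x ∈ U', x.1 = a := by
    intro a ha
    simpa [A'] using ha
  have hfull : ∀ w ∈ W, Full G w A := by
    intro w hw a ha
    obtain ⟨x, -, rfl⟩ := hAe a ha
    exact (x.2 w hw).symm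
  have hfull' : ∀ w ∈ W, Full G w A' := by
    intro w hw a ha
    obtain ⟨x, -, rfl⟩ := hAe' a ha
    exact (x.2 w hw).symm
  -- the bijection
  let f : V → V := fun a => if h : ∃ x : {v // v ∈ {v | Full G v W}}, ∃ hx : x ∈ U, x.1 = a then
    ((e ⟨h.choose, h.choose_spec.choose⟩ : {v // v ∈ {v | Full G v W}}) : V) else a
  have hf : ∀ (x : {v // v ∈ {v | Full G v W}}) (hx : x ∈ U),
      f x.1 = ((e ⟨x, hx⟩ : {v // v ∈ {v | Full G v W}}) : V) := by
    intro x hx
    have h : ∃ y : {v // v ∈ {v | Full G v W}}, ∃ hy : y ∈ U, y.1 = x.1 := ⟨x, hx, rfl⟩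
    have h1 : f x.1 = ((e ⟨h.choose, h.choose_spec.choose⟩ :
        {v // v ∈ {v | Full G v W}}) : V) := dif_pos h
    rw [h1]
    have h2 : h.choose = x := Subtype.ext h.choose_spec.choose_spec
    congr 3
    exact Subtype.ext h2
  obtain ⟨φ, hφ1, hφ2⟩ := sh_link hs hK (U := A) (U' := A') hW hW rfl hfull hfull' f
    (by
      intro a ha b hb hab
      obtain ⟨x, hx, rfl⟩ := hAe a ha
      obtain ⟨y, hy, rfl⟩ := hAe b hb
      rw [hf x hx, hf y hy] at hab
      have h1 := e.injective (Subtype.ext (Subtype.ext hab))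
      exact congrArg (fun z : {x : {v // v ∈ {v | Full G v W}} // x ∈
        (U : Set {v // v ∈ {v | Full G v W}})} => (z.1.1 : V)) h1)
    (by
      ext a
      constructor
      · rintro ⟨b, hb, rfl⟩
        obtain ⟨x, hx, rfl⟩ := hAe b hb
        rw [hf x hx]
        exact (hA' _).2 (e ⟨x, hx⟩).2
      · intro ha
        obtain ⟨y, hy, rfl⟩ := hAe' a ha
        obtain ⟨x, hx⟩ := e.surjective ⟨y, hy⟩
        refine ⟨x.1.1, (hA x.1).2 x.2, ?_⟩
        rw [hf x.1 x.2]
        exact congrArg (fun z : {x : {v // v ∈ {v | Full G v W}} // x ∈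
          (U' : Set {v // v ∈ {v | Full G v W}})} => (z.1.1 : V)) hx)
    (by
      intro a ha b hb
      obtain ⟨x, hx, rfl⟩ := hAe a ha
      obtain ⟨y, hy, rfl⟩ := hAe b hb
      rw [hf x hx, hf y hy]
      exact e.map_adj_iff (v := ⟨x, hx⟩) (w := ⟨y, hy⟩))
    (by
      rcases hcase with h | h
      · left
        intro a ha b hb hab
        obtain ⟨x, hx, rfl⟩ := hAe a ha
        obtain ⟨y, hy, rfl⟩ := hAe b hb
        exact h x hx y hy (fun hxy => hab (by rw [hxy]))
      · right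
        intro a ha
        obtain ⟨x, hx, rfl⟩ := hAe a ha
        obtain ⟨y, hy, h1, h2⟩ := h x hx
        exact ⟨y.1, (hA y).2 hy, fun h3 => h1 (Subtype.ext h3), h2⟩)
  refine ⟨lkRestr φ hφ1, ?_⟩
  ext y
  constructor
  · rintro ⟨x, hx, rfl⟩
    have h1 : φ x.1 ∈ φ '' (A : Set V) := ⟨x.1, (hA x).2 hx, rfl⟩
    rw [hφ2] at h1
    exact (hA' (lkRestr φ hφ1 x)).1 h1
  · intro hy
    have h1 : y.1 ∈ φ '' (A : Set V) := by
      rw [hφ2]
      exact (hA' y).2 hy
    obtain ⟨a, ha, hay⟩ := h1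
    obtain ⟨x, hx, rfl⟩ := hAe a ha
    exact ⟨x, hx, Subtype.ext hay⟩

theorem link_qsh (hs : SetHomogeneous G) (hK : FS.FullSym Gᶜ) {W : Finset V} (hW : Clq G W) :
    QSH ((G.induce {v | Full G v W})ᶜ) := by
  classical
  intro U U' he hcase
  obtain ⟨φ, hφ⟩ := link_psh hs hK hW U U' (he.map uIso) (by
    rcases hcase with h | h
    · left
      intro x hx y hy hxy
      exact absurd (Finset.card_le_one.1 h x hx y hy) hxy
    · right
      intro x hx
      obtain ⟨y, hy, hxy⟩ := h x hx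
      rw [SimpleGraph.compl_adj] at hxy
      exact ⟨y, hy, hxy.1.symm, hxy.2⟩)
  exact ⟨cIso φ, hφ⟩

end SetHom
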