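import Pool.Agent.Helper28.DI.A3
import Pool.Agent.Helper34.DI.B1
import Pool.Agent.Helper42.DI.C2
import Pool.Agent.Helper92.DI.B2
import Pool.Agent.Helper90.SH.FSDefs

/-!
# MP_506470_co : set-homogeneous graphs with arbitrarily large finite cliques and independent sets:
every trace size on cliques and on independent sets occurs
-/

namespace SetHom

variable {V : Type} {G : SimpleGraph V}

theorem DI.cone (h : DI G) (N : ℕ) :
    ∃ (K : Finset V) (x y : V), Clq G K ∧ K.card = N ∧ Full G x K ∧ Full G y K ∧ x ≠ y ∧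
      ¬ G.Adj x y :=
  exists_cone h.sh h.cl h.p3 N

/-- Every vertex has independent neighbours of every number. -/
theorem DI.L1 (h : DI G) (v : V) (n : ℕ) :
    ∃ A : Finset V, Indep G A ∧ Full G v A ∧ A.card = n := by
  classical
  by_contra hcon
  let P : ℕ → Prop := fun m => ∃ (v : V) (A : Finset V), Indep G A ∧ Full G v A ∧ A.card = m
  have hmono : ∀ m k, k ≤ m → P m → P k := by
    rintro m k hk ⟨w, A, hA, hw, hm⟩
    obtain ⟨B, hB, hBc⟩ := Finset.exists_subset_card_eq (s := A) (n := k) (by omega)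
    exact ⟨w, B, hA.sub hB, fun a ha => hw a (hB ha), hBc⟩
  have hn : ¬ P n := by
    rintro ⟨w, A, hA, hw, hc⟩
    obtain ⟨φ, hφ⟩ := sh_vert h.sh w v
    apply hcon
    refine ⟨A.map φ.toEquiv.toEmbedding, ?_, ?_, by rw [Finset.card_map, hc]⟩
    · intro x hx y hy
      obtain ⟨x', hx', rfl⟩ := Finset.mem_map.1 hx
      obtain ⟨y', hy', rfl⟩ := Finset.mem_map.1 hy
      exact fun e => hA x' hx' y' hy' (φ.map_adj_iff.1 e)
    · intro x hx
      obtain ⟨x', hx', rfl⟩ := Finset.mem_map.1 hx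
      rw [← hφ]
      exact φ.map_adj_iff.2 (hw x' hx')
  have h2 : P 2 := by
    obtain ⟨a, b, c, hab, hbc, hac, hnac⟩ := h.p3
    refine ⟨b, {a, c}, ?_, ?_, Finset.card_pair hac⟩
    · intro x hx y hy
      simp only [Finset.mem_insert, Finset.mem_singleton] at hx hy
      rcases hx with rfl | rfl <;> rcases hy with rfl | rfl
      · exact G.irrefl
      · exact hnac
      · exact fun e => hnac e.symm
      · exact G.irrefl
    · intro x hx
      simp only [Finset.mem_insert, Finset.mem_singleton] at hx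
      rcases hx with rfl | rfl
      · exact hab.symm
      · exact hbc
  have hn2 : 2 ≤ n := by
    by_contra hlt
    exact hn (hmono 2 n (by omega) h2)
  have hs2 : 2 ≤ Nat.findGreatest P n := Nat.le_findGreatest hn2 h2
  have hPs : P (Nat.findGreatest P n) := Nat.findGreatest_spec hn2 h2
  have hb : ∀ (v : V) (A : Finset V), Indep G A → Full G v A →
      A.card ≤ Nat.findGreatest P n := by
    intro w A hA hw
    have hPA : P A.card := ⟨w, A, hA, hw, rfl⟩
    have hlt : A.card ≤ n := by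
      by_contra hlt
      exact hn (hmono A.card n (by omega) hPA)
    exact Nat.le_findGreatest hlt hPA
  exact L1_fin h.sh h.ind hb h.cone (fun Q hQ hq => L1_star h.sh h.ind hs2 hb hPs hQ hq)

/-- Every vertex has cliques of every size among its non-neighbours. -/
theorem DI.L1c (h : DI G) (v : V) (n : ℕ) :
    ∃ K : Finset V, Clq G K ∧ K.card = n ∧ v ∉ K ∧ ∀ x ∈ K, ¬ G.Adj v x := by
  obtain ⟨A, h1, h2, h3⟩ := h.compl.L1 v n
  refine ⟨A, indep_compl.1 h1, h3, ?_, ?_⟩
  · intro hv
    have := h2 v hv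
    rw [SimpleGraph.compl_adj] at this
    exact this.1 rfl
  · intro x hx
    have := h2 x hx
    rw [SimpleGraph.compl_adj] at this
    exact this.2

/-- Every trace size occurs on cliques. -/
theorem DI.alphac (h : DI G) {n k : ℕ} (hk : k ≤ n) :
    ∃ (K T : Finset V) (v : V), Clq G K ∧ K.card = n ∧ v ∉ K ∧ T ⊆ K ∧ T.card = k ∧
      ∀ x ∈ K, (G.Adj v x ↔ x ∈ T) := by
  by_contra hcon
  obtain ⟨a, b, c, hab, hbc, hac, hnac⟩ := h.p3
  refine AC_fin h.sh h.cl (gap_FC hk hcon) h.cone (fun m => ?_)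
  obtain ⟨K, h1, h2, h3, h4⟩ := h.L1c a m
  exact ⟨K, a, h1, h2, h3, h4⟩

/-- Every trace size occurs on independent sets. -/
theorem DI.alpha (h : DI G) {n k : ℕ} (hk : k ≤ n) :
    ∃ (I T : Finset V) (v : V), Indep G I ∧ I.card = n ∧ v ∉ I ∧ T ⊆ I ∧ T.card = k ∧
      ∀ x ∈ I, (G.Adj v x ↔ x ∈ T) := by
  classical
  obtain ⟨K, T, v, h1, h2, h3, h4, h5, h6⟩ := h.compl.alphac (n := n) (k := n - k) (by omega)
  refine ⟨K, K \ T, v, clq_compl.1 h1, h2, h3, Finset.sdiff_subset, ?_, ?_⟩
  · rw [Finset.card_sdiff_of_subset h4]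
    omega
  · intro x hx
    have h7 := h6 x hx
    rw [SimpleGraph.compl_adj] at h7
    have hvx : v ≠ x := fun e => h3 (e ▸ hx)
    rw [Finset.mem_sdiff]
    constructor
    · intro h8
      exact ⟨hx, fun h9 => (h7.2 h9).2 h8⟩
    · rintro ⟨-, h8⟩
      by_contra h9
      exact h8 (h7.1 ⟨hvx, h9⟩)

/-- A triangle and a vertex without neighbours in it. -/
theorem DI.k3k1 (h : DI G) : FS.K3K1 G := by
  classical
  obtain ⟨a0, -⟩ := h.p3
  obtain ⟨K, h1, h2, h3, h4⟩ := h.L1c a0 3
  obtain ⟨a, b, c, hab, hac, hbc, rfl⟩ := Finset.card_eq_three.1 h2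
  have ha : a ∈ ({a, b, c} : Finset V) := by simp
  have hb : b ∈ ({a, b, c} : Finset V) := by simp
  have hc : c ∈ ({a, b, c} : Finset V) := by simp
  refine ⟨a, b, c, a0, h1 a ha b hb hab, h1 a ha c hc hac, h1 b hb c hc hbc, ?_, ?_, ?_,
    h4 a ha, h4 b hb, h4 c hc⟩
  · rintro rfl
    exact h3 ha
  · rintro rfl
    exact h3 hb
  · rintro rfl
    exact h3 hc

/-- Every subset of an independent set is a trace. -/
def ShI (G : SimpleGraph V) : Prop :=
  ∀ I T : Finset V, Indep G I → T ⊆ I → ∃ v ∉ I, ∀ x ∈ I, (G.Adj v x ↔ x ∈ T)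

/-- Every subset of a clique is a trace. -/
def ShK (G : SimpleGraph V) : Prop :=
  ∀ K T : Finset V, Clq G K → T ⊆ K → ∃ v ∉ K, ∀ x ∈ K, (G.Adj v x ↔ x ∈ T)

theorem DI.shI (h : DI G) (hf : FS.FullSym G) : ShI G := by
  classical
  intro I T hI hT
  obtain ⟨I0, T0, v0, h1, h2, h3, h4, h5, h6⟩ := h.alpha (Finset.card_le_card hT)
  obtain ⟨φ, hφ⟩ := indep_trans h.sh h1 hI h2
  have hφI : ∀ x, x ∈ I0 ↔ φ x ∈ I := by
    intro x
    constructor
    · intro hx
      have : φ x ∈ φ '' (I0 : Set V) := ⟨x, hx, rfl⟩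
      rw [hφ] at this
      exact this
    · intro hx
      have : φ x ∈ φ '' (I0 : Set V) := by
        rw [hφ]
        exact hx
      obtain ⟨y, hy, e⟩ := this
      rw [← φ.injective e]
      exact hy
  let T' : Finset V := T0.map φ.toEquiv.toEmbedding
  have hT' : T' ⊆ I := by
    intro x hx
    obtain ⟨y, hy, rfl⟩ := Finset.mem_map.1 hx
    exact (hφI y).1 (h4 hy)
  have hTc : T'.card = T.card := by rw [Finset.card_map, h5]
  have hSc : (I \ T').card = (I \ T).card := by
    rw [Finset.card_sdiff_of_subset hT', Finset.card_sdiff_of_subset hT, hTc]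
  have hperm : (T.toList ++ (I \ T).toList).Perm (T'.toList ++ (I \ T').toList) := by
    rw [List.perm_ext_iff_of_nodup]
    · intro x
      simp only [List.mem_append, Finset.mem_toList, Finset.mem_sdiff]
      constructor
      · rintro (hx | hx)
        · by_cases hx2 : x ∈ T'
          · exact Or.inl hx2
          · exact Or.inr ⟨hT hx, hx2⟩
        · by_cases hx2 : x ∈ T'
          · exact Or.inl hx2
          · exact Or.inr ⟨hx.1, hx2⟩
      · rintro (hx | hx)
        · by_cases hx2 : x ∈ T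
          · exact Or.inl hx2
          · exact Or.inr ⟨hT' hx, hx2⟩
        · by_cases hx2 : x ∈ T
          · exact Or.inl hx2
          · exact Or.inr ⟨hx.1, hx2⟩
    · rw [List.nodup_append]
      refine ⟨Finset.nodup_toList _, Finset.nodup_toList _, ?_⟩
      intro a ha b hb e
      rw [Finset.mem_toList] at ha hb
      rw [Finset.mem_sdiff] at hb
      exact hb.2 (e ▸ ha)
    · rw [List.nodup_append]
      refine ⟨Finset.nodup_toList _, Finset.nodup_toList _, ?_⟩
      intro a ha b hb e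
      rw [Finset.mem_toList] at ha hb
      rw [Finset.mem_sdiff] at hb
      exact hb.2 (e ▸ ha)
  obtain ⟨ψ, hψ⟩ := hf (T'.toList ++ (I \ T').toList) (T.toList ++ (I \ T).toList)
    (by
      rw [List.nodup_append]
      refine ⟨Finset.nodup_toList _, Finset.nodup_toList _, ?_⟩
      intro a ha b hb e
      rw [Finset.mem_toList] at ha hb
      rw [Finset.mem_sdiff] at hb
      exact hb.2 (e ▸ ha))
    (by
      intro x hx y hy
      have hm : ∀ z, z ∈ T'.toList ++ (I \ T').toList → z ∈ I := by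
        intro z hz
        simp only [List.mem_append, Finset.mem_toList, Finset.mem_sdiff] at hz
        rcases hz with hz | hz
        · exact hT' hz
        · exact hz.1
      exact hI x (hm x hx) y (hm y hy))
    hperm
  rw [List.map_append] at hψ
  have hlen : (T'.toList.map ψ).length = T.toList.length := by
    rw [List.length_map, Finset.length_toList, Finset.length_toList, hTc]
  obtain ⟨hψ1, hψ2⟩ := List.append_inj hψ hlen
  have hψT : ∀ x, x ∈ T' → ψ x ∈ T := by
    intro x hx
    have : ψ x ∈ T'.toList.map ψ := List.mem_map_of_mem (Finset.mem_toList.2 hx)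
    rw [hψ1, Finset.mem_toList] at this
    exact this
  have hψS : ∀ x, x ∈ I \ T' → ψ x ∈ I \ T := by
    intro x hx
    have : ψ x ∈ (I \ T').toList.map ψ := List.mem_map_of_mem (Finset.mem_toList.2 hx)
    rw [hψ2, Finset.mem_toList] at this
    exact this
  have hψI : ∀ y ∈ I, ∃ x ∈ I, ψ x = y := by
    intro y hy
    have : y ∈ T'.toList.map ψ ++ (I \ T').toList.map ψ := by
      rw [hψ]
      simp only [List.mem_append, Finset.mem_toList, Finset.mem_sdiff]
      by_cases hy2 : y ∈ T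
      · exact Or.inl hy2
      · exact Or.inr ⟨hy, hy2⟩
    simp only [List.mem_append, List.mem_map, Finset.mem_toList, Finset.mem_sdiff] at this
    rcases this with ⟨x, hx, e⟩ | ⟨x, hx, e⟩
    · exact ⟨x, hT' hx, e⟩
    · exact ⟨x, hx.1, e⟩
  refine ⟨ψ (φ v0), ?_, ?_⟩
  · intro hv
    obtain ⟨x, hx, e⟩ := hψI _ hv
    have := ψ.injective e
    apply h3
    rw [hφI, ← this]
    exact hx
  · intro y hy
    obtain ⟨x, hx, rfl⟩ := hψI y hy
    have hx2 : x ∈ φ '' (I0 : Set V) := by
      rw [hφ]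
      exact hx
    obtain ⟨z, hz, rfl⟩ := hx2
    have e1 : G.Adj (ψ (φ v0)) (ψ (φ z)) ↔ z ∈ T0 := by
      rw [← h6 z hz]
      exact (ψ.map_adj_iff).trans φ.map_adj_iff
    rw [e1]
    have e2 : z ∈ T0 ↔ φ z ∈ T' := by
      constructor
      · intro h
        exact Finset.mem_map_of_mem _ h
      · intro h
        obtain ⟨w, hw, e⟩ := Finset.mem_map.1 h
        rw [← φ.injective e]
        exact hw
    rw [e2]
    constructor
    · exact fun h => hψT _ h
    · intro h
      by_contra h2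
      have := hψS (φ z) (Finset.mem_sdiff.2 ⟨hx, h2⟩)
      exact (Finset.mem_sdiff.1 this).2 h

theorem DI.shK (h : DI G) (hf : FS.FullSym Gᶜ) : ShK G := by
  classical
  intro K T hK hT
  obtain ⟨v, h1, h2⟩ := h.compl.shI hf K (K \ T) (indep_compl.2 hK) Finset.sdiff_subset
  refine ⟨v, h1, ?_⟩
  intro x hx
  have h7 := h2 x hx
  rw [SimpleGraph.compl_adj, Finset.mem_sdiff] at h7
  have hvx : v ≠ x := fun e => h1 (e ▸ hx)
  constructor
  · intro h8
    by_contra h9
    exact (h7.2 ⟨hx, h9⟩).2 h8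
  · intro h8
    by_contra h9
    exact (h7.1 ⟨hvx, h9⟩).2 h8

end SetHom
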