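import Pool.Agent.Helper76.SH.Defs

/-!
# MP_506470_co : orientations of the non-adjacent pairs of a triangle-free graph

`Orn H D`: the relation `D` orients the pairs of different non-adjacent vertices of `H` with a
local rule and without directed triangles. Two such orientations of a finite triangle-free graph
are isomorphic or anti-isomorphic.
-/

namespace SetHom
namespace Ori

variable {A : Type} {H : SimpleGraph A} {D D' : A → A → Prop}

/-- Orientations of the pairs of different non-adjacent vertices. -/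
structure Orn (H : SimpleGraph A) (D : A → A → Prop) : Prop where
  asym : ∀ u v, D u v → ¬ D v u
  tot : ∀ u v, u ≠ v → ¬ H.Adj u v → D u v ∨ D v u
  sub : ∀ u v, D u v → ¬ H.Adj u v
  loc : ∀ u v w, H.Adj v w → ¬ H.Adj u w → D u v → D w u
  loc' : ∀ u v w, H.Adj v w → ¬ H.Adj u w → D v u → D u w
  cyc : ∀ u v w, D u v → D v w → ¬ D w u

/-- Different and not adjacent. -/
def NP (H : SimpleGraph A) (u v : A) : Prop := u ≠ v ∧ ¬ H.Adj u v

theorem NP.symm {u v : A} (h : NP H u v) : NP H v u := ⟨h.1.symm, fun e => h.2 e.symm⟩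

theorem Orn.irr (hD : Orn H D) (u : A) : ¬ D u u := fun h => hD.asym u u h h

theorem Orn.ne (hD : Orn H D) {u v : A} (h : D u v) : u ≠ v := by
  rintro rfl
  exact hD.irr u h

theorem Orn.np (hD : Orn H D) {u v : A} (h : D u v) : NP H u v := ⟨hD.ne h, hD.sub u v h⟩

theorem Orn.not_iff (hD : Orn H D) {u v : A} (h : NP H u v) : ¬ D u v ↔ D v u :=
  ⟨fun h1 => (hD.tot u v h.1 h.2).resolve_left h1, fun h1 h2 => hD.asym u v h2 h1⟩

theorem Orn.loc_iff (hD : Orn H D) {u v w : A} (h1 : NP H u v) (h2 : NP H u w)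
    (h3 : H.Adj v w) : D u v ↔ D w u :=
  ⟨hD.loc u v w h3 h2.2, hD.loc' u w v h3.symm h1.2⟩

/-- The reversed orientation. -/
theorem Orn.rev (hD : Orn H D) : Orn H (fun u v => D v u) where
  asym u v h := hD.asym v u h
  tot u v h1 h2 := (hD.tot u v h1 h2).symm
  sub u v h := fun e => hD.sub v u h e.symm
  loc u v w h1 h2 h3 := hD.loc' u v w h1 h2 h3
  loc' u v w h1 h2 h3 := hD.loc u v w h1 h2 h3
  cyc u v w h1 h2 h3 := hD.cyc v u w h1 h3 h2

/-- No two disjoint edges without edges between them among the vertices not adjacent to `u`. -/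
theorem Orn.no_two (hD : Orn H D) {u x y z w : A} (hx : NP H u x) (hy : NP H u y)
    (hz : NP H u z) (hw : NP H u w) (hxy : H.Adj x y) (hzw : H.Adj z w) (nxz : NP H x z)
    (nxw : NP H x w) (nyz : NP H y z) (nyw : NP H y w) : False := by
  -- the case `u → x`, `u → z`
  have core : ∀ {x y z w : A}, NP H u x → NP H u y → NP H u z → NP H u w → H.Adj x y →
      H.Adj z w → NP H x z → NP H x w → NP H y z → NP H y w → D u x → D u z → False := by
    intro x y z w hx hy hz hw hxy hzw nxz nxw nyz nyw h1 h2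
    have h3 : D y u := hD.loc u x y hxy hy.2 h1
    have h4 : D w u := hD.loc u z w hzw hw.2 h2
    rcases hD.tot x z nxz.1 nxz.2 with h5 | h5
    · have h6 : D w x := hD.loc x z w hzw nxw.2 h5
      have h7 : D y w := hD.loc w x y hxy nyw.symm.2 h6
      have h8 : D z y := hD.loc y w z hzw.symm nyz.2 h7
      exact hD.cyc u z y h2 h8 h3
    · have h6 : D y z := hD.loc z x y hxy nyz.symm.2 h5
      have h7 : D w y := hD.loc y z w hzw nyw.2 h6
      have h8 : D x w := hD.loc w y x hxy.symm nxw.symm.2 h7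
      exact hD.cyc u x w h1 h8 h4
  rcases hD.tot u x hx.1 hx.2 with h1 | h1 <;> rcases hD.tot u z hz.1 hz.2 with h2 | h2
  · exact core hx hy hz hw hxy hzw nxz nxw nyz nyw h1 h2
  · exact core hx hy hw hz hxy hzw.symm nxw nxz nyw nyz h1 (hD.loc' u z w hzw hw.2 h2)
  · exact core hy hx hz hw hxy.symm hzw nyz nyw nxz nxw (hD.loc' u x y hxy hy.2 h1) h2
  · exact core hy hx hw hz hxy.symm hzw.symm nyw nyz nxw nxz (hD.loc' u x y hxy hy.2 h1)
      (hD.loc' u z w hzw hw.2 h2)

/-- The two orientations agree on `u, v`. -/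
def Ag (D D' : A → A → Prop) (u v : A) : Prop := D u v ↔ D' u v

theorem ag_symm (hD : Orn H D) (hD' : Orn H D') {u v : A} (h : NP H u v) :
    Ag D D' u v ↔ Ag D D' v u := by
  unfold Ag
  rw [← hD.not_iff h, ← hD'.not_iff h]
  exact not_iff_not.symm

theorem ag_link (hD : Orn H D) (hD' : Orn H D') {u v w : A} (h1 : NP H u v) (h2 : NP H u w)
    (h3 : H.Adj v w) : Ag D D' u v ↔ Ag D D' u w := by
  unfold Ag
  rw [hD.loc_iff h1 h2 h3, hD'.loc_iff h1 h2 h3, ← hD.not_iff h2, ← hD'.not_iff h2]
  exact not_iff_not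

/-- An edge not adjacent to `u`. -/
structure E (H : SimpleGraph A) (u x y : A) : Prop where
  hx : NP H u x
  hy : NP H u y
  xy : H.Adj x y

theorem E.swap {u x y : A} (h : E H u x y) : E H u y x := ⟨h.hy, h.hx, h.xy.symm⟩

theorem E.ag (hD : Orn H D) (hD' : Orn H D') {u x y : A} (h : E H u x y) :
    Ag D D' u x ↔ Ag D D' u y := ag_link hD hD' h.hx h.hy h.xy

theorem ag_const (hD : Orn H D) (hD' : Orn H D') {u x y z w : A} (h : E H u x y)
    (h' : E H u z w) : Ag D D' u x ↔ Ag D D' u z := by
  by_cases e1 : x = z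
  · rw [e1]
  by_cases e2 : x = w
  · rw [e2]
    exact h'.swap.ag hD hD'
  by_cases e3 : y = z
  · rw [← e3]
    exact h.ag hD hD'
  by_cases e4 : y = w
  · rw [h.ag hD hD', e4]
    exact h'.swap.ag hD hD'
  by_cases a1 : H.Adj x z
  · exact ag_link hD hD' h.hx h'.hx a1
  by_cases a2 : H.Adj x w
  · exact (ag_link hD hD' h.hx h'.hy a2).trans (h'.swap.ag hD hD')
  by_cases a3 : H.Adj y z
  · exact (h.ag hD hD').trans (ag_link hD hD' h.hy h'.hx a3)
  by_cases a4 : H.Adj y w
  · exact (h.ag hD hD').trans ((ag_link hD hD' h.hy h'.hy a4).trans (h'.swap.ag hD hD'))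
  exact (hD.no_two h.hx h.hy h'.hx h'.hy h.xy h'.xy ⟨e1, a1⟩ ⟨e2, a2⟩ ⟨e3, a3⟩ ⟨e4, a4⟩).elim

/-- Both vertices have neighbours and `N(u) ⊆ N(v)`. -/
theorem ag_main_sub (hD : Orn H D) (hD' : Orn H D') (tf : TF H) {u v x y x' y' t : A}
    (h : E H u x y) (h' : E H v x' y') (ht : H.Adj u t) (huv : NP H u v)
    (hsub : ∀ w, H.Adj u w → H.Adj v w) : Ag D D' u x ↔ Ag D D' v x' := by
  -- it suffices to treat the case `t` not adjacent to `y'`
  have core : ∀ {x' y' : A}, E H v x' y' → ¬ H.Adj t y' → (Ag D D' u x ↔ Ag D D' v x') := by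
    intro x' y' h' hty
    have hvt : H.Adj v t := hsub t ht
    have hux' : NP H u x' := by
      refine ⟨?_, fun e => h'.hx.2 (hsub _ e)⟩
      rintro rfl
      exact h'.hy.2 (hsub _ h'.xy)
    have huy' : NP H u y' := by
      refine ⟨?_, fun e => h'.hy.2 (hsub _ e)⟩
      rintro rfl
      exact h'.hx.2 (hsub _ h'.xy.symm)
    have h1 : E H u x' y' := ⟨hux', huy', h'.xy⟩
    have nyt : NP H y' t := by
      refine ⟨?_, fun e => hty e.symm⟩
      rintro rfl
      exact huy'.2 ht
    rw [ag_const hD hD' h h1, h1.ag hD hD', ag_symm hD hD' huy',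
      ag_link hD hD' huy'.symm nyt ht, ← ag_link hD hD' h'.hy.symm nyt hvt,
      ← ag_symm hD hD' h'.hy, ← h'.ag hD hD']
  by_cases hty : H.Adj t y'
  · have htx : ¬ H.Adj t x' := fun e => tf t x' y' e h'.xy hty
    exact (core h'.swap htx).trans (h'.ag hD hD').symm
  · exact core h' hty

/-- The main case: both vertices have neighbours. -/
theorem ag_main (hD : Orn H D) (hD' : Orn H D') (tf : TF H) {u v x y x' y' t s : A}
    (h : E H u x y) (h' : E H v x' y') (ht : H.Adj u t) (hs : H.Adj v s) :
    Ag D D' u x ↔ Ag D D' v x' := by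
  by_cases euv : u = v
  · subst euv
    exact ag_const hD hD' h h'
  by_cases auv : H.Adj u v
  · -- adjacent
    -- case B
    have caseB : ∀ {x y p q : A}, E H u x y → E H v p q → H.Adj v x → H.Adj u p →
        (Ag D D' u x ↔ Ag D D' v p) := by
      intro x y p q h h' hvx hup
      have nvy : NP H v y := by
        refine ⟨?_, fun e => tf v x y hvx h.xy e⟩
        rintro rfl
        exact h.hy.2 auv
      have nuq : NP H u q := by
        refine ⟨?_, fun e => tf u p q hup h'.xy e⟩
        rintro rfl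
        exact h'.hy.2 auv.symm
      by_cases hxp : H.Adj x p
      · have nyp : NP H y p := by
          refine ⟨?_, fun e => tf y x p h.xy.symm hxp e⟩
          rintro rfl
          exact h.hy.2 hup
        have nxq : NP H x q := by
          refine ⟨?_, fun e => tf x p q hxp h'.xy e⟩
          rintro rfl
          exact h'.hy.2 hvx
        rw [h.ag hD hD', h'.ag hD hD']
        by_cases hyq : H.Adj y q
        · rw [ag_symm hD hD' h.hy, ag_link hD hD' h.hy.symm nvy.symm auv,
            ← ag_symm hD hD' nvy, ag_link hD hD' nvy h'.hy hyq]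
        · have nyq : NP H y q := by
            refine ⟨?_, hyq⟩
            rintro rfl
            exact nyp.2 h'.xy.symm
          have e1 : E H y u v := ⟨h.hy.symm, nvy.symm, auv⟩
          have e2 : E H y q p := ⟨nyq, nyp, h'.xy.symm⟩
          have e3 : E H q v u := ⟨h'.hy.symm, nuq.symm, auv.symm⟩
          have e4 : E H q y x := ⟨nyq.symm, nxq.symm, h.xy.symm⟩
          rw [ag_symm hD hD' h.hy, ag_const hD hD' e1 e2, ag_symm hD hD' nyq,
            ag_const hD hD' e4 e3, ← ag_symm hD hD' h'.hy]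
      · have nxp : NP H x p := by
          refine ⟨?_, hxp⟩
          rintro rfl
          exact h.hx.2 hup
        rw [ag_symm hD hD' h.hx, ag_link hD hD' h.hx.symm nxp hup, ag_symm hD hD' nxp,
          ag_link hD hD' nxp.symm h'.hx.symm hvx.symm, ← ag_symm hD hD' h'.hx]
    -- case A
    have caseA : ∀ {u v x y x' y' : A}, H.Adj u v → E H u x y → E H v x' y' → ¬ H.Adj v x →
        ¬ H.Adj v y → (Ag D D' u x ↔ Ag D D' v x') := by
      intro u v x y x' y' auv h h' h1 h2
      have nvx : NP H v x := by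
        refine ⟨?_, h1⟩
        rintro rfl
        exact h.hx.2 auv
      have nvy : NP H v y := by
        refine ⟨?_, h2⟩
        rintro rfl
        exact h.hy.2 auv
      rw [ag_symm hD hD' h.hx, ag_link hD hD' h.hx.symm nvx.symm auv, ← ag_symm hD hD' nvx]
      exact ag_const hD hD' ⟨nvx, nvy, h.xy⟩ h'
    by_cases c1 : H.Adj v x
    · by_cases c2 : H.Adj u x'
      · exact caseB h h' c1 c2
      · by_cases c3 : H.Adj u y'
        · rw [h'.ag hD hD']
          exact caseB h h'.swap c1 c3
        · exact (caseA auv.symm h' h c2 c3).symm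
    · by_cases c4 : H.Adj v y
      · rw [h.ag hD hD']
        by_cases c2 : H.Adj u x'
        · exact caseB h.swap h' c4 c2
        · by_cases c3 : H.Adj u y'
          · rw [h'.ag hD hD']
            exact caseB h.swap h'.swap c4 c3
          · exact (caseA auv.symm h' h.swap c2 c3).symm
      · exact caseA auv h h' c1 c4
  · -- not adjacent
    have huv : NP H u v := ⟨euv, auv⟩
    by_cases hsub : ∀ w, H.Adj u w → H.Adj v w
    · exact ag_main_sub hD hD' tf h h' ht huv hsub
    by_cases hsub' : ∀ w, H.Adj v w → H.Adj u w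
    · exact (ag_main_sub hD hD' tf h' h hs huv.symm hsub').symm
    push Not at hsub hsub'
    obtain ⟨w, hw1, hw2⟩ := hsub
    obtain ⟨w', hw1', hw2'⟩ := hsub'
    have nvw : NP H v w := by
      refine ⟨?_, hw2⟩
      rintro rfl
      exact auv hw1
    have nuw : NP H u w' := by
      refine ⟨?_, hw2'⟩
      rintro rfl
      exact auv hw1'.symm
    have e1 : E H u v w' := ⟨huv, nuw, hw1'⟩
    have e2 : E H v u w := ⟨huv.symm, nvw, hw1⟩
    rw [ag_const hD hD' h e1, ag_symm hD hD' huv, ag_const hD hD' e2 h']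

/-- An isolated vertex and a path with four vertices. -/
theorem iso_path (hD : Orn H D) {z u t x y : A} (hz : ∀ w, ¬ H.Adj z w) (hzu : z ≠ u)
    (hut : H.Adj u t) (htx : H.Adj t x) (hxy : H.Adj x y) (huy : NP H u y) :
    D z u ↔ D y u := by
  constructor
  · intro h1
    by_contra h2
    have h3 : D u y := (hD.not_iff huy.symm).1 h2
    have h4 : D t z := hD.loc z u t hut (hz t) h1
    have h5 : D z x := hD.loc' z t x htx (hz x) h4
    have h6 : D y z := hD.loc z x y hxy (hz y) h5
    exact hD.cyc u y z h3 h6 h1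
  · intro h1
    by_contra h2
    have h3 : D u z := (hD.not_iff ⟨hzu, hz u⟩).1 h2
    have h4 : D z t := hD.loc' z u t hut (hz t) h3
    have h5 : D x z := hD.loc z t x htx (hz x) h4
    have h6 : D z y := hD.loc' z x y hxy (hz y) h5
    exact hD.cyc z y u h6 h1 h3

/-- Two isolated vertices and an edge. -/
theorem iso_iso (hD : Orn H D) {z z' a b : A} (hz : ∀ w, ¬ H.Adj z w)
    (hz' : ∀ w, ¬ H.Adj z' w) (hab : H.Adj a b) : D z a ↔ D z' a := by
  have core : ∀ {z z' : A}, (∀ w, ¬ H.Adj z w) → (∀ w, ¬ H.Adj z' w) → D z a → D z' a := by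
    intro z z' hz hz' h1
    by_contra h2
    have hza : z' ≠ a := by
      rintro rfl
      exact hz' b hab
    have hzz : z ≠ z' := by
      rintro rfl
      exact h2 h1
    have h3 : D a z' := (hD.not_iff ⟨hza, hz' a⟩).1 h2
    have h4 : D b z := hD.loc z a b hab (hz b) h1
    have h5 : D z' b := hD.loc' z' a b hab (hz' b) h3
    rcases hD.tot z z' hzz (hz z') with h6 | h6
    · exact hD.cyc z z' b h6 h5 h4
    · exact hD.cyc z' z a h6 h1 h3
  exact ⟨core hz hz', core hz' hz⟩

/-- An isolated vertex and a vertex with neighbours. -/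
theorem ag_iso_main (hD : Orn H D) (hD' : Orn H D') (tf : TF H) {z u a b x y t : A}
    (hz : ∀ w, ¬ H.Adj z w) (h : E H z a b) (h' : E H u x y) (ht : H.Adj u t) :
    Ag D D' z a ↔ Ag D D' u x := by
  have hzu : z ≠ u := by
    rintro rfl
    exact hz t ht
  have hzt : z ≠ t := by
    rintro rfl
    exact hz u ht.symm
  have e1 : E H z u t := ⟨⟨hzu, hz u⟩, ⟨hzt, hz t⟩, ht⟩
  rw [ag_const hD hD' h e1]
  have nzx : NP H z x := by
    refine ⟨?_, hz x⟩
    rintro rfl
    exact hz y h'.xy
  have nzy : NP H z y := by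
    refine ⟨?_, hz y⟩
    rintro rfl
    exact hz x h'.xy.symm
  have ntx : t ≠ x := by
    rintro rfl
    exact h'.hx.2 ht
  have nty : t ≠ y := by
    rintro rfl
    exact h'.hy.2 ht
  by_cases c1 : H.Adj t x
  · rw [h'.ag hD hD', ag_symm hD hD' h'.hy]
    unfold Ag
    rw [iso_path hD hz hzu ht c1 h'.xy h'.hy, iso_path hD' hz hzu ht c1 h'.xy h'.hy]
  · by_cases c2 : H.Adj t y
    · rw [ag_symm hD hD' h'.hx]
      unfold Ag
      rw [iso_path hD hz hzu ht c2 h'.xy.symm h'.hx, iso_path hD' hz hzu ht c2 h'.xy.symm h'.hx]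
    · exact (hD.no_two e1.hx e1.hy nzx nzy ht h'.xy h'.hx h'.hy ⟨ntx, c1⟩ ⟨nty, c2⟩).elim

/-- The two orientations agree or disagree constantly. -/
theorem ag_all (hD : Orn H D) (hD' : Orn H D') (tf : TF H) {u v x y x' y' : A}
    (h : E H u x y) (h' : E H v x' y') : Ag D D' u x ↔ Ag D D' v x' := by
  by_cases hu : ∃ t, H.Adj u t
  · obtain ⟨t, ht⟩ := hu
    by_cases hv : ∃ s, H.Adj v s
    · obtain ⟨s, hs⟩ := hv
      exact ag_main hD hD' tf h h' ht hs
    · push Not at hv
      exact (ag_iso_main hD hD' tf hv h' h ht).symm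
  · push Not at hu
    by_cases hv : ∃ s, H.Adj v s
    · obtain ⟨s, hs⟩ := hv
      exact ag_iso_main hD hD' tf hu h h' hs
    · push Not at hv
      have nvx : NP H v x := by
        refine ⟨?_, hv x⟩
        rintro rfl
        exact hv y h.xy
      have nvy : NP H v y := by
        refine ⟨?_, hv y⟩
        rintro rfl
        exact hv x h.xy.symm
      have e1 : Ag D D' u x ↔ Ag D D' v x := by
        unfold Ag
        rw [iso_iso hD hu hv h.xy, iso_iso hD' hu hv h.xy]
      rw [e1]
      exact ag_const hD hD' ⟨nvx, nvy, h.xy⟩ h'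

/-- Twins. -/
def Tw (H : SimpleGraph A) (u v : A) : Prop := ∀ w, H.Adj u w ↔ H.Adj v w

theorem Tw.symm {u v : A} (h : Tw H u v) : Tw H v u := fun w => (h w).symm

theorem Tw.trans {u v w : A} (h : Tw H u v) (h' : Tw H v w) : Tw H u w :=
  fun z => (h z).trans (h' z)

theorem Tw.not_adj {u v : A} (h : Tw H u v) : ¬ H.Adj u v := fun e => H.irrefl ((h v).1 e)

theorem agree_or (hD : Orn H D) (hD' : Orn H D') (tf : TF H) :
    (∀ u v, NP H u v → ¬ Tw H u v → (D u v ↔ D' u v)) ∨
      ∀ u v, NP H u v → ¬ Tw H u v → (D u v ↔ D' v u) := by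
  by_cases hex : ∃ u x y, E H u x y ∧ Ag D D' u x
  · left
    obtain ⟨u0, x0, y0, h0, hag⟩ := hex
    intro u v huv htw
    unfold Tw at htw
    push Not at htw
    obtain ⟨w, hw⟩ := htw
    rcases hw with ⟨h1, h2⟩ | ⟨h1, h2⟩
    · have nvw : NP H v w := by
        refine ⟨?_, h2⟩
        rintro rfl
        exact huv.2 h1
      have e : E H v u w := ⟨huv.symm, nvw, h1⟩
      have h3 : Ag D D' v u := (ag_all hD hD' tf h0 e).1 hag
      exact (ag_symm hD hD' huv).2 h3
    · have nuw : NP H u w := by
        refine ⟨?_, h1⟩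
        rintro rfl
        exact huv.2 h2.symm
      have e : E H u v w := ⟨huv, nuw, h2⟩
      exact (ag_all hD hD' tf h0 e).1 hag
  · right
    push Not at hex
    intro u v huv htw
    unfold Tw at htw
    push Not at htw
    obtain ⟨w, hw⟩ := htw
    have key : ¬ Ag D D' u v := by
      rcases hw with ⟨h1, h2⟩ | ⟨h1, h2⟩
      · have nvw : NP H v w := by
          refine ⟨?_, h2⟩
          rintro rfl
          exact huv.2 h1
        rw [ag_symm hD hD' huv]
        exact hex v u w ⟨huv.symm, nvw, h1⟩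
      · have nuw : NP H u w := by
          refine ⟨?_, h1⟩
          rintro rfl
          exact huv.2 h2.symm
        exact hex u v w ⟨huv, nuw, h2⟩
    have h3 := hD'.not_iff huv
    have h4 := hD.not_iff huv
    unfold Ag at key
    constructor
    · intro h5
      by_contra h6
      rw [← h3, not_not] at h6
      exact key ⟨fun _ => h6, fun _ => h5⟩
    · intro h5
      by_contra h6
      rw [← h3] at h5
      exact key ⟨fun h7 => absurd h7 h6, fun h7 => absurd h7 h5⟩

/-- Twins have the same orientations to the other vertices. -/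
theorem tw_inv (hD : Orn H D) (tf : TF H) {u u' v : A} (ht : Tw H u u') (hv : NP H u v)
    (htw : ¬ Tw H u v) : D u v ↔ D u' v := by
  have nuv' : NP H u' v := by
    refine ⟨?_, fun e => hv.2 ((ht v).2 e)⟩
    rintro rfl
    exact htw ht
  by_cases c1 : ∃ w, H.Adj u w ∧ ¬ H.Adj v w
  · obtain ⟨w, h1, h2⟩ := c1
    have nvw : NP H v w := by
      refine ⟨?_, h2⟩
      rintro rfl
      exact hv.2 h1
    have h1' : H.Adj u' w := (ht w).1 h1
    rw [← hD.loc_iff nvw hv.symm h1.symm, ← hD.loc_iff nvw nuv'.symm h1'.symm]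
  · push Not at c1
    have c2 : ∃ w, H.Adj v w ∧ ¬ H.Adj u w := by
      by_contra hcon
      push Not at hcon
      exact htw (fun w => ⟨c1 w, hcon w⟩)
    obtain ⟨w, h1, h2⟩ := c2
    have nuw : NP H u w := by
      refine ⟨?_, h2⟩
      rintro rfl
      exact hv.2 h1.symm
    have nuw' : NP H u' w := by
      refine ⟨?_, fun e => h2 ((ht w).2 e)⟩
      rintro rfl
      exact nuv'.2 h1.symm
    by_cases c3 : ∃ m, H.Adj u m
    · obtain ⟨m, hm⟩ := c3
      have hvm : H.Adj v m := c1 m hm
      have hm' : H.Adj u' m := (ht m).1 hm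
      have nwm : NP H w m := by
        refine ⟨?_, fun e => tf v m w hvm e.symm h1⟩
        rintro rfl
        exact h2 hm
      rw [hD.loc_iff hv nuw h1, hD.loc_iff nuv' nuw' h1, hD.loc_iff nuw.symm nwm hm,
        hD.loc_iff nuw'.symm nwm hm']
    · push Not at c3
      exact iso_iso hD c3 (fun w hw => c3 w ((ht w).2 hw)) h1

section fin
variable [Fintype A]

open Classical in
/-- The rank in the class of twins. -/
noncomputable def rk (H : SimpleGraph A) (D : A → A → Prop) (u : A) : ℕ :=
  (Finset.univ.filter (fun v => Tw H u v ∧ D v u)).card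

theorem rk_lt (hD : Orn H D) {u v : A} (ht : Tw H u v) (h : D u v) : rk H D u < rk H D v := by
  classical
  unfold rk
  apply Finset.card_lt_card
  rw [Finset.ssubset_iff_of_subset]
  · refine ⟨u, ?_, ?_⟩
    · simp only [Finset.mem_filter, Finset.mem_univ, true_and]
      exact ⟨ht.symm, h⟩
    · simp only [Finset.mem_filter, Finset.mem_univ, true_and, not_and]
      intro _
      exact hD.irr u
  · intro w hw
    simp only [Finset.mem_filter, Finset.mem_univ, true_and] at hw ⊢
    have hvw : Tw H v w := ht.symm.trans hw.1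
    refine ⟨hvw, ?_⟩
    have hne : w ≠ v := by
      rintro rfl
      exact hD.asym _ _ h hw.2
    rcases hD.tot w v hne hvw.symm.not_adj with h1 | h1
    · exact h1
    · exact (hD.cyc w u v hw.2 h h1).elim

theorem rk_iff (hD : Orn H D) {u v : A} (ht : Tw H u v) : D u v ↔ rk H D u < rk H D v := by
  refine ⟨rk_lt hD ht, fun h => ?_⟩
  by_contra h1
  by_cases e : u = v
  · rw [e] at h
    exact lt_irrefl _ h
  · rcases hD.tot u v e ht.not_adj with h2 | h2
    · exact h1 h2
    · exact absurd (rk_lt hD ht.symm h2) (by omega)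

theorem exists_rk (hD : Orn H D) (hD' : Orn H D') (u : A) :
    ∃ u', Tw H u u' ∧ rk H D' u' = rk H D u := by
  classical
  let C : Finset A := Finset.univ.filter (fun v => Tw H u v)
  have hC : ∀ v, v ∈ C ↔ Tw H u v := by
    intro v
    simp [C]
  have hlt : ∀ {D : A → A → Prop}, Orn H D → ∀ v ∈ C, rk H D v < C.card := by
    intro D hD v hv
    rw [hC] at hv
    unfold rk
    apply Finset.card_lt_card
    rw [Finset.ssubset_iff_of_subset]
    · refine ⟨v, (hC v).2 hv, ?_⟩
      simp only [Finset.mem_filter, Finset.mem_univ, true_and, not_and]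
      intro _
      exact hD.irr v
    · intro w hw
      simp only [Finset.mem_filter, Finset.mem_univ, true_and] at hw
      exact (hC w).2 (hv.trans hw.1)
  have hinj : Set.InjOn (rk H D') C := by
    intro v hv w hw e
    rw [Finset.mem_coe, hC] at hv hw
    by_contra hne
    have htw : Tw H v w := hv.symm.trans hw
    rcases hD'.tot v w hne htw.not_adj with h | h
    · have := rk_lt hD' htw h
      omega
    · have := rk_lt hD' htw.symm h
      omega
  have himg : C.image (rk H D') = Finset.range C.card := by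
    apply Finset.eq_of_subset_of_card_le
    · intro n hn
      obtain ⟨v, hv, rfl⟩ := Finset.mem_image.1 hn
      exact Finset.mem_range.2 (hlt hD' v hv)
    · rw [Finset.card_range, Finset.card_image_of_injOn hinj]
  have hu : rk H D u ∈ C.image (rk H D') := by
    rw [himg]
    exact Finset.mem_range.2 (hlt hD u ((hC u).2 (fun _ => Iff.rfl)))
  obtain ⟨u', hu', e⟩ := Finset.mem_image.1 hu
  exact ⟨u', (hC u').1 hu', e⟩

/-- Two orientations which agree outside the twins are isomorphic. -/
theorem exists_perm (hD : Orn H D) (hD' : Orn H D') (tf : TF H)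
    (hag : ∀ u v, NP H u v → ¬ Tw H u v → (D u v ↔ D' u v)) :
    ∃ σ : Equiv.Perm A, ∀ u v, D u v ↔ D' (σ u) (σ v) := by
  classical
  choose s hs1 hs2 using exists_rk hD hD'
  have hinj : Function.Injective s := by
    intro u v e
    have htw : Tw H u v := (hs1 u).trans (by rw [e]; exact (hs1 v).symm)
    by_contra hne
    have h1 := hs2 u
    have h2 := hs2 v
    rw [e] at h1
    rcases hD.tot u v hne htw.not_adj with h | h
    · have := rk_lt hD htw h
      omega
    · have := rk_lt hD htw.symm h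
      omega
  refine ⟨Equiv.ofBijective s (Finite.injective_iff_bijective.1 hinj), ?_⟩
  intro u v
  show D u v ↔ D' (s u) (s v)
  by_cases e : u = v
  · subst e
    exact iff_of_false (hD.irr _) (hD'.irr _)
  by_cases a : H.Adj u v
  · refine iff_of_false (fun h => hD.sub u v h a) (fun h => hD'.sub _ _ h ?_)
    rw [← hs1 u, H.adj_comm, ← hs1 v, H.adj_comm]
    exact a
  by_cases t : Tw H u v
  · have t' : Tw H (s u) (s v) := ((hs1 u).symm.trans t).trans (hs1 v)
    rw [rk_iff hD t, rk_iff hD' t', hs2, hs2]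
  · have np : NP H u v := ⟨e, a⟩
    have nsu : NP H (s u) v := by
      refine ⟨?_, fun h => a ((hs1 u v).2 h)⟩
      intro h
      exact t (h ▸ hs1 u)
    have tsu : ¬ Tw H (s u) v := fun h => t ((hs1 u).trans h)
    have nss : NP H (s u) (s v) := by
      refine ⟨fun h => e (hinj h), ?_⟩
      intro h
      apply nsu.2
      rw [H.adj_comm, hs1 v, H.adj_comm]
      exact h
    rw [hag u v np t, tw_inv hD' tf (hs1 u) np t, ← not_iff_not, hD'.not_iff nsu,
      hD'.not_iff nss]
    exact tw_inv hD' tf (hs1 v) nsu.symm (fun h => tsu h.symm)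

/-- Two orientations of a finite triangle-free graph are isomorphic or anti-isomorphic. -/
theorem exists_perm_or (hD : Orn H D) (hD' : Orn H D') (tf : TF H) :
    (∃ σ : Equiv.Perm A, ∀ u v, D u v ↔ D' (σ u) (σ v)) ∨
      ∃ σ : Equiv.Perm A, ∀ u v, D u v ↔ D' (σ v) (σ u) := by
  rcases agree_or hD hD' tf with h | h
  · exact Or.inl (exists_perm hD hD' tf h)
  · exact Or.inr (exists_perm hD hD'.rev tf h)

end fin

end Ori
end SetHom
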