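import Pool.Agent.Helper28.DI.A3

/-!
# MP_506470_co : the modules A1, A2, A3 for graphs which are set-homogeneous only for finite sets
without isolated vertices (and for single vertices)

This file repeats the proofs of the modules Helper28/DI/A1, A2, A3 with a weaker hypothesis.
-/

namespace SetHom

variable {V : Type} {G : SimpleGraph V}

/-- Set-homogeneity for finite sets with at most one element or without isolated vertices. -/
def QSH (G : SimpleGraph V) : Prop :=
  ∀ U W : Finset V, Nonempty (G.induce (U : Set V) ≃g G.induce (W : Set V)) →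
    (U.card ≤ 1 ∨ ∀ x ∈ U, ∃ y ∈ U, G.Adj x y) → ∃ φ : G ≃g G, φ '' (U : Set V) = W

theorem QSHmap (hs : QSH G) (S : Finset V) (hS : S.card ≤ 1 ∨ ∀ x ∈ S, ∃ y ∈ S, G.Adj x y)
    (f : V → V) (hf : Set.InjOn f S) (hadj : ∀ x ∈ S, ∀ y ∈ S, (G.Adj (f x) (f y) ↔ G.Adj x y)) :
    ∃ φ : G ≃g G, φ '' (S : Set V) = f '' (S : Set V) := by
  classical
  obtain ⟨φ, hφ⟩ := hs S (S.image f) (iso_of_map S f hf hadj) hS
  exact ⟨φ, by rw [hφ, Finset.coe_image]⟩

theorem clq_trans_q (hs : QSH G) {A B : Finset V} (hA : Clq G A)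
    (hB : Clq G B) (h : A.card = B.card) : ∃ φ : G ≃g G, φ '' (A : Set V) = B := by
  obtain ⟨f, hf, hfB⟩ := exists_map h
  have hm : ∀ x ∈ A, f x ∈ B := fun x hx => by
    have : f x ∈ f '' (A : Set V) := ⟨x, hx, rfl⟩
    rw [hfB] at this
    exact this
  have hcase : A.card ≤ 1 ∨ ∀ x ∈ A, ∃ y ∈ A, G.Adj x y := by
    by_cases h1 : A.card ≤ 1
    · exact Or.inl h1
    · refine Or.inr (fun x hx => ?_)
      obtain ⟨y, hy, hyx⟩ := Finset.exists_mem_ne (by omega : 1 < A.card) x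
      exact ⟨y, hy, hA x hx y hy hyx.symm⟩
  obtain ⟨φ, hφ⟩ := QSHmap hs A hcase f hf (by
    intro x hx y hy
    by_cases hxy : x = y
    · subst hxy
      simp
    · exact iff_of_true (hB _ (hm x hx) _ (hm y hy) (fun e => hxy (hf hx hy e)))
        (hA x hx y hy hxy))
  exact ⟨φ, hφ.trans hfB⟩

theorem clq_extend_q (hs : QSH G)
    (hcl : ∀ n : ℕ, ∃ A : Finset V, Clq G A ∧ A.card = n) {A : Finset V} (hA : Clq G A) {n : ℕ}
    (hn : A.card ≤ n) : ∃ B : Finset V, A ⊆ B ∧ Clq G B ∧ B.card = n := by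
  classical
  obtain ⟨C, hC, hCn⟩ := hcl n
  obtain ⟨D, hDC, hD⟩ := Finset.exists_subset_card_eq (s := C) (n := A.card) (by omega)
  obtain ⟨φ, hφ⟩ := clq_trans_q hs (hC.mono hDC) hA hD
  refine ⟨C.map φ.toEquiv.toEmbedding, ?_, ?_, ?_⟩
  · intro x hx
    have : x ∈ φ '' (D : Set V) := by
      rw [hφ]
      exact hx
    obtain ⟨y, hy, rfl⟩ := this
    exact Finset.mem_map_of_mem _ (hDC hy)
  · intro x hx y hy hxy
    obtain ⟨x', hx', rfl⟩ := Finset.mem_map.1 hx
    obtain ⟨y', hy', rfl⟩ := Finset.mem_map.1 hy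
    exact φ.map_adj_iff.2 (hC x' hx' y' hy' (fun e => hxy (by rw [e])))
  · rw [Finset.card_map, hCn]

theorem lineA_ex_q (hs : QSH G) (hcl : ∀ n : ℕ, ∃ A : Finset V, Clq G A ∧ A.card = n)
    (N : ℕ) {Q : Finset V} (hQ : Clq G Q) : ∃ L, LineA G N L ∧ (Q : Set V) ⊆ L := by
  obtain ⟨Q', h1, h2, h3⟩ := clq_extend_q hs hcl hQ (n := Q.card + N) (by omega)
  obtain ⟨K, hK, hKc⟩ := Finset.exists_subset_card_eq (s := Q') (n := N) (by omega)
  refine ⟨{x | x ∈ K ∨ Full G x K}, ⟨K, h2.mono hK, hKc, rfl⟩, ?_⟩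
  intro x hx
  exact A1_sub h2 hK (h1 hx)

theorem lineA_inf_q (hs : QSH G) (hcl : ∀ n : ℕ, ∃ A : Finset V, Clq G A ∧ A.card = n)
    {N : ℕ} {L : Set V} (hL : LineA G N L) : L.Infinite := by
  obtain ⟨K, hK, hKn, rfl⟩ := hL
  intro hfin
  obtain ⟨B, h1, h2, h3⟩ := clq_extend_q hs hcl hK (n := N + hfin.toFinset.card + 1) (by omega)
  have h4 : B ⊆ hfin.toFinset := by
    intro x hx
    rw [Set.Finite.mem_toFinset]
    exact A1_sub h2 h1 hx
  have h5 := Finset.card_le_card h4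
  omega

theorem A2_aux_q (hs : QSH G)
    (hcl : ∀ n : ℕ, ∃ A : Finset V, Clq G A ∧ A.card = n) {N : ℕ} (hN : NoCone G N) (k : ℕ)
    (L : Fin k → Set V) (hL : ∀ i, LineA G N (L i)) (hinj : Function.Injective L)
    (n : Fin k → ℕ) (s : Finset (Fin k)) : ∃ Ω : Fin k → Finset V,
      (∀ i ∈ s, (Ω i : Set V) ⊆ L i ∧ (Ω i).card = n i) ∧
      (∀ i ∈ s, ∀ x ∈ Ω i, ∀ j, j ≠ i → x ∉ L j) ∧
      ∀ i ∈ s, ∀ j ∈ s, i ≠ j → ∀ x ∈ Ω i, ∀ y ∈ Ω j, x ≠ y ∧ ¬ G.Adj x y := by
  classical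
  induction s using Finset.induction_on with
  | empty => exact ⟨fun _ => ∅, by simp, by simp, by simp⟩
  | insert m s hm ih =>
    obtain ⟨Ω, h1, h2, h3⟩ := ih
    have hbad1 : (⋃ j ∈ (Finset.univ.erase m : Finset (Fin k)), (L m ∩ L j)).Finite := by
      apply Set.Finite.biUnion (Finset.finite_toSet _)
      intro j hj
      have hjm : j ≠ m := (Finset.mem_erase.1 hj).1
      exact A2_inter_finite hN (hL m) (hL j) (fun e => hjm (hinj e).symm)
    have hbad2 : (⋃ j ∈ s, ⋃ x ∈ Ω j, {y | y ∈ L m ∧ G.Adj x y}).Finite := by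
      apply Set.Finite.biUnion (Finset.finite_toSet _)
      intro j hj
      apply Set.Finite.biUnion (Finset.finite_toSet _)
      intro x hx
      apply A2_nbr_finite hN (hL m)
      exact h2 j hj x hx m (by rintro rfl; exact hm hj)
    have hinf := (lineA_inf_q hs hcl (hL m)).sdiff (hbad1.union hbad2)
    obtain ⟨Q, hQ, hQc⟩ := hinf.exists_subset_card_eq (n m)
    have q1 : ∀ y ∈ Q, ∀ j, j ≠ m → y ∉ L j := by
      intro y hy j hj hyj
      apply (hQ hy).2
      left
      exact Set.mem_biUnion (Finset.mem_erase.2 ⟨hj, Finset.mem_univ _⟩) ⟨(hQ hy).1, hyj⟩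
    have q2 : ∀ y ∈ Q, ∀ j ∈ s, ∀ x ∈ Ω j, ¬ G.Adj x y := by
      intro y hy j hj x hx hxy
      apply (hQ hy).2
      right
      exact Set.mem_biUnion hj (Set.mem_biUnion hx ⟨(hQ hy).1, hxy⟩)
    have hne : ∀ i ∈ s, i ≠ m := by
      rintro i hi rfl; exact hm hi
    refine ⟨Function.update Ω m Q, ?_, ?_, ?_⟩
    · intro i hi
      rcases Finset.mem_insert.1 hi with rfl | hi
      · rw [Function.update_self]
        exact ⟨fun y hy => (hQ hy).1, hQc⟩
      · rw [Function.update_of_ne (hne i hi)]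
        exact h1 i hi
    · intro i hi
      rcases Finset.mem_insert.1 hi with rfl | hi
      · rw [Function.update_self]
        exact fun y hy j hj => q1 y hy j hj
      · rw [Function.update_of_ne (hne i hi)]
        exact h2 i hi
    · intro i hi j hj hij
      rcases Finset.mem_insert.1 hi with hi1 | hi1
      · rcases Finset.mem_insert.1 hj with hj1 | hj1
        · exact absurd (hi1.trans hj1.symm) hij
        · rw [hi1, Function.update_self, Function.update_of_ne (hne j hj1)]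
          intro x hx y hy
          refine ⟨?_, fun h => q2 x hx j hj1 y hy h.symm⟩
          rintro rfl
          exact q1 x hx j (hne j hj1) ((h1 j hj1).1 hy)
      · rcases Finset.mem_insert.1 hj with hj1 | hj1
        · rw [hj1, Function.update_self, Function.update_of_ne (hne i hi1)]
          intro x hx y hy
          refine ⟨?_, fun h => q2 y hy i hi1 x hx h⟩
          rintro rfl
          exact q1 x hy i (hne i hi1) ((h1 i hi1).1 hx)
        · rw [Function.update_of_ne (hne i hi1), Function.update_of_ne (hne j hj1)]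
          exact h3 i hi1 j hj1 hij

theorem lineA_trim_q (hs : QSH G)
    (hcl : ∀ n : ℕ, ∃ A : Finset V, Clq G A ∧ A.card = n) {N : ℕ} (hN : NoCone G N) (k : ℕ)
    (L : Fin k → Set V) (hL : ∀ i, LineA G N (L i)) (hinj : Function.Injective L)
    (n : Fin k → ℕ) : ∃ Ω : Fin k → Finset V, (∀ i, (Ω i : Set V) ⊆ L i ∧ (Ω i).card = n i) ∧
      ∀ i j, i ≠ j → ∀ x ∈ Ω i, ∀ y ∈ Ω j, x ≠ y ∧ ¬ G.Adj x y := by
  obtain ⟨Ω, h1, -, h3⟩ := A2_aux_q hs hcl hN k L hL hinj n Finset.univ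
  exact ⟨Ω, fun i => h1 i (Finset.mem_univ _),
    fun i j => h3 i (Finset.mem_univ _) j (Finset.mem_univ _)⟩

theorem lineA_trans_q (hs : QSH G)
    (hcl : ∀ n : ℕ, ∃ A : Finset V, Clq G A ∧ A.card = n) {N : ℕ} (hN : NoCone G N) (k : ℕ)
    (L M : Fin k → Set V) (hL : ∀ i, LineA G N (L i)) (hLi : Function.Injective L)
    (hM : ∀ i, LineA G N (M i)) (hMi : Function.Injective M) :
    ∃ φ : G ≃g G, ∀ i, φ '' L i = M i := by
  classical
  obtain ⟨Ω, hΩ, hΩ2⟩ := lineA_trim_q hs hcl hN k L hL hLi (fun i => N + 2 + i)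
  obtain ⟨Ω', hΩ', hΩ2'⟩ := lineA_trim_q hs hcl hN k M hM hMi (fun i => N + 2 + i)
  have hcq : ∀ i, Clq G (Ω i) := fun i => A1_clqset hN (hL i) (hΩ i).1
  have hcq' : ∀ i, Clq G (Ω' i) := fun i => A1_clqset hN (hM i) (hΩ' i).1
  -- the bijections
  have hex : ∀ i, ∃ f : V → V, Set.InjOn f (Ω i) ∧ f '' (Ω i : Set V) = Ω' i := fun i =>
    exists_map ((hΩ i).2.trans (hΩ' i).2.symm)
  choose f hf1 hf2 using hex
  have hfm : ∀ i, ∀ x ∈ Ω i, f i x ∈ Ω' i := by
    intro i x hx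
    have : f i x ∈ f i '' (Ω i : Set V) := ⟨x, hx, rfl⟩
    rw [hf2] at this
    exact this
  have huniq : ∀ i j x, x ∈ Ω i → x ∈ Ω j → i = j := by
    intro i j x hi hj
    by_contra hne
    exact (hΩ2 i j hne x hi x hj).1 rfl
  have huniq' : ∀ i j x, x ∈ Ω' i → x ∈ Ω' j → i = j := by
    intro i j x hi hj
    by_contra hne
    exact (hΩ2' i j hne x hi x hj).1 rfl
  let F : V → V := fun x => if h : ∃ i, x ∈ Ω i then f h.choose x else x
  have hF : ∀ i, ∀ x ∈ Ω i, F x = f i x := by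
    intro i x hx
    have h : ∃ i, x ∈ Ω i := ⟨i, hx⟩
    show (if h : ∃ i, x ∈ Ω i then f h.choose x else x) = f i x
    rw [dif_pos h, huniq _ _ x h.choose_spec hx]
  let S : Finset V := Finset.univ.biUnion Ω
  have hS : ∀ x, x ∈ S ↔ ∃ i, x ∈ Ω i := by
    intro x
    simp [S]
  obtain ⟨φ, hφ⟩ := QSHmap hs S
    (by
      refine Or.inr (fun x hx => ?_)
      obtain ⟨i, hi⟩ := (hS x).1 hx
      obtain ⟨y, hy, hyx⟩ := Finset.exists_mem_ne (s := Ω i) (by rw [(hΩ i).2]; omega) x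
      exact ⟨y, (hS y).2 ⟨i, hy⟩, hcq i x hi y hy hyx.symm⟩) F
    (by
      intro x hx y hy hxy
      obtain ⟨i, hi⟩ := (hS x).1 hx
      obtain ⟨j, hj⟩ := (hS y).1 hy
      rw [hF i x hi, hF j y hj] at hxy
      have hij : i = j := huniq' i j _ (hfm i x hi) (hxy ▸ hfm j y hj)
      subst hij
      exact hf1 i hi hj hxy)
    (by
      intro x hx y hy
      obtain ⟨i, hi⟩ := (hS x).1 hx
      obtain ⟨j, hj⟩ := (hS y).1 hy
      rw [hF i x hi, hF j y hj]
      by_cases hij : i = j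
      · subst hij
        by_cases hxy : x = y
        · subst hxy
          simp
        · exact iff_of_true (hcq' i _ (hfm i x hi) _ (hfm i y hj)
            (fun e => hxy (hf1 i hi hj e))) (hcq i x hi y hj hxy)
      · exact iff_of_false (hΩ2' i j hij _ (hfm i x hi) _ (hfm j y hj)).2
          (hΩ2 i j hij x hi y hj).2)
  -- images of points of `S`
  have him : ∀ i, ∀ x ∈ Ω i, ∃ j, φ x ∈ Ω' j := by
    intro i x hx
    have : φ x ∈ F '' (S : Set V) := by
      rw [← hφ]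
      exact ⟨x, (hS x).2 ⟨i, hx⟩, rfl⟩
    obtain ⟨w, hw, e⟩ := this
    obtain ⟨j, hj⟩ := (hS w).1 hw
    rw [hF j w hj] at e
    exact ⟨j, e ▸ hfm j w hj⟩
  have him' : ∀ j, ∀ z ∈ Ω' j, ∃ i, ∃ w ∈ Ω i, φ w = z := by
    intro j z hz
    have : z ∈ f j '' (Ω j : Set V) := by
      rw [hf2]
      exact hz
    obtain ⟨x, hx, rfl⟩ := this
    have : F x ∈ φ '' (S : Set V) := by
      rw [hφ]
      exact ⟨x, (hS x).2 ⟨j, hx⟩, rfl⟩
    obtain ⟨w, hw, e⟩ := this
    obtain ⟨i, hi⟩ := (hS w).1 hw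
    exact ⟨i, w, hi, e.trans (hF j x hx)⟩
  have hpos : ∀ i, (Ω i).Nonempty := by
    intro i
    rw [← Finset.card_pos, (hΩ i).2]
    omega
  have key : ∀ i, φ '' (Ω i : Set V) = Ω' i := by
    intro i
    obtain ⟨x₀, hx₀⟩ := hpos i
    obtain ⟨j, hj⟩ := him i x₀ hx₀
    have hsub : ∀ y ∈ Ω i, φ y ∈ Ω' j := by
      intro y hy
      by_cases hxy : y = x₀
      · rw [hxy]; exact hj
      · obtain ⟨j', hj'⟩ := him i y hy
        by_cases hjj : j' = j
        · rw [← hjj]; exact hj'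
        · exfalso
          have h1 : G.Adj (φ y) (φ x₀) := φ.map_adj_iff.2 (hcq i y hy x₀ hx₀ hxy)
          exact (hΩ2' j' j hjj _ hj' _ hj).2 h1
    have hsup : ∀ z ∈ Ω' j, ∃ w ∈ Ω i, φ w = z := by
      intro z hz
      obtain ⟨i', w, hw, e⟩ := him' j z hz
      by_cases hii : i' = i
      · subst hii; exact ⟨w, hw, e⟩
      · exfalso
        have h1 := hΩ2 i' i hii w hw x₀ hx₀
        have h2 : z ≠ φ x₀ := by
          intro h
          exact h1.1 (φ.injective (e.trans h))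
        have h3 := hcq' j z hz (φ x₀) hj h2
        rw [← e] at h3
        exact h1.2 (φ.map_adj_iff.1 h3)
    have heq : (Ω i).map φ.toEquiv.toEmbedding = Ω' j := by
      ext z
      constructor
      · intro hz
        obtain ⟨w, hw, rfl⟩ := Finset.mem_map.1 hz
        exact hsub w hw
      · intro hz
        obtain ⟨w, hw, rfl⟩ := hsup z hz
        exact Finset.mem_map_of_mem _ hw
    have hcard := congrArg Finset.card heq
    rw [Finset.card_map, (hΩ i).2, (hΩ' j).2] at hcard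
    have hij : i = j := Fin.ext (by omega)
    subst hij
    rw [← heq]
    ext z
    simp
  refine ⟨φ, fun i => ?_⟩
  apply lineA_uniq hN (lineA_map (hL i) φ) (hM i) (Q := Ω' i)
  · rw [(hΩ' i).2]; omega
  · rw [← key i]
    exact Set.image_mono (hΩ i).1
  · exact (hΩ' i).1

theorem exists_cone_q (hs : QSH G)
    (hcl : ∀ n : ℕ, ∃ A : Finset V, Clq G A ∧ A.card = n)
    (hp : ∃ a b c, G.Adj a b ∧ G.Adj b c ∧ a ≠ c ∧ ¬ G.Adj a c) (N : ℕ) :
    ∃ (K : Finset V) (x y : V), Clq G K ∧ K.card = N ∧ Full G x K ∧ Full G y K ∧ x ≠ y ∧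
      ¬ G.Adj x y := by
  classical
  by_contra hcon
  have hN0 : NoCone G N := by
    intro K hK hKn x y hx hy hxy
    by_contra h
    exact hcon ⟨K, x, y, hK, hKn, hx, hy, hxy, h⟩
  have hex : ∃ N, NoCone G N := ⟨N, hN0⟩
  obtain ⟨M, hM, hmin⟩ : ∃ M, NoCone G M ∧ ∀ m < M, ¬ NoCone G m :=
    ⟨Nat.find hex, Nat.find_spec hex, fun m hm => Nat.find_min hex hm⟩
  obtain ⟨a, b, c, hab, hbc, hac, hnac⟩ := hp
  have hM2 : 2 ≤ M := by
    by_contra hlt
    have h01 : M = 0 ∨ M = 1 := by omega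
    rcases h01 with rfl | rfl
    · exact hnac (hM ∅ (by intro x hx; simp at hx) rfl a c (by intro x hx; simp at hx)
        (by intro x hx; simp at hx) hac)
    · exact hnac (hM {b} (by
        intro x hx y hy hxy
        rw [Finset.mem_singleton] at hx hy
        exact absurd (hx.trans hy.symm) hxy) (by simp) a c
        (by intro x hx; rw [Finset.mem_singleton.1 hx]; exact hab)
        (by intro x hx; rw [Finset.mem_singleton.1 hx]; exact hbc.symm) hac)
  have hnc := hmin (M - 1) (by omega)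
  unfold NoCone at hnc
  push Not at hnc
  obtain ⟨θ, hθ, hθc, x, y, hx, hy, hxy, hnxy⟩ := hnc
  have hxθ : x ∉ θ := fun h => G.irrefl (hx x h)
  have hyθ : y ∉ θ := fun h => G.irrefl (hy y h)
  -- two lines meeting in `θ`
  have hE : LineA G M {z | z ∈ insert x θ ∨ Full G z (insert x θ)} :=
    ⟨insert x θ, A3_clq_insert hθ hx, by rw [Finset.card_insert_of_notMem hxθ, hθc]; omega, rfl⟩
  have hF : LineA G M {z | z ∈ insert y θ ∨ Full G z (insert y θ)} :=
    ⟨insert y θ, A3_clq_insert hθ hy, by rw [Finset.card_insert_of_notMem hyθ, hθc]; omega, rfl⟩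
  generalize hEd : {z | z ∈ insert x θ ∨ Full G z (insert x θ)} = E at hE
  generalize hFd : {z | z ∈ insert y θ ∨ Full G z (insert y θ)} = F at hF
  have hxE : x ∈ E := by rw [← hEd]; exact Or.inl (Finset.mem_insert_self _ _)
  have hyF : y ∈ F := by rw [← hFd]; exact Or.inl (Finset.mem_insert_self _ _)
  have hθE : (θ : Set V) ⊆ E := by
    rw [← hEd]; exact fun z hz => Or.inl (Finset.mem_insert_of_mem hz)
  have hθF : (θ : Set V) ⊆ F := by
    rw [← hFd]; exact fun z hz => Or.inl (Finset.mem_insert_of_mem hz)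
  have hxF : x ∉ F := fun h => hnxy (lineA_clq hM hF x h y hyF hxy)
  have hyE : y ∉ E := fun h => hnxy (lineA_clq hM hE x hxE y h hxy)
  have hEF : E ≠ F := fun h => hxF (h ▸ hxE)
  have hint : E ∩ F = θ := by
    apply Set.Subset.antisymm
    · rintro z ⟨hzE, hzF⟩
      by_contra hzθ
      have hzθ' : z ∉ θ := hzθ
      have hzx : z ≠ x := by rintro rfl; exact hxF hzF
      have hzy : z ≠ y := by rintro rfl; exact hyE hzE
      have h1 := lineA_clq hM hE z hzE x hxE hzx
      have h2 := lineA_clq hM hF z hzF y hyF hzy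
      have h3 : Full G z θ := fun t ht =>
        lineA_clq hM hE z hzE t (hθE ht) (by rintro rfl; exact hzθ' ht)
      apply hnxy
      refine hM (insert z θ) (A3_clq_insert hθ h3) ?_ x y ?_ ?_ hxy
      · rw [Finset.card_insert_of_notMem hzθ', hθc]; omega
      · intro t ht
        rcases Finset.mem_insert.1 ht with rfl | ht'
        · exact h1.symm
        · exact hx t ht'
      · intro t ht
        rcases Finset.mem_insert.1 ht with rfl | ht'
        · exact h2.symm
        · exact hy t ht'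
    · exact Set.subset_inter hθE hθF
  -- two different lines meet in `M - 1` points
  have two : ∀ L L', LineA G M L → LineA G M L' → L ≠ L' →
      ∃ T : Finset V, (T : Set V) = L ∩ L' ∧ T.card = M - 1 := by
    intro L L' hL hL' hne
    obtain ⟨φ, hφ⟩ := lineA_trans_q hs hcl hM 2 ![E, F] ![L, L']
      (by intro i; fin_cases i <;> assumption)
      (by
        intro i j hij
        fin_cases i <;> fin_cases j
        · rfl
        · exact absurd hij hEF
        · exact absurd hij.symm hEF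
        · rfl)
      (by intro i; fin_cases i <;> assumption)
      (by
        intro i j hij
        fin_cases i <;> fin_cases j
        · rfl
        · exact absurd hij hne
        · exact absurd hij.symm hne
        · rfl)
    have h0 : φ '' E = L := hφ 0
    have h1 : φ '' F = L' := hφ 1
    refine ⟨θ.map φ.toEquiv.toEmbedding, ?_, by rw [Finset.card_map, hθc]⟩
    rw [← h0, ← h1, ← Set.image_inter φ.injective, hint]
    ext z
    simp
  -- every `(M-1)`-subset of a line is the intersection with another line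
  have ext : ∀ L, LineA G M L → ∀ T : Finset V, (T : Set V) ⊆ L → T.card = M - 1 →
      ∃ L', LineA G M L' ∧ L' ≠ L ∧ L ∩ L' = T := by
    intro L hL T hT hTc
    obtain ⟨φ, hφ⟩ := clq_trans_q hs hθ (A1_clqset hM hL hT) (hθc.trans hTc.symm)
    have key : ∀ L', LineA G M L' → L' ≠ L → (T : Set V) ⊆ L' → L ∩ L' = T := by
      intro L' hL' hne hTL'
      obtain ⟨T', hT', hTc'⟩ := two L L' hL hL' hne.symm
      have hsub : T ⊆ T' := by
        intro z hz
        have : z ∈ (T' : Set V) := by rw [hT']; exact ⟨hT hz, hTL' hz⟩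
        exact this
      rw [← hT', Finset.eq_of_subset_of_card_le hsub (by omega)]
    have e1 : (T : Set V) ⊆ φ '' E := by rw [← hφ]; exact Set.image_mono hθE
    have e2 : (T : Set V) ⊆ φ '' F := by rw [← hφ]; exact Set.image_mono hθF
    by_cases h : φ '' E = L
    · have h2 : φ '' F ≠ L := by
        intro h3
        apply hEF
        exact φ.injective.image_injective (h.trans h3.symm)
      exact ⟨φ '' F, lineA_map hF φ, h2, key _ (lineA_map hF φ) h2 e2⟩
    · exact ⟨φ '' E, lineA_map hE φ, h, key _ (lineA_map hE φ) h e1⟩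
  -- two disjoint `(M-1)`-subsets of a line
  obtain ⟨A, hAE, hAc⟩ := (lineA_inf_q hs hcl hE).exists_subset_card_eq (2 * (M - 1))
  obtain ⟨T₁, hT₁, hT₁c⟩ := Finset.exists_subset_card_eq (s := A) (n := M - 1) (by omega)
  have hT₂c : (A \ T₁).card = M - 1 := by
    rw [Finset.card_sdiff_of_subset hT₁]; omega
  have hT₁E : (T₁ : Set V) ⊆ E := fun z hz => hAE (hT₁ hz)
  have hT₂E : ((A \ T₁ : Finset V) : Set V) ⊆ E := fun z hz =>
    hAE (Finset.mem_sdiff.1 hz).1
  obtain ⟨L₁, hL₁, hne₁, hi₁⟩ := ext E hE T₁ hT₁E hT₁c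
  obtain ⟨L₂, hL₂, hne₂, hi₂⟩ := ext E hE (A \ T₁) hT₂E hT₂c
  have h12 : L₁ ≠ L₂ := by
    rintro rfl
    rw [hi₁] at hi₂
    have hT : T₁ = A \ T₁ := Finset.coe_injective hi₂
    obtain ⟨z, hz⟩ : T₁.Nonempty := by rw [← Finset.card_pos, hT₁c]; omega
    have hz2 := hz
    rw [hT] at hz2
    exact (Finset.mem_sdiff.1 hz2).2 hz
  obtain ⟨T, hT, hTc⟩ := two L₁ L₂ hL₁ hL₂ h12
  obtain ⟨r, hr⟩ : T.Nonempty := by rw [← Finset.card_pos, hTc]; omega
  have hr' : r ∈ L₁ ∩ L₂ := by rw [← hT]; exact hr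
  have hrE : r ∉ E := by
    intro hrE
    have h1 : r ∈ (T₁ : Set V) := by rw [← hi₁]; exact ⟨hrE, hr'.1⟩
    have h2 : r ∈ ((A \ T₁ : Finset V) : Set V) := by rw [← hi₂]; exact ⟨hrE, hr'.2⟩
    exact (Finset.mem_sdiff.1 h2).2 h1
  have hT₁L : (T₁ : Set V) ⊆ L₁ := by rw [← hi₁]; exact Set.inter_subset_right
  have hT₂L : ((A \ T₁ : Finset V) : Set V) ⊆ L₂ := by rw [← hi₂]; exact Set.inter_subset_right
  have hfull : Full G r A := by
    intro t ht
    have htr : r ≠ t := by rintro rfl; exact hrE (hAE ht)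
    by_cases h : t ∈ T₁
    · exact lineA_clq hM hL₁ r hr'.1 t (hT₁L h) htr
    · exact lineA_clq hM hL₂ r hr'.2 t (hT₂L (Finset.mem_sdiff.2 ⟨ht, h⟩)) htr
  obtain ⟨L₄, hL₄, hsub⟩ := lineA_ex_q hs hcl M (A3_clq_insert (A1_clqset hM hE hAE) hfull)
  have h4 : L₄ = E := lineA_uniq hM hL₄ hE (Q := A) (by omega)
    (fun z hz => hsub (Finset.mem_insert_of_mem hz)) hAE
  apply hrE
  rw [← h4]
  exact hsub (Finset.mem_insert_self _ _)

end SetHom
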