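import Pool.Agent.Helper25.DI.QSH
import Pool.Agent.Helper25.DI.Main

/-!
# MP_506470_co : links of cliques, and trace sizes on independent sets relative to a clique
-/

namespace SetHom

variable {V : Type} {G : SimpleGraph V}

/-- An automorphism of the complement is an automorphism. -/
def uncIso {V : Type*} {G : SimpleGraph V} (φ : Gᶜ ≃g Gᶜ) : G ≃g G where
  toEquiv := φ.toEquiv
  map_rel_iff' := by
    intro a b
    have h1 := φ.map_rel_iff (a := a) (b := b)
    rw [SimpleGraph.compl_adj, SimpleGraph.compl_adj] at h1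
    have h2 : φ.toEquiv a = φ.toEquiv b ↔ a = b := φ.toEquiv.injective.eq_iff
    have h3 : (φ a ≠ φ b ∧ ¬ G.Adj (φ a) (φ b)) ↔ (a ≠ b ∧ ¬ G.Adj a b) := h1
    show G.Adj (φ a) (φ b) ↔ G.Adj a b
    by_cases hab : a = b
    · subst hab
      simp
    · have h4 : φ a ≠ φ b := fun e => hab (h2.1 e)
      constructor
      · intro h5
        by_contra h6
        exact (h3.2 ⟨hab, h6⟩).2 h5
      · intro h5
        by_contra h6
        exact (h3.1 ⟨h4, h6⟩).2 h5

theorem FullSym_two (hf : FS.FullSym G) {A B A' B' : Finset V} (hA : ∀ x, (x ∈ A ∨ x ∈ B) ↔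
    (x ∈ A' ∨ x ∈ B')) (hI : ∀ x y, (x ∈ A ∨ x ∈ B) → (y ∈ A ∨ y ∈ B) → ¬ G.Adj x y)
    (hd : ∀ x ∈ A, x ∉ B) (hd' : ∀ x ∈ A', x ∉ B') (hc : A.card = A'.card) :
    ∃ φ : G ≃g G, φ '' (A : Set V) = A' ∧ φ '' (B : Set V) = B' := by
  classical
  have hnd : (A.toList ++ B.toList).Nodup := by
    rw [List.nodup_append]
    refine ⟨Finset.nodup_toList _, Finset.nodup_toList _, ?_⟩
    intro a ha b hb e
    rw [Finset.mem_toList] at ha hb
    exact hd a ha (e ▸ hb)
  have hnd' : (A'.toList ++ B'.toList).Nodup := by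
    rw [List.nodup_append]
    refine ⟨Finset.nodup_toList _, Finset.nodup_toList _, ?_⟩
    intro a ha b hb e
    rw [Finset.mem_toList] at ha hb
    exact hd' a ha (e ▸ hb)
  have hperm : (A'.toList ++ B'.toList).Perm (A.toList ++ B.toList) := by
    rw [List.perm_ext_iff_of_nodup hnd' hnd]
    intro x
    simp only [List.mem_append, Finset.mem_toList]
    exact (hA x).symm
  obtain ⟨φ, hφ⟩ := hf _ _ hnd (by
    intro x hx y hy
    simp only [List.mem_append, Finset.mem_toList] at hx hy
    exact hI x y hx hy) hperm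
  rw [List.map_append] at hφ
  obtain ⟨h1, h2⟩ := List.append_inj hφ (by
    rw [List.length_map, Finset.length_toList, Finset.length_toList, hc])
  refine ⟨φ, ?_, ?_⟩
  · ext x
    rw [Finset.mem_coe, ← Finset.mem_toList, ← h1, List.mem_map]
    simp only [Set.mem_image, Finset.mem_coe, Finset.mem_toList]
  · ext x
    rw [Finset.mem_coe, ← Finset.mem_toList, ← h2, List.mem_map]
    simp only [Set.mem_image, Finset.mem_coe, Finset.mem_toList]

/-- Isomorphic finite subsets of links of cliques: they are related by an automorphism which maps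
the cliques to each other, if they are cliques or have no dominating vertex. -/
theorem sh_link (hs : SetHomogeneous G) (hK : FS.FullSym Gᶜ) {W W' U U' : Finset V}
    (hW : Clq G W) (hW' : Clq G W') (hc : W.card = W'.card) (hU : ∀ w ∈ W, Full G w U)
    (hU' : ∀ w ∈ W', Full G w U') (f : V → V) (hf : Set.InjOn f U)
    (hfU : f '' (U : Set V) = U')
    (hadj : ∀ x ∈ U, ∀ y ∈ U, (G.Adj (f x) (f y) ↔ G.Adj x y))
    (hcase : Clq G U ∨ ∀ x ∈ U, ∃ y ∈ U, y ≠ x ∧ ¬ G.Adj x y) :
    ∃ φ : G ≃g G, φ '' (W : Set V) = W' ∧ φ '' (U : Set V) = U' := by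
  classical
  obtain ⟨e, he, heW⟩ := exists_map hc
  have hem : ∀ x ∈ W, e x ∈ W' := fun x hx => by
    have : e x ∈ e '' (W : Set V) := ⟨x, hx, rfl⟩
    rw [heW] at this
    exact this
  have hfm : ∀ x ∈ U, f x ∈ U' := fun x hx => by
    have : f x ∈ f '' (U : Set V) := ⟨x, hx, rfl⟩
    rw [hfU] at this
    exact this
  have hUW : ∀ x ∈ U, x ∉ W := fun x hx hxW => G.irrefl (hU x hxW x hx)
  have hUW' : ∀ x ∈ U', x ∉ W' := fun x hx hxW => G.irrefl (hU' x hxW x hx)
  let F : V → V := fun x => if x ∈ W then e x else f x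
  have hFW : ∀ x ∈ W, F x = e x := fun x hx => if_pos hx
  have hFU : ∀ x ∈ U, F x = f x := fun x hx => if_neg (hUW x hx)
  obtain ⟨φ, hφ⟩ := SHmap hs (W ∪ U) F
    (by
      intro x hx y hy hxy
      rw [Finset.mem_coe, Finset.mem_union] at hx hy
      rcases hx with hx | hx <;> rcases hy with hy | hy
      · rw [hFW x hx, hFW y hy] at hxy
        exact he hx hy hxy
      · rw [hFW x hx, hFU y hy] at hxy
        exact absurd (hem x hx) (hUW' _ (hxy ▸ hfm y hy))
      · rw [hFU x hx, hFW y hy] at hxy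
        exact absurd (hem y hy) (hUW' _ (hxy ▸ hfm x hx))
      · rw [hFU x hx, hFU y hy] at hxy
        exact hf hx hy hxy)
    (by
      intro x hx y hy
      rw [Finset.mem_union] at hx hy
      rcases hx with hx | hx <;> rcases hy with hy | hy
      · rw [hFW x hx, hFW y hy]
        by_cases hxy : x = y
        · subst hxy
          simp
        · exact iff_of_true (hW' _ (hem x hx) _ (hem y hy) (fun h => hxy (he hx hy h)))
            (hW x hx y hy hxy)
      · rw [hFW x hx, hFU y hy]
        exact iff_of_true (hU' _ (hem x hx) _ (hfm y hy)) (hU x hx y hy)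
      · rw [hFU x hx, hFW y hy]
        exact iff_of_true (hU' _ (hem y hy) _ (hfm x hx)).symm (hU y hy x hx).symm
      · rw [hFU x hx, hFU y hy]
        exact hadj x hx y hy)
  have himg : φ '' ((W ∪ U : Finset V) : Set V) = ((W' ∪ U' : Finset V) : Set V) := by
    rw [hφ]
    ext y
    simp only [Set.mem_image, Finset.mem_coe, Finset.mem_union]
    constructor
    · rintro ⟨x, hx | hx, rfl⟩
      · rw [hFW x hx]
        exact Or.inl (hem x hx)
      · rw [hFU x hx]
        exact Or.inr (hfm x hx)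
    · rintro (hy | hy)
      · have : y ∈ e '' (W : Set V) := by
          rw [heW]
          exact hy
        obtain ⟨x, hx, rfl⟩ := this
        exact ⟨x, Or.inl hx, hFW x hx⟩
      · have : y ∈ f '' (U : Set V) := by
          rw [hfU]
          exact hy
        obtain ⟨x, hx, rfl⟩ := this
        exact ⟨x, Or.inr hx, hFU x hx⟩
  have hmem : ∀ x, (x ∈ W ∨ x ∈ U) ↔ (φ x ∈ W' ∨ φ x ∈ U') := by
    intro x
    rw [← Finset.mem_union, ← Finset.mem_union, ← Finset.mem_coe (s := W' ∪ U'), ← himg]
    constructor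
    · intro hx
      exact ⟨x, hx, rfl⟩
    · rintro ⟨y, hy, hyx⟩
      rw [← φ.injective hyx]
      exact hy
  rcases hcase with hcl | hnd
  · -- cliques
    have hcW : (W.map φ.toEquiv.toEmbedding).card = W'.card := by rw [Finset.card_map, hc]
    have hmapW : ∀ y, y ∈ W.map φ.toEquiv.toEmbedding ↔ ∃ x ∈ W, φ x = y := by
      intro y
      rw [Finset.mem_map]
      rfl
    have hmapU : ∀ y, y ∈ U.map φ.toEquiv.toEmbedding ↔ ∃ x ∈ U, φ x = y := by
      intro y
      rw [Finset.mem_map]
      rfl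
    have hU'cl : Clq G U' := by
      intro x hx y hy hxy
      have hx2 : x ∈ f '' (U : Set V) := by
        rw [hfU]
        exact hx
      have hy2 : y ∈ f '' (U : Set V) := by
        rw [hfU]
        exact hy
      obtain ⟨a, ha, rfl⟩ := hx2
      obtain ⟨b, hb, rfl⟩ := hy2
      exact (hadj a ha b hb).2 (hcl a ha b hb (fun h => hxy (by rw [h])))
    have hset : ∀ x, (x ∈ W.map φ.toEquiv.toEmbedding ∨ x ∈ U.map φ.toEquiv.toEmbedding) ↔
        (x ∈ W' ∨ x ∈ U') := by
      intro y
      obtain ⟨x, rfl⟩ := φ.surjective y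
      rw [← hmem x, hmapW, hmapU]
      constructor
      · rintro (⟨z, hz, hzx⟩ | ⟨z, hz, hzx⟩)
        · rw [← φ.injective hzx]
          exact Or.inl hz
        · rw [← φ.injective hzx]
          exact Or.inr hz
      · rintro (hz | hz)
        · exact Or.inl ⟨x, hz, rfl⟩
        · exact Or.inr ⟨x, hz, rfl⟩
    obtain ⟨ψ, hψ1, hψ2⟩ := FullSym_two hK (A := W.map φ.toEquiv.toEmbedding)
      (B := U.map φ.toEquiv.toEmbedding) (A' := W') (B' := U') hset
      (by
        intro x y hx hy hxy
        rw [SimpleGraph.compl_adj] at hxy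
        rw [hset] at hx hy
        apply hxy.2
        rcases hx with hx | hx <;> rcases hy with hy | hy
        · exact hW' x hx y hy hxy.1
        · exact hU' x hx y hy
        · exact (hU' y hy x hx).symm
        · exact hU'cl x hx y hy hxy.1)
      (by
        intro y hy hy2
        rw [hmapW] at hy
        rw [hmapU] at hy2
        obtain ⟨x, hx, rfl⟩ := hy
        obtain ⟨z, hz, hzx⟩ := hy2
        exact hUW x ((φ.injective hzx) ▸ hz) hx)
      (fun x hx hx2 => hUW' x hx2 hx) hcW
    refine ⟨φ.trans (uncIso ψ), ?_, ?_⟩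
    · rw [← hψ1]
      ext y
      simp only [Set.mem_image, Finset.mem_coe, hmapW]
      constructor
      · rintro ⟨x, hx, rfl⟩
        exact ⟨φ x, ⟨x, hx, rfl⟩, rfl⟩
      · rintro ⟨z, ⟨x, hx, rfl⟩, rfl⟩
        exact ⟨x, hx, rfl⟩
    · rw [← hψ2]
      ext y
      simp only [Set.mem_image, Finset.mem_coe, hmapU]
      constructor
      · rintro ⟨x, hx, rfl⟩
        exact ⟨φ x, ⟨x, hx, rfl⟩, rfl⟩
      · rintro ⟨z, ⟨x, hx, rfl⟩, rfl⟩
        exact ⟨x, hx, rfl⟩
  · -- no dominating vertex
    have hWim : ∀ w ∈ W, φ w ∈ W' := by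
      intro w hw
      rcases (hmem w).1 (Or.inl hw) with h | h
      · exact h
      exfalso
      have hx2 : φ w ∈ f '' (U : Set V) := by
        rw [hfU]
        exact h
      obtain ⟨u, hu, hux⟩ := hx2
      obtain ⟨y, hy, hyu, hnot⟩ := hnd u hu
      obtain ⟨z, hz⟩ := φ.surjective (f y)
      have hz2 : z ∈ W ∨ z ∈ U := (hmem z).2 (Or.inr (hz ▸ hfm y hy))
      have hzw : z ≠ w := by
        rintro rfl
        apply hyu
        exact hf hy hu (hz.symm.trans hux.symm)
      have hadjwz : G.Adj w z := by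
        rcases hz2 with h2 | h2
        · exact hW w hw z h2 hzw.symm
        · exact hU w hw z h2
      have : G.Adj (φ w) (φ z) := φ.map_adj_iff.2 hadjwz
      rw [hz, ← hux, hadj u hu y hy] at this
      exact hnot this
    have hWeq : W.map φ.toEquiv.toEmbedding = W' := by
      apply Finset.eq_of_subset_of_card_le
      · intro y hy
        obtain ⟨x, hx, rfl⟩ := Finset.mem_map.1 hy
        exact hWim x hx
      · rw [Finset.card_map, hc]
    have hWimg : φ '' (W : Set V) = W' := by
      rw [← hWeq]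
      ext y
      simp
    refine ⟨φ, hWimg, ?_⟩
    ext y
    constructor
    · rintro ⟨x, hx, rfl⟩
      rcases (hmem x).1 (Or.inr hx) with h | h
      · exfalso
        have : φ x ∈ φ '' (W : Set V) := by
          rw [hWimg]
          exact h
        obtain ⟨z, hz, hzx⟩ := this
        exact hUW x hx ((φ.injective hzx) ▸ hz)
      · exact h
    · intro hy
      obtain ⟨x, rfl⟩ := φ.surjective y
      rcases (hmem x).2 (Or.inr hy) with h | h
      · exact absurd (hWim x h) (hUW' _ hy)
      · exact ⟨x, h, rfl⟩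

end SetHom
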