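import Pool.Agent.Helper25.DI.Link

/-!
# MP_506470_co : trace sizes on independent sets in links of cliques
-/

namespace SetHom

variable {V : Type} {G : SimpleGraph V}

/-- There are joins of arbitrarily large finite cliques and independent sets. -/
def Books (G : SimpleGraph V) : Prop :=
  ∀ n : ℕ, ∃ K J : Finset V, Clq G K ∧ Indep G J ∧ K.card = n ∧ J.card = n ∧
    ∀ x ∈ K, Full G x J

/-- A clique `W` with `r` elements, an independent set `S ∪ T` in its link and a vertex `v` of the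
link adjacent to `S` and not to `T`. -/
def DD (G : SimpleGraph V) (r s t : ℕ) : Prop :=
  ∃ (W S T : Finset V) (v : V), Clq G W ∧ W.card = r ∧
    (∀ w ∈ W, Full G w S ∧ Full G w T ∧ G.Adj w v) ∧ Indep G S ∧ Indep G T ∧
    (∀ x ∈ S, ∀ y ∈ T, ¬ G.Adj x y) ∧ Full G v S ∧ v ∉ T ∧ (∀ x ∈ T, ¬ G.Adj v x) ∧
    S.card = s ∧ T.card = t

theorem DD.mono {r s t s' t' : ℕ} (h : DD G r s t) (hs : s' ≤ s) (ht : t' ≤ t) :
    DD G r s' t' := by
  obtain ⟨W, S, T, v, h1, h2, h3, h4, h5, h6, h7, h8, h9, h10, h11⟩ := h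
  obtain ⟨S', hS, hSc⟩ := Finset.exists_subset_card_eq (s := S) (n := s') (by omega)
  obtain ⟨T', hT, hTc⟩ := Finset.exists_subset_card_eq (s := T) (n := t') (by omega)
  exact ⟨W, S', T', v, h1, h2, fun w hw => ⟨fun a ha => (h3 w hw).1 a (hS ha),
    fun a ha => (h3 w hw).2.1 a (hT ha), (h3 w hw).2.2⟩, h4.sub hS, h5.sub hT,
    fun x hx y hy => h6 x (hS hx) y (hT hy), fun x hx => h7 x (hS hx), fun e => h8 (hT e),
    fun x hx => h9 x (hT hx), hSc, hTc⟩

theorem DD_right (hJ : Books G) (r s : ℕ) : DD G r s 0 := by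
  classical
  obtain ⟨K, J, h1, h2, h3, h4, h5⟩ := hJ (max (r + 1) s)
  obtain ⟨K', hK', hK'c⟩ := Finset.exists_subset_card_eq (s := K) (n := r + 1) (by omega)
  obtain ⟨J', hJ', hJ'c⟩ := Finset.exists_subset_card_eq (s := J) (n := s) (by omega)
  obtain ⟨v, hv⟩ : K'.Nonempty := Finset.card_pos.1 (by omega)
  refine ⟨K'.erase v, J', ∅, v, (h1.mono hK').mono (Finset.erase_subset _ _), ?_, ?_,
    h2.sub hJ', ?_, ?_, ?_, ?_, ?_, hJ'c, rfl⟩
  · rw [Finset.card_erase_of_mem hv]
    omega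
  · intro w hw
    refine ⟨fun a ha => h5 w (hK' (Finset.mem_of_mem_erase hw)) a (hJ' ha), ?_, ?_⟩
    · intro a ha
      simp at ha
    · exact h1 w (hK' (Finset.mem_of_mem_erase hw)) v (hK' hv) (Finset.ne_of_mem_erase hw)
  · intro x hx
    simp at hx
  · intro x hx y hy
    simp at hy
  · exact fun a ha => h5 v (hK' hv) a (hJ' ha)
  · simp
  · intro x hx
    simp at hx

theorem DD_left (hJ : Books G) (r t : ℕ) : DD G r 0 t := by
  classical
  obtain ⟨K, J, h1, h2, h3, h4, h5⟩ := hJ (max r (t + 1))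
  obtain ⟨K', hK', hK'c⟩ := Finset.exists_subset_card_eq (s := K) (n := r) (by omega)
  obtain ⟨J', hJ', hJ'c⟩ := Finset.exists_subset_card_eq (s := J) (n := t + 1) (by omega)
  obtain ⟨v, hv⟩ : J'.Nonempty := Finset.card_pos.1 (by omega)
  refine ⟨K', ∅, J'.erase v, v, h1.mono hK', hK'c, ?_, ?_, h2.sub ((Finset.erase_subset _ _).trans
    hJ'), ?_, ?_, ?_, ?_, rfl, ?_⟩
  · intro w hw
    refine ⟨?_, fun a ha => h5 w (hK' hw) a (hJ' (Finset.mem_of_mem_erase ha)),
      h5 w (hK' hw) v (hJ' hv)⟩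
    intro a ha
    simp at ha
  · intro x hx
    simp at hx
  · intro x hx
    simp at hx
  · intro x hx
    simp at hx
  · simp
  · intro x hx
    exact h2 v (hJ' hv) x (hJ' (Finset.mem_of_mem_erase hx))
  · rw [Finset.card_erase_of_mem hv]
    omega

/-- Independent sets in the link of a clique extend to larger ones. -/
theorem link_ext (hs : SetHomogeneous G) (hK : FS.FullSym Gᶜ) (hB : Books G) {W J : Finset V}
    (hW : Clq G W) (hJ : Indep G J) (hfull : ∀ w ∈ W, Full G w J) {n : ℕ} (hn : J.card ≤ n) :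
    ∃ J' : Finset V, J ⊆ J' ∧ Indep G J' ∧ (∀ w ∈ W, Full G w J') ∧ J'.card = n := by
  classical
  obtain ⟨K, J0, h1, h2, h3, h4, h5⟩ := hB (max W.card n)
  obtain ⟨W0, hW0, hW0c⟩ := Finset.exists_subset_card_eq (s := K) (n := W.card) (by omega)
  obtain ⟨J1, hJ1, hJ1c⟩ := Finset.exists_subset_card_eq (s := J0) (n := J.card) (by omega)
  obtain ⟨J2, hJ12, hJ2, hJ2c⟩ := Finset.exists_subsuperset_card_eq hJ1
    (show J1.card ≤ n by omega) (by omega)
  obtain ⟨f, hf, hfJ⟩ := exists_map (A := J1) (B := J) hJ1c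
  have hfm : ∀ x ∈ J1, f x ∈ J := fun x hx => by
    have : f x ∈ f '' (J1 : Set V) := ⟨x, hx, rfl⟩
    rw [hfJ] at this
    exact this
  obtain ⟨φ, hφ1, hφ2⟩ := sh_link hs hK (W := W0) (W' := W) (U := J1) (U' := J)
    (h1.mono hW0) hW hW0c (fun w hw a ha => h5 w (hW0 hw) a (hJ1 ha)) hfull f hf hfJ
    (fun x hx y hy => iff_of_false (hJ _ (hfm x hx) _ (hfm y hy)) (h2 x (hJ1 hx) y (hJ1 hy)))
    (by
      by_cases hc : J1.card ≤ 1
      · left
        intro x hx y hy hxy
        exact absurd (Finset.card_le_one.1 hc x hx y hy) hxy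
      · right
        intro x hx
        obtain ⟨y, hy, hyx⟩ := Finset.exists_mem_ne (by omega : 1 < J1.card) x
        exact ⟨y, hy, hyx, h2 x (hJ1 hx) y (hJ1 hy)⟩)
  refine ⟨J2.map φ.toEquiv.toEmbedding, ?_, ?_, ?_, by rw [Finset.card_map, hJ2c]⟩
  · intro x hx
    have : x ∈ φ '' (J1 : Set V) := by
      rw [hφ2]
      exact hx
    obtain ⟨y, hy, rfl⟩ := this
    exact Finset.mem_map_of_mem _ (hJ12 hy)
  · intro x hx y hy
    obtain ⟨x', hx', rfl⟩ := Finset.mem_map.1 hx
    obtain ⟨y', hy', rfl⟩ := Finset.mem_map.1 hy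
    exact fun e => h2 x' (hJ2 hx') y' (hJ2 hy') (φ.map_adj_iff.1 e)
  · intro w hw a ha
    obtain ⟨a', ha', rfl⟩ := Finset.mem_map.1 ha
    have : w ∈ φ '' (W0 : Set V) := by
      rw [hφ1]
      exact hw
    obtain ⟨w', hw', rfl⟩ := this
    exact φ.map_adj_iff.2 (h5 w' (hW0 hw') a' (hJ2 ha'))

/-- In links of cliques: an edge and an independent set of any size not joined to it. -/
theorem link_cone (h : DI G) (hK : FS.FullSym Gᶜ) (hB : Books G) (r N : ℕ) :
    ∃ (W I : Finset V) (a b : V), Clq G W ∧ W.card = r ∧ I.card = N ∧ Indep G I ∧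
      (∀ w ∈ W, Full G w I ∧ G.Adj w a ∧ G.Adj w b) ∧ G.Adj a b ∧
      ∀ x ∈ I, ¬ G.Adj a x ∧ ¬ G.Adj b x ∧ x ≠ a ∧ x ≠ b := by
  classical
  obtain ⟨K, W, c, hKc, hKn, hcK, hWK, hWc, hcW⟩ := h.alphac (n := r + 2) (k := r) (by omega)
  have hW : Clq G W := hKc.mono hWK
  have h2 : (K \ W).card = 2 := by
    rw [Finset.card_sdiff_of_subset hWK]
    omega
  obtain ⟨p, q, hpq, hpqe⟩ := Finset.card_eq_two.1 h2
  have hp : p ∈ K ∧ p ∉ W := by
    rw [← Finset.mem_sdiff, hpqe]
    simp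
  have hq : q ∈ K ∧ q ∉ W := by
    rw [← Finset.mem_sdiff, hpqe]
    simp
  have hpL : Full G p W := fun w hw => hKc p hp.1 w (hWK hw) (fun e => hp.2 (e ▸ hw))
  have hqL : Full G q W := fun w hw => hKc q hq.1 w (hWK hw) (fun e => hq.2 (e ▸ hw))
  have hcL : Full G c W := fun w hw => (hcW w (hWK hw)).2 hw
  have hcp : ¬ G.Adj c p := fun e => hp.2 ((hcW p hp.1).1 e)
  have hcq : ¬ G.Adj c q := fun e => hq.2 ((hcW q hq.1).1 e)
  have hcp' : c ≠ p := fun e => hcK (e ▸ hp.1)
  have hcq' : c ≠ q := fun e => hcK (e ▸ hq.1)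
  obtain ⟨I, x, y, hI, hIc, hx, hy, hxy, hnxy⟩ := exists_cone_q (G := (G.induce
    {v | Full G v W})ᶜ) (link_qsh h.sh hK hW)
    (by
      intro n
      obtain ⟨J', -, h6, h7, h8⟩ := link_ext h.sh hK hB (J := ∅) hW
        (by
          intro x hx
          simp at hx)
        (by
          intro w hw a ha
          simp at ha)
        (n := n) (by simp)
      have hmem : ∀ v ∈ J', v ∈ {v | Full G v W} := fun v hv w hw => (h7 w hw v hv).symm
      refine ⟨J'.subtype (fun v => v ∈ {v | Full G v W}), ?_, ?_⟩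
      · intro a ha b hb hab
        rw [Finset.mem_subtype] at ha hb
        rw [SimpleGraph.compl_adj]
        exact ⟨hab, h6 a.1 ha b.1 hb⟩
      · rw [Finset.card_subtype, Finset.filter_true_of_mem hmem, h8])
    ⟨⟨p, hpL⟩, ⟨c, hcL⟩, ⟨q, hqL⟩, by
      rw [SimpleGraph.compl_adj]
      exact ⟨fun e => hcp' (congrArg Subtype.val e).symm, fun e => hcp (SimpleGraph.Adj.symm e)⟩, by
      rw [SimpleGraph.compl_adj]
      exact ⟨fun e => hcq' (congrArg Subtype.val e), fun e => hcq e⟩,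
      fun e => hpq (congrArg Subtype.val e), by
      rw [SimpleGraph.compl_adj]
      exact fun e => e.2 (hKc p hp.1 q hq.1 hpq)⟩ N
  refine ⟨W, I.map (Function.Embedding.subtype _), x.1, y.1, hW, hWc, ?_, ?_, ?_, ?_, ?_⟩
  · rw [Finset.card_map, hIc]
  · intro a ha b hb
    rw [Finset.mem_map] at ha hb
    obtain ⟨a', ha', rfl⟩ := ha
    obtain ⟨b', hb', rfl⟩ := hb
    by_cases hab : a' = b'
    · subst hab
      exact G.irrefl
    · have := hI a' ha' b' hb' hab
      rw [SimpleGraph.compl_adj] at this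
      exact this.2
  · intro w hw
    refine ⟨?_, (x.2 w hw).symm, (y.2 w hw).symm⟩
    intro a ha
    rw [Finset.mem_map] at ha
    obtain ⟨a', ha', rfl⟩ := ha
    exact (a'.2 w hw).symm
  · by_contra hcon
    apply hnxy
    rw [SimpleGraph.compl_adj]
    exact ⟨hxy, hcon⟩
  · intro a ha
    rw [Finset.mem_map] at ha
    obtain ⟨a', ha', rfl⟩ := ha
    have h1 := hx a' ha'
    have h2 := hy a' ha'
    rw [SimpleGraph.compl_adj] at h1 h2
    exact ⟨h1.2, h2.2, fun e => h1.1 (Subtype.ext e).symm, fun e => h2.1 (Subtype.ext e).symm⟩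

/-- The gap property. -/
theorem DD_gap (hs : SetHomogeneous G) (hK : FS.FullSym Gᶜ) (hB : Books G) {r k l S1 T1 : ℕ}
    (h1 : ¬ DD G r S1 (l + 1)) (h2 : ¬ DD G r (k + 1) T1) : ¬ DD G r (k + 1) (l + 1) := by
  classical
  rintro ⟨W, S, T, v, g1, g2, g3, g4, g5, g6, g7, g8, g9, g10, g11⟩
  have hST : Indep G (S ∪ T) := by
    intro x hx y hy
    rw [Finset.mem_union] at hx hy
    rcases hx with hx | hx <;> rcases hy with hy | hy
    · exact g4 x hx y hy
    · exact g6 x hx y hy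
    · exact fun e => g6 y hy x hx e.symm
    · exact g5 x hx y hy
  obtain ⟨J, hJ1, hJ2, hJ3, hJ4⟩ := link_ext hs hK hB g1 hST (by
    intro w hw a ha
    rw [Finset.mem_union] at ha
    rcases ha with ha | ha
    · exact (g3 w hw).1 a ha
    · exact (g3 w hw).2.1 a ha) (n := (S ∪ T).card + S1 + T1) (by omega)
  obtain ⟨s0, hs0⟩ : S.Nonempty := Finset.card_pos.1 (by omega)
  have hvJ : v ∉ J := fun e => hJ2 v e s0 (hJ1 (Finset.mem_union_left _ hs0)) (g7 s0 hs0)
  have hsplit : (J.filter (fun x => G.Adj v x)).card + (J.filter (fun x => ¬ G.Adj v x)).card =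
      J.card := Finset.card_filter_add_card_filter_not _
  have hA : S.card ≤ (J.filter (fun x => G.Adj v x)).card := by
    apply Finset.card_le_card
    intro x hx
    rw [Finset.mem_filter]
    exact ⟨hJ1 (Finset.mem_union_left _ hx), g7 x hx⟩
  have hB' : T.card ≤ (J.filter (fun x => ¬ G.Adj v x)).card := by
    apply Finset.card_le_card
    intro x hx
    rw [Finset.mem_filter]
    exact ⟨hJ1 (Finset.mem_union_right _ hx), g9 x hx⟩
  have hDD : DD G r (J.filter (fun x => G.Adj v x)).card (J.filter (fun x => ¬ G.Adj v x)).card :=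
    ⟨W, _, _, v, g1, g2, fun w hw => ⟨fun a ha => hJ3 w hw a (Finset.mem_of_mem_filter a ha),
      fun a ha => hJ3 w hw a (Finset.mem_of_mem_filter a ha), (g3 w hw).2.2⟩,
      hJ2.sub (Finset.filter_subset _ _), hJ2.sub (Finset.filter_subset _ _),
      fun x hx y hy => hJ2 x (Finset.mem_of_mem_filter x hx) y (Finset.mem_of_mem_filter y hy),
      fun x hx => (Finset.mem_filter.1 hx).2, fun e => hvJ (Finset.mem_of_mem_filter v e),
      fun x hx => (Finset.mem_filter.1 hx).2, rfl, rfl⟩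
  by_cases hc : S1 ≤ (J.filter (fun x => G.Adj v x)).card
  · exact h1 (hDD.mono hc (by omega))
  · exact h2 (hDD.mono (by omega) (by omega))

/-- All trace sizes on independent sets occur in links of cliques. -/
theorem DD_all (h : DI G) (hK : FS.FullSym Gᶜ) (hB : Books G) (r s t : ℕ) : DD G r s t := by
  classical
  by_contra hcon
  have hs := h.sh
  -- `l`
  have hl : ∃ l, (∀ s, DD G r s l) ∧ ∃ S1, ¬ DD G r S1 (l + 1) := by
    by_contra hno
    push Not at hno
    have : ∀ m, ∀ s, DD G r s m := by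
      intro m
      induction m with
      | zero => exact fun s => DD_right hB r s
      | succ m ih => exact hno m ih
    exact hcon (this t s)
  obtain ⟨l, hl1, S1, hS1⟩ := hl
  have hk : ∃ k, ∃ T1, ¬ DD G r (k + 1) T1 := by
    refine ⟨s, t, fun e => hcon (e.mono (by omega) le_rfl)⟩
  obtain ⟨k, T1, hT1⟩ := hk
  have hgap := DD_gap hs hK hB hS1 hT1
  -- the configuration
  obtain ⟨W, I, a, b, g1, g2, g3, g4, g5, g6, g7⟩ := link_cone h hK hB r (l + 1)
  obtain ⟨j', hj'⟩ : I.Nonempty := Finset.card_pos.1 (by omega)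
  have hTc : (I.erase j').card = l := by
    rw [Finset.card_erase_of_mem hj']
    omega
  obtain ⟨W0, S0, T0, v, d1, d2, d3, d4, d5, d6, d7, d8, d9, d10, d11⟩ := hl1 (2 * k + 3)
  obtain ⟨j, hj⟩ : S0.Nonempty := Finset.card_pos.1 (by omega)
  have hvj : G.Adj v j := d7 j hj
  have hvT : v ∉ T0 := d8
  have hjT : j ∉ T0 := fun e => d9 j e hvj
  -- the map
  obtain ⟨e, he, heT⟩ := exists_map (A := T0) (B := I.erase j') (d11.trans hTc.symm)
  have hem : ∀ x ∈ T0, e x ∈ I.erase j' := fun x hx => by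
    have : e x ∈ e '' (T0 : Set V) := ⟨x, hx, rfl⟩
    rw [heT] at this
    exact this
  have hemI : ∀ x ∈ T0, e x ∈ I := fun x hx => Finset.mem_of_mem_erase (hem x hx)
  let f : V → V := fun x => if x = v then a else if x = j then b else e x
  have fv : f v = a := if_pos rfl
  have fj : f j = b := by
    show (if j = v then a else if j = j then b else e j) = b
    rw [if_neg hvj.ne.symm, if_pos rfl]
  have fT : ∀ x ∈ T0, f x = e x := by
    intro x hx
    show (if x = v then a else if x = j then b else e x) = e x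
    have n1 : x ≠ v := fun h => hvT (h ▸ hx)
    have n2 : x ≠ j := fun h => hjT (h ▸ hx)
    rw [if_neg n1, if_neg n2]
  have hU0 : ∀ x, x ∈ insert v (insert j T0) ↔ x = v ∨ x = j ∨ x ∈ T0 := by
    intro x
    simp
  have hU1 : ∀ x, x ∈ insert a (insert b (I.erase j')) ↔ x = a ∨ x = b ∨ x ∈ I.erase j' := by
    intro x
    simp only [Finset.mem_insert]
  have hvT' : ∀ x ∈ T0, ¬ G.Adj v x := d9
  have hjT' : ∀ x ∈ T0, ¬ G.Adj j x := fun x hx => d6 j hj x hx
  obtain ⟨φ, hφ1, hφ2⟩ := sh_link hs hK (W := W0) (W' := W) (U := insert v (insert j T0))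
    (U' := insert a (insert b (I.erase j'))) d1 g1 (d2.trans g2.symm)
    (by
      intro w hw x hx
      rcases (hU0 x).1 hx with rfl | rfl | hx
      · exact (d3 w hw).2.2
      · exact (d3 w hw).1 _ hj
      · exact (d3 w hw).2.1 x hx)
    (by
      intro w hw x hx
      rcases (hU1 x).1 hx with rfl | rfl | hx
      · exact (g5 w hw).2.1
      · exact (g5 w hw).2.2
      · exact (g5 w hw).1 x (Finset.mem_of_mem_erase hx))
    f
    (by
      intro x hx y hy hxy
      rcases (hU0 x).1 hx with rfl | rfl | hx2 <;> rcases (hU0 y).1 hy with rfl | rfl | hy2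
      · rfl
      · rw [fv, fj] at hxy
        exact absurd hxy g6.ne
      · rw [fv, fT y hy2] at hxy
        exact absurd hxy.symm (g7 _ (hemI y hy2)).2.2.1
      · rw [fv, fj] at hxy
        exact absurd hxy.symm g6.ne
      · rfl
      · rw [fj, fT y hy2] at hxy
        exact absurd hxy.symm (g7 _ (hemI y hy2)).2.2.2
      · rw [fv, fT x hx2] at hxy
        exact absurd hxy (g7 _ (hemI x hx2)).2.2.1
      · rw [fj, fT x hx2] at hxy
        exact absurd hxy (g7 _ (hemI x hx2)).2.2.2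
      · rw [fT x hx2, fT y hy2] at hxy
        exact he hx2 hy2 hxy)
    (by
      ext x
      constructor
      · rintro ⟨y, hy, rfl⟩
        rw [Finset.mem_coe, hU1]
        rcases (hU0 y).1 hy with rfl | rfl | hy
        · exact Or.inl fv
        · exact Or.inr (Or.inl fj)
        · rw [fT y hy]
          exact Or.inr (Or.inr (hem y hy))
      · intro hx
        rcases (hU1 x).1 hx with rfl | rfl | hx
        · exact ⟨v, (hU0 v).2 (Or.inl rfl), fv⟩
        · exact ⟨j, (hU0 j).2 (Or.inr (Or.inl rfl)), fj⟩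
        · have : x ∈ e '' (T0 : Set V) := by
            rw [heT]
            exact hx
          obtain ⟨y, hy, rfl⟩ := this
          exact ⟨y, (hU0 y).2 (Or.inr (Or.inr hy)), fT y hy⟩)
    (by
      intro x hx y hy
      rcases (hU0 x).1 hx with rfl | rfl | hx2 <;> rcases (hU0 y).1 hy with rfl | rfl | hy2
      · simp
      · rw [fv, fj]
        exact iff_of_true g6 hvj
      · rw [fv, fT y hy2]
        exact iff_of_false (g7 _ (hemI y hy2)).1 (hvT' y hy2)
      · rw [fv, fj]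
        exact iff_of_true g6.symm hvj.symm
      · simp
      · rw [fj, fT y hy2]
        exact iff_of_false (g7 _ (hemI y hy2)).2.1 (hjT' y hy2)
      · rw [fv, fT x hx2]
        exact iff_of_false (fun h => (g7 _ (hemI x hx2)).1 h.symm) (fun h => hvT' x hx2 h.symm)
      · rw [fj, fT x hx2]
        exact iff_of_false (fun h => (g7 _ (hemI x hx2)).2.1 h.symm) (fun h => hjT' x hx2 h.symm)
      · rw [fT x hx2, fT y hy2]
        exact iff_of_false (g4 _ (hemI x hx2) _ (hemI y hy2)) (d5 x hx2 y hy2))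
    (by
      rcases Finset.eq_empty_or_nonempty T0 with h0 | ⟨t0, ht0⟩
      · left
        intro x hx y hy hxy
        rcases (hU0 x).1 hx with rfl | rfl | hx2 <;> rcases (hU0 y).1 hy with rfl | rfl | hy2
        · exact absurd rfl hxy
        · exact hvj
        · simp [h0] at hy2
        · exact hvj.symm
        · exact absurd rfl hxy
        · simp [h0] at hy2
        · simp [h0] at hx2
        · simp [h0] at hx2
        · simp [h0] at hx2
      · right
        intro x hx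
        rcases (hU0 x).1 hx with rfl | rfl | hx
        · exact ⟨t0, (hU0 t0).2 (Or.inr (Or.inr ht0)), fun h => hvT (h ▸ ht0), hvT' t0 ht0⟩
        · exact ⟨t0, (hU0 t0).2 (Or.inr (Or.inr ht0)), fun h => hjT (h ▸ ht0), hjT' t0 ht0⟩
        · exact ⟨v, (hU0 v).2 (Or.inl rfl), fun h => hvT (h ▸ hx), fun h => hvT' x hx h.symm⟩)
  have him : ∀ x ∈ insert v (insert j T0), φ x = a ∨ φ x = b ∨ φ x ∈ I.erase j' := by
    intro x hx
    rw [← hU1, ← Finset.mem_coe, ← hφ2]
    exact ⟨x, hx, rfl⟩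
  have hadjφ : G.Adj (φ v) (φ j) := φ.map_adj_iff.2 hvj
  have hab' : (φ v = a ∧ φ j = b) ∨ (φ v = b ∧ φ j = a) := by
    rcases him v ((hU0 v).2 (Or.inl rfl)) with hv | hv | hv <;>
      rcases him j ((hU0 j).2 (Or.inr (Or.inl rfl))) with hw | hw | hw
    · rw [hv, hw] at hadjφ
      exact absurd hadjφ G.irrefl
    · exact Or.inl ⟨hv, hw⟩
    · rw [hv] at hadjφ
      exact absurd hadjφ (g7 _ (Finset.mem_of_mem_erase hw)).1
    · exact Or.inr ⟨hv, hw⟩
    · rw [hv, hw] at hadjφ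
      exact absurd hadjφ G.irrefl
    · rw [hv] at hadjφ
      exact absurd hadjφ (g7 _ (Finset.mem_of_mem_erase hw)).2.1
    · rw [hw] at hadjφ
      exact absurd hadjφ.symm (g7 _ (Finset.mem_of_mem_erase hv)).1
    · rw [hw] at hadjφ
      exact absurd hadjφ.symm (g7 _ (Finset.mem_of_mem_erase hv)).2.1
    · exact absurd hadjφ (g4 _ (Finset.mem_of_mem_erase hv) _ (Finset.mem_of_mem_erase hw))
  have hTim : ∀ x ∈ T0, φ x ∈ I.erase j' := by
    intro x hx
    rcases him x ((hU0 x).2 (Or.inr (Or.inr hx))) with h1 | h1 | h1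
    · exfalso
      rcases hab' with ⟨h2, h3⟩ | ⟨h2, h3⟩
      · exact hvT (φ.injective (h1.trans h2.symm) ▸ hx)
      · exact hjT (φ.injective (h1.trans h3.symm) ▸ hx)
    · exfalso
      rcases hab' with ⟨h2, h3⟩ | ⟨h2, h3⟩
      · exact hjT (φ.injective (h1.trans h3.symm) ▸ hx)
      · exact hvT (φ.injective (h1.trans h2.symm) ▸ hx)
    · exact h1
  -- rename
  have hj'a : ¬ G.Adj j' (φ v) ∧ j' ≠ φ v ∧ ¬ G.Adj j' (φ j) ∧ j' ≠ φ j := by
    obtain ⟨q1, q2, q3, q4⟩ := g7 j' hj'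
    rcases hab' with ⟨h2, h3⟩ | ⟨h2, h3⟩
    · rw [h2, h3]
      exact ⟨fun h => q1 h.symm, q3, fun h => q2 h.symm, q4⟩
    · rw [h2, h3]
      exact ⟨fun h => q2 h.symm, q4, fun h => q1 h.symm, q3⟩
  have hWφ : ∀ w ∈ W, ∃ w' ∈ W0, φ w' = w := by
    intro w hw
    have : w ∈ φ '' (W0 : Set V) := by
      rw [hφ1]
      exact hw
    obtain ⟨w', hw', rfl⟩ := this
    exact ⟨w', hw', rfl⟩
  have hT0img : (T0.map φ.toEquiv.toEmbedding) ⊆ I.erase j' := by
    intro x hx
    obtain ⟨y, hy, rfl⟩ := Finset.mem_map.1 hx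
    exact hTim y hy
  -- the neighbours of `j'` in the image of `S0`
  have hNk : ((S0.filter (fun x => G.Adj j' (φ x))).card ≤ k) := by
    by_contra hlt
    obtain ⟨S', hS', hS'c⟩ := Finset.exists_subset_card_eq
      (s := S0.filter (fun x => G.Adj j' (φ x))) (n := k + 1) (by omega)
    have hS'0 : ∀ x ∈ S', x ∈ S0 ∧ G.Adj j' (φ x) := fun x hx => Finset.mem_filter.1 (hS' hx)
    apply hgap
    refine ⟨W, S'.map φ.toEquiv.toEmbedding, (insert j T0).map φ.toEquiv.toEmbedding, j', g1, g2,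
      ?_, ?_, ?_, ?_, ?_, ?_, ?_, by rw [Finset.card_map, hS'c], ?_⟩
    · intro w hw
      obtain ⟨w', hw', rfl⟩ := hWφ w hw
      refine ⟨?_, ?_, (g5 _ hw).1 j' hj'⟩
      · intro x hx
        obtain ⟨y, hy, rfl⟩ := Finset.mem_map.1 hx
        exact φ.map_adj_iff.2 ((d3 w' hw').1 y (hS'0 y hy).1)
      · intro x hx
        obtain ⟨y, hy, rfl⟩ := Finset.mem_map.1 hx
        rcases Finset.mem_insert.1 hy with rfl | hy
        · exact φ.map_adj_iff.2 ((d3 w' hw').1 _ hj)
        · exact φ.map_adj_iff.2 ((d3 w' hw').2.1 y hy)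
    · intro x hx y hy
      obtain ⟨x', hx', rfl⟩ := Finset.mem_map.1 hx
      obtain ⟨y', hy', rfl⟩ := Finset.mem_map.1 hy
      exact fun h => d4 x' (hS'0 x' hx').1 y' (hS'0 y' hy').1 (φ.map_adj_iff.1 h)
    · intro x hx y hy
      obtain ⟨x', hx', rfl⟩ := Finset.mem_map.1 hx
      obtain ⟨y', hy', rfl⟩ := Finset.mem_map.1 hy
      intro h
      have h' : G.Adj x' y' := φ.map_adj_iff.1 h
      rcases Finset.mem_insert.1 hx' with hx2 | hx2 <;>
        rcases Finset.mem_insert.1 hy' with hy2 | hy2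
      · rw [hx2, hy2] at h'
        exact G.irrefl h'
      · rw [hx2] at h'
        exact hjT' y' hy2 h'
      · rw [hy2] at h'
        exact hjT' x' hx2 h'.symm
      · exact d5 x' hx2 y' hy2 h'
    · intro x hx y hy
      obtain ⟨x', hx', rfl⟩ := Finset.mem_map.1 hx
      obtain ⟨y', hy', rfl⟩ := Finset.mem_map.1 hy
      intro h
      have h' : G.Adj x' y' := φ.map_adj_iff.1 h
      rcases Finset.mem_insert.1 hy' with rfl | hy'
      · exact d4 x' (hS'0 x' hx').1 _ hj h'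
      · exact d6 x' (hS'0 x' hx').1 y' hy' h'
    · intro x hx
      obtain ⟨y, hy, rfl⟩ := Finset.mem_map.1 hx
      exact (hS'0 y hy).2
    · intro hx
      obtain ⟨y, hy, hyj⟩ := Finset.mem_map.1 hx
      have hyj' : φ y = j' := hyj
      rcases Finset.mem_insert.1 hy with rfl | hy
      · exact hj'a.2.2.2 hyj'.symm
      · exact Finset.ne_of_mem_erase (hTim y hy) hyj'
    · intro x hx
      obtain ⟨y, hy, rfl⟩ := Finset.mem_map.1 hx
      rcases Finset.mem_insert.1 hy with rfl | hy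
      · exact hj'a.2.2.1
      · exact g4 j' hj' _ (Finset.mem_of_mem_erase (hTim y hy))
    · rw [Finset.card_map, Finset.card_insert_of_notMem hjT]
      omega
  have hsum : (S0.filter (fun x => G.Adj j' (φ x))).card +
      (S0.filter (fun x => ¬ G.Adj j' (φ x))).card = S0.card :=
    Finset.card_filter_add_card_filter_not _
  obtain ⟨S', hS', hS'c⟩ := Finset.exists_subset_card_eq
    (s := S0.filter (fun x => ¬ G.Adj j' (φ x))) (n := k + 1) (by omega)
  have hS'0 : ∀ x ∈ S', x ∈ S0 ∧ ¬ G.Adj j' (φ x) := fun x hx => Finset.mem_filter.1 (hS' hx)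
  have hj'T : j' ∉ T0.map φ.toEquiv.toEmbedding := by
    intro hx
    obtain ⟨y, hy, hyj⟩ := Finset.mem_map.1 hx
    have hyj' : φ y = j' := hyj
    exact Finset.ne_of_mem_erase (hTim y hy) hyj'
  apply hgap
  refine ⟨W, S'.map φ.toEquiv.toEmbedding, insert j' (T0.map φ.toEquiv.toEmbedding), φ v, g1, g2,
      ?_, ?_, ?_, ?_, ?_, ?_, ?_, by rw [Finset.card_map, hS'c], ?_⟩
  · intro w hw
    obtain ⟨w', hw', rfl⟩ := hWφ w hw
    refine ⟨?_, ?_, ?_⟩
    · intro x hx
      obtain ⟨y, hy, rfl⟩ := Finset.mem_map.1 hx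
      exact φ.map_adj_iff.2 ((d3 w' hw').1 y (hS'0 y hy).1)
    · intro x hx
      rcases Finset.mem_insert.1 hx with rfl | hx
      · exact (g5 _ hw).1 _ hj'
      · obtain ⟨y, hy, rfl⟩ := Finset.mem_map.1 hx
        exact φ.map_adj_iff.2 ((d3 w' hw').2.1 y hy)
    · exact φ.map_adj_iff.2 (d3 w' hw').2.2
  · intro x hx y hy
    obtain ⟨x', hx', rfl⟩ := Finset.mem_map.1 hx
    obtain ⟨y', hy', rfl⟩ := Finset.mem_map.1 hy
    exact fun h => d4 x' (hS'0 x' hx').1 y' (hS'0 y' hy').1 (φ.map_adj_iff.1 h)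
  · have hsub : insert j' (T0.map φ.toEquiv.toEmbedding) ⊆ I := by
      intro x hx
      rcases Finset.mem_insert.1 hx with rfl | hx
      · exact hj'
      · exact Finset.mem_of_mem_erase (hT0img hx)
    exact g4.sub hsub
  · intro x hx y hy
    obtain ⟨x', hx', rfl⟩ := Finset.mem_map.1 hx
    rcases Finset.mem_insert.1 hy with rfl | hy
    · exact fun h => (hS'0 x' hx').2 h.symm
    · obtain ⟨y', hy', rfl⟩ := Finset.mem_map.1 hy
      exact fun h => d6 x' (hS'0 x' hx').1 y' hy' (φ.map_adj_iff.1 h)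
  · intro x hx
    obtain ⟨y, hy, rfl⟩ := Finset.mem_map.1 hx
    exact φ.map_adj_iff.2 (d7 y (hS'0 y hy).1)
  · intro hx
    rcases Finset.mem_insert.1 hx with hx | hx
    · exact hj'a.2.1 hx.symm
    · obtain ⟨y, hy, hyj⟩ := Finset.mem_map.1 hx
      exact hvT (φ.injective hyj ▸ hy)
  · intro x hx
    rcases Finset.mem_insert.1 hx with rfl | hx
    · exact fun h => hj'a.1 h.symm
    · obtain ⟨y, hy, rfl⟩ := Finset.mem_map.1 hx
      exact fun h => hvT' y hy (φ.map_adj_iff.1 h)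
  · rw [Finset.card_insert_of_notMem hj'T, Finset.card_map]
    omega

open Classical in
/-- The statement R3: trace sizes in links of cliques. -/
theorem rel_alpha (h : DI G) (hK : FS.FullSym Gᶜ)
    (hJ : ∀ n : ℕ, ∃ K J : Finset V, Clq G K ∧ Indep G J ∧ K.card = n ∧ J.card = n ∧
      ∀ x ∈ K, Full G x J) (r s t : ℕ) :
    ∃ (W J : Finset V) (v : V), Clq G W ∧ W.card = r ∧ Indep G J ∧ v ∉ J ∧
      (∀ w ∈ W, Full G w J ∧ G.Adj w v) ∧ (J.filter (fun x => G.Adj v x)).card = s ∧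
      (J.filter (fun x => ¬ G.Adj v x)).card = t := by
  obtain ⟨W, S, T, v, h1, h2, h3, h4, h5, h6, h7, h8, h9, h10, h11⟩ := DD_all h hK hJ r s t
  refine ⟨W, S ∪ T, v, h1, h2, ?_, ?_, ?_, ?_, ?_⟩
  · intro x hx y hy
    rw [Finset.mem_union] at hx hy
    rcases hx with hx | hx <;> rcases hy with hy | hy
    · exact h4 x hx y hy
    · exact h6 x hx y hy
    · exact fun e => h6 y hy x hx e.symm
    · exact h5 x hx y hy
  · rw [Finset.mem_union]
    rintro (hv | hv)
    · exact G.irrefl (h7 v hv)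
    · exact h8 hv
  · intro w hw
    refine ⟨fun a ha => ?_, (h3 w hw).2.2⟩
    rw [Finset.mem_union] at ha
    rcases ha with ha | ha
    · exact (h3 w hw).1 a ha
    · exact (h3 w hw).2.1 a ha
  · rw [← h10]
    congr 1
    ext x
    rw [Finset.mem_filter, Finset.mem_union]
    constructor
    · rintro ⟨hx | hx, hv⟩
      · exact hx
      · exact absurd hv (h9 x hx)
    · intro hx
      exact ⟨Or.inl hx, h7 x hx⟩
  · rw [← h11]
    congr 1
    ext x
    rw [Finset.mem_filter, Finset.mem_union]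
    constructor
    · rintro ⟨hx | hx, hv⟩
      · exact absurd (h7 x hx) hv
      · exact hx
    · intro hx
      exact ⟨Or.inr hx, h9 x hx⟩

/-- The hypothesis `hra` of the module U-D2. -/
theorem hra_of (h : DI G) (hK : FS.FullSym Gᶜ)
    (hJ : ∀ n : ℕ, ∃ K J : Finset V, Clq G K ∧ K.card = n ∧ Indep G J ∧ J.card = n ∧
      ∀ x ∈ K, ∀ y ∈ J, G.Adj x y) :
    ∀ r s t : ℕ, ∃ (W J : Finset V) (v : V), Clq G W ∧ W.card = r ∧
      Indep G J ∧ v ∉ J ∧ (∀ w ∈ W, Full G w J ∧ G.Adj w v) ∧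
      {j | j ∈ J ∧ G.Adj v j}.ncard = s ∧ {j | j ∈ J ∧ ¬ G.Adj v j}.ncard = t := by
  classical
  intro r s t
  obtain ⟨W, J, v, h1, h2, h3, h4, h5, h6, h7⟩ := rel_alpha h hK (fun n => by
    obtain ⟨K, J, g1, g2, g3, g4, g5⟩ := hJ n
    exact ⟨K, J, g1, g3, g2, g4, g5⟩) r s t
  refine ⟨W, J, v, h1, h2, h3, h4, h5, ?_, ?_⟩
  · rw [← h6, ← Set.ncard_coe_finset, Finset.coe_filter]
  · rw [← h7, ← Set.ncard_coe_finset, Finset.coe_filter]

end SetHom
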