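import Pool.Agent.Helper25.DI.S3Orn
import Pool.Agent.Helper25.DI.Enomoto

/-!
# MP_506470_co : `S(3)` is homogeneous, `R(3)` is set-homogeneous
-/

namespace SetHom
namespace Ori

open DyadicModel

/-- the bijection between the points and the model -/
noncomputable def eDy : Option X ≃ Dy := Equiv.ofBijective toDy toDy_bijective

theorem eDy_apply (a : Option X) : eDy a = toDy a := rfl

instance : Countable X := Subtype.countable

instance : Nonempty X := ⟨⟨1 / 2, by norm_num, by norm_num, 1, 1, by norm_num⟩⟩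

/-- Homogeneity with a fixed base point. -/
theorem S3_hom_based (p : Finset (X × X))
    (hp : ∀ a ∈ p, ∀ b ∈ p, (a.1 = b.1 ↔ a.2 = b.2) ∧
      (S3 (toDy (some a.1)) (toDy (some b.1)) ↔ S3 (toDy (some a.2)) (toDy (some b.2))))
    (hc : ∀ a ∈ p, col a.2 = col a.1) :
    ∃ φ : Dy ≃ Dy, (∀ x y, S3 (φ x) (φ y) ↔ S3 x y) ∧ φ base = base ∧
      ∀ a ∈ p, φ (toDy (some a.1)) = toDy (some a.2) := by
  classical
  have hP : CPart col col p := by
    refine ⟨fun a ha b hb => ?_, hc⟩
    by_cases e : a.1 = b.1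
    · rw [e, ((hp a ha b hb).1).1 e]
      exact iff_of_false (lt_irrefl _) (lt_irrefl _)
    · have e' : a.2 ≠ b.2 := fun h => e (((hp a ha b hb).1).2 h)
      rw [lt_iff_S3 _ _ e, lt_iff_S3 _ _ e', hc a ha, hc b hb, (hp a ha b hb).2,
        (hp b hb a ha).2]
  obtain ⟨f, hf0, hf⟩ := back_forth {p : Finset (X × X) | CPart col col p} p
    hP (fun p hp => CPart.inj hp) (fun p hp x => CPart.extend dense3 hp x)
    (fun p hp y => by
      obtain ⟨q, hq, hpq, x, hx⟩ := CPart.extend dense3 (CPart.swap hp) y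
      refine ⟨q.image Prod.swap, CPart.swap hq, ?_, x, Finset.mem_image.2 ⟨_, hx, rfl⟩⟩
      intro a ha
      exact Finset.mem_image.2 ⟨a.swap, hpq (Finset.mem_image.2 ⟨a, ha, rfl⟩), by simp⟩)
  have hlt : ∀ x y, f x < f y ↔ x < y := by
    intro x y
    obtain ⟨q, hq, h1, h2⟩ := hf x y
    exact (hq.1 _ h1 _ h2).symm
  have hcol : ∀ x, col (f x) = col x := by
    intro x
    obtain ⟨q, hq, h1, -⟩ := hf x x
    exact hq.2 _ h1
  refine ⟨(eDy.symm.trans (Equiv.optionCongr f)).trans eDy, ?_, ?_, ?_⟩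
  · have h1 : ∀ a b : Option X, S3 (toDy (Equiv.optionCongr f a)) (toDy (Equiv.optionCongr f b)) ↔
        S3 (toDy a) (toDy b) := by
      rintro (_ | x) (_ | y)
      · exact Iff.rfl
      · show S3 base (toDy (some (f y))) ↔ S3 base (toDy (some y))
        rw [S3_base_some, S3_base_some, hcol]
      · show S3 (toDy (some (f x))) base ↔ S3 (toDy (some x)) base
        rw [S3_some_base, S3_some_base, hcol]
      · show S3 (toDy (some (f x))) (toDy (some (f y))) ↔ _
        rw [S3_some, S3_some, hcol, hcol, hlt, hlt]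
    intro x y
    obtain ⟨a, rfl⟩ := eDy.surjective x
    obtain ⟨b, rfl⟩ := eDy.surjective y
    simp only [Equiv.trans_apply, Equiv.symm_apply_apply]
    exact h1 a b
  · have : eDy none = base := rfl
    rw [← this]
    simp only [Equiv.trans_apply, Equiv.symm_apply_apply]
    rfl
  · intro a ha
    have h1 : eDy (some a.1) = toDy (some a.1) := rfl
    have h2 : eDy (some a.2) = toDy (some a.2) := rfl
    rw [← h1, ← h2]
    simp only [Equiv.trans_apply, Equiv.symm_apply_apply]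
    rw [← hf0 a ha]
    rfl

/-- `S(3)` is homogeneous as a digraph. -/
theorem S3_hom (U : Finset Dy) (g : Dy → Dy) (hg : Set.InjOn g U)
    (h : ∀ x ∈ U, ∀ y ∈ U, (S3 (g x) (g y) ↔ S3 x y)) :
    ∃ φ : Dy ≃ Dy, (∀ x y, S3 (φ x) (φ y) ↔ S3 x y) ∧ ∀ x ∈ U, φ x = g x := by
  classical
  rcases U.eq_empty_or_nonempty with rfl | ⟨u0, hu0⟩
  · exact ⟨Equiv.refl _, fun _ _ => Iff.rfl, by simp⟩
  obtain ⟨α, hα, hα0⟩ := exists_rot_base u0
  obtain ⟨β, hβ, hβ0⟩ := exists_rot_base (g u0)
  -- the part of `U` different from `u0`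
  let W : Finset X := (U.image (fun u => eDy.symm (α u))).preimage some
    (Set.injOn_of_injective (Option.some_injective _))
  have hW : ∀ x ∈ W, ∃ u ∈ U, α u = toDy (some x) := by
    intro x hx
    obtain ⟨u, hu, e⟩ := Finset.mem_image.1 (Finset.mem_preimage.1 hx)
    refine ⟨u, hu, ?_⟩
    have h2 := congrArg eDy e
    rw [Equiv.apply_symm_apply] at h2
    exact h2
  have hW2 : ∀ u ∈ U, u ≠ u0 → ∃ x ∈ W, α u = toDy (some x) := by
    intro u hu hne
    rcases hx : eDy.symm (α u) with _ | x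
    · exfalso
      apply hne
      apply α.injective
      rw [hα0]
      have h2 := congrArg eDy hx
      rw [Equiv.apply_symm_apply] at h2
      exact h2
    · refine ⟨x, ?_, ?_⟩
      · apply Finset.mem_preimage.2
        rw [← hx]
        exact Finset.mem_image.2 ⟨u, hu, rfl⟩
      · have h2 := congrArg eDy hx
        rw [Equiv.apply_symm_apply] at h2
        exact h2
  have hne : ∀ x, ∀ u, α u = toDy (some x) → u ≠ u0 := by
    rintro x u e rfl
    rw [hα0] at e
    have h3 : (none : Option X) = some x := toDy_bijective.1 e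
    cases h3
  have hex : ∀ x : X, ∃ y : X, x ∈ W → ∃ u ∈ U, α u = toDy (some x) ∧ β (g u) = toDy (some y) := by
    intro x
    by_cases hx : x ∈ W
    · obtain ⟨u, hu, hxu⟩ := hW x hx
      have hu0' : g u ≠ g u0 := fun e => hne x u hxu (hg hu hu0 e)
      rcases hy : eDy.symm (β (g u)) with _ | y
      · exfalso
        apply hu0'
        apply β.injective
        rw [hβ0]
        have h2 := congrArg eDy hy
        rw [Equiv.apply_symm_apply] at h2
        exact h2
      · refine ⟨y, fun _ => ⟨u, hu, hxu, ?_⟩⟩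
        have h2 := congrArg eDy hy
        rw [Equiv.apply_symm_apply] at h2
        exact h2
    · exact ⟨x, fun h => absurd h hx⟩
  choose k hk using hex
  let p : Finset (X × X) := W.image (fun x => (x, k x))
  obtain ⟨φ, hφ1, hφ2, hφ3⟩ := S3_hom_based p (by
      intro a ha b hb
      obtain ⟨x, hx, rfl⟩ := Finset.mem_image.1 ha
      obtain ⟨y, hy, rfl⟩ := Finset.mem_image.1 hb
      obtain ⟨u, hu, h1, h2⟩ := hk x hx
      obtain ⟨v, hv, h3, h4⟩ := hk y hy
      constructor
      · constructor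
        · intro e
          simp only at e
          rw [e]
        · intro e
          simp only at e
          rw [e, ← h4] at h2
          have h5 := hg hu hv (β.injective h2)
          rw [h5, h3] at h1
          exact Option.some_injective _ (toDy_bijective.1 h1.symm)
      · show S3 (toDy (some x)) (toDy (some y)) ↔ S3 (toDy (some (k x))) (toDy (some (k y)))
        rw [← h1, ← h2, ← h3, ← h4, hα, hβ]
        exact (h u hu v hv).symm) (by
      intro a ha
      obtain ⟨x, hx, rfl⟩ := Finset.mem_image.1 ha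
      obtain ⟨u, hu, h1, h2⟩ := hk x hx
      show col (k x) = col x
      apply col_eq
      · rw [← h1, ← h2, ← hα0, hα, hα0, ← hβ0, hβ]
        exact (h u0 hu0 u hu).symm
      · rw [← h1, ← h2, ← hα0, hα, hα0, ← hβ0, hβ]
        exact (h u hu u0 hu0).symm)
  refine ⟨(α.trans φ).trans β.symm, ?_, ?_⟩
  · intro x y
    rw [← hα x y, ← hφ1 (α x) (α y), ← hβ]
    simp only [Equiv.trans_apply, Equiv.apply_symm_apply]
  · intro u hu
    rw [Equiv.trans_apply, Equiv.trans_apply, Equiv.symm_apply_eq]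
    by_cases e : u = u0
    · rw [e, hα0, hφ2, hβ0]
    · obtain ⟨x, hx, h1⟩ := hW2 u hu e
      obtain ⟨v, hv, h3, h4⟩ := hk x hx
      have huv : u = v := α.injective (h1.trans h3.symm)
      rw [huv, h3, h4]
      exact hφ3 (x, k x) (Finset.mem_image.2 ⟨x, hx, rfl⟩)

/-- A bijection preserving `S(3)` is an automorphism of `R(3)`. -/
def autOf (φ : Dy ≃ Dy) (h : ∀ x y, S3 (φ x) (φ y) ↔ S3 x y) : R3 ≃g R3 where
  toEquiv := φ
  map_rel_iff' := fun {a b} => by
    show S3 (φ a) (φ b) ∨ S3 (φ b) (φ a) ↔ S3 a b ∨ S3 b a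
    rw [h, h]

/-- A bijection reversing `S(3)` is an automorphism of `R(3)`. -/
def autOf' (φ : Dy ≃ Dy) (h : ∀ x y, S3 (φ x) (φ y) ↔ S3 y x) : R3 ≃g R3 where
  toEquiv := φ
  map_rel_iff' := fun {a b} => by
    show S3 (φ a) (φ b) ∨ S3 (φ b) (φ a) ↔ S3 a b ∨ S3 b a
    rw [h, h]
    exact or_comm

theorem sh_R3 : SetHomogeneous R3 := by
  classical
  rintro U W ⟨f⟩
  -- the isomorphism as a map to `Dy`
  let g : ↥(U : Set Dy) → Dy := fun u => (f u).1
  have hginj : Function.Injective g := fun u v e => f.injective (Subtype.ext e)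
  have hgW : ∀ w ∈ W, ∃ u, g u = w := by
    intro w hw
    obtain ⟨u, hu⟩ := f.surjective ⟨w, hw⟩
    exact ⟨u, congrArg Subtype.val hu⟩
  have hadj : ∀ u v : (U : Set Dy), R3.Adj (g u) (g v) ↔ R3.Adj u.1 v.1 := fun u v =>
    f.map_adj_iff (v := u) (w := v)
  have hD : Orn (R3ᶜ.comap (Subtype.val : ↥(U : Set Dy) → Dy)) (fun u v => S3 u.1 v.1) :=
    orn_S3.comap _ Subtype.val_injective
  have hD' : Orn (R3ᶜ.comap (Subtype.val : ↥(U : Set Dy) → Dy)) (fun u v => S3 (g u) (g v)) := by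
    have h1 := orn_S3.comap g hginj
    have h2 : R3ᶜ.comap g = R3ᶜ.comap (Subtype.val : ↥(U : Set Dy) → Dy) := by
      ext u v
      show R3ᶜ.Adj (g u) (g v) ↔ R3ᶜ.Adj u.1 v.1
      rw [SimpleGraph.compl_adj, SimpleGraph.compl_adj, hadj]
      have h3 : g u ≠ g v ↔ u.1 ≠ v.1 := by
        rw [hginj.ne_iff, Ne, Ne, Subtype.ext_iff]
      rw [h3]
    rw [h2] at h1
    exact h1
  have tf : TF (R3ᶜ.comap (Subtype.val : ↥(U : Set Dy) → Dy)) := fun u v w h1 h2 h3 =>
    tf_R3c _ _ _ h1 h2 h3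
  -- from a permutation to an automorphism
  have fin : ∀ (σ : Equiv.Perm (U : Set Dy)) (ρ : Dy ≃ Dy),
      (∀ u v : (U : Set Dy), S3 (ρ (g (σ u))) (ρ (g (σ v))) ↔ S3 u.1 v.1) →
      ∃ φ : Dy ≃ Dy, (∀ x y, S3 (φ x) (φ y) ↔ S3 x y) ∧
        ∀ u : (U : Set Dy), φ u.1 = ρ (g (σ u)) := by
    intro σ ρ h
    let k : Dy → Dy := fun x => if hx : x ∈ U then ρ (g (σ ⟨x, hx⟩)) else x
    have hk : ∀ u : (U : Set Dy), k u.1 = ρ (g (σ u)) := by
      intro u
      have hu : u.1 ∈ U := u.2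
      show (if hx : u.1 ∈ U then ρ (g (σ ⟨u.1, hx⟩)) else u.1) = _
      rw [dif_pos hu]
    obtain ⟨φ, h1, h2⟩ := S3_hom U k (by
        intro x hx y hy e
        have e1 : k x = ρ (g (σ ⟨x, hx⟩)) := hk ⟨x, hx⟩
        have e2 : k y = ρ (g (σ ⟨y, hy⟩)) := hk ⟨y, hy⟩
        rw [e1, e2] at e
        exact congrArg Subtype.val (σ.injective (hginj (ρ.injective e)))) (by
        intro x hx y hy
        have e1 : k x = ρ (g (σ ⟨x, hx⟩)) := hk ⟨x, hx⟩
        have e2 : k y = ρ (g (σ ⟨y, hy⟩)) := hk ⟨y, hy⟩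
        rw [e1, e2]
        exact h ⟨x, hx⟩ ⟨y, hy⟩)
    exact ⟨φ, h1, fun u => (h2 u.1 u.2).trans (hk u)⟩
  have img : ∀ (σ : Equiv.Perm (U : Set Dy)) (φ : Dy → Dy),
      (∀ u : (U : Set Dy), φ u.1 = g (σ u)) → φ '' (U : Set Dy) = (W : Set Dy) := by
    intro σ φ h
    ext w
    constructor
    · rintro ⟨u, hu, rfl⟩
      rw [h ⟨u, hu⟩]
      exact (f _).2
    · intro hw
      obtain ⟨u, rfl⟩ := hgW w hw
      refine ⟨(σ.symm u).1, (σ.symm u).2, ?_⟩
      rw [h, Equiv.apply_symm_apply]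
  rcases exists_perm_or hD hD' tf with ⟨σ, hσ⟩ | ⟨σ, hσ⟩
  · obtain ⟨φ, h1, h2⟩ := fin σ (Equiv.refl _) (fun u v => (hσ u v).symm)
    exact ⟨autOf φ h1, img σ φ h2⟩
  · obtain ⟨φ, h1, h2⟩ := fin σ refl (fun u v => by
      rw [S3_refl]
      exact (hσ u v).symm)
    refine ⟨autOf' (φ.trans refl.symm) ?_, img σ _ ?_⟩
    · intro x y
      rw [← S3_refl, ← h1 y x]
      simp only [Equiv.trans_apply, Equiv.apply_symm_apply]
    · intro u
      show refl.symm (φ u.1) = _
      rw [h2, Equiv.symm_apply_apply]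

/-- Set-homogeneity is invariant under isomorphisms. -/
theorem sh_of_iso {V W : Type*} {G : SimpleGraph V} {H : SimpleGraph W} (e : G ≃g H)
    (hs : SetHomogeneous H) : SetHomogeneous G := by
  classical
  rintro U U' ⟨f⟩
  have key : ∀ S : Finset V, Nonempty (G.induce (S : Set V) ≃g
      H.induce ((S.image e : Finset W) : Set W)) := by
    intro S
    have h1 : ∀ x : V, x ∈ (S : Set V) ↔ e x ∈ ((S.image e : Finset W) : Set W) := by
      intro x
      rw [Finset.coe_image]
      exact (e.injective.mem_set_image).symm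
    exact ⟨{ toEquiv := e.toEquiv.subtypeEquiv h1
             map_rel_iff' := fun {a b} => e.map_adj_iff }⟩
  obtain ⟨k1⟩ := key U
  obtain ⟨k2⟩ := key U'
  obtain ⟨φ, hφ⟩ := hs (U.image e) (U'.image e) ⟨(k1.symm.trans f).trans k2⟩
  refine ⟨(e.trans φ).trans e.symm, ?_⟩
  rw [Finset.coe_image, Finset.coe_image] at hφ
  have h2 : (fun x => ((e.trans φ).trans e.symm) x) '' (U : Set V) =
      e.symm '' (φ '' (e '' (U : Set V))) := by
    rw [Set.image_image, Set.image_image]
    rfl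
  show (fun x => ((e.trans φ).trans e.symm) x) '' (U : Set V) = _
  rw [h2, hφ, Set.image_image]
  simp

/-- The classification of the countable set-homogeneous graphs as an equivalence. -/
theorem classify_iff_of (hDI : ∀ (W : Type) [Countable W] (H : SimpleGraph W), DI H →
    Homogeneous H) {V : Type} [Countable V] (G : SimpleGraph V) :
    SetHomogeneous G ↔ Homogeneous G ∨ Nonempty (G ≃g R3) ∨ Nonempty (G ≃g R3ᶜ) := by
  constructor
  · exact classify_all_of hDI G
  · rintro (h | ⟨⟨e⟩⟩ | ⟨⟨e⟩⟩)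
    · exact sh_of_homogeneous h
    · exact sh_of_iso e sh_R3
    · exact sh_of_iso e (sh_compl sh_R3)

end Ori
end SetHom
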