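import Pool.Agent.Helper25.DI.Orient
import Pool.Agent.Helper33.SH.Dyadic
import Pool.Agent.Helper30.SH.BackForth

/-!
# MP_506470_co : the myopic local order `S(3)` as an orientation, and its homogeneity
-/

namespace SetHom
namespace Ori

open DyadicModel

theorem Orn.comap {A B : Type} {H : SimpleGraph A} {D : A → A → Prop} (hD : Orn H D) (f : B → A)
    (hf : Function.Injective f) : Orn (H.comap f) (fun u v => D (f u) (f v)) where
  asym _ _ h := hD.asym _ _ h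
  tot _ _ h1 h2 := hD.tot _ _ (fun e => h1 (hf e)) h2
  sub _ _ h := hD.sub _ _ h
  loc _ _ _ h1 h2 h3 := hD.loc _ _ _ h1 h2 h3
  loc' _ _ _ h1 h2 h3 := hD.loc' _ _ _ h1 h2 h3
  cyc _ _ _ h1 h2 h3 := hD.cyc _ _ _ h1 h2 h3

theorem S3_asym (a b : Dy) (h : S3 a b) : ¬ S3 b a := by
  rw [S3_iff] at h ⊢
  rintro (⟨h1, h2⟩ | h1) <;> rcases h with ⟨h3, h4⟩ | h3 <;> linarith

theorem S3_tot (a b : Dy) (h : a ≠ b) (h2 : ¬ R3ᶜ.Adj a b) : S3 a b ∨ S3 b a := by
  by_contra h3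
  exact h2 ((SimpleGraph.compl_adj _ _ _).2 ⟨h, h3⟩)

theorem S3_not_adj (a b : Dy) (h : S3 a b) : ¬ R3ᶜ.Adj a b := fun h2 =>
  ((SimpleGraph.compl_adj _ _ _).1 h2).2 (Or.inl h)

theorem bds (a : Dy) : 0 ≤ a.1 ∧ a.1 < 1 := ⟨a.2.1, a.2.2.1⟩

theorem S3_out (u v w : Dy) (h1 : S3 u v) (h2 : S3 u w) : ¬ R3ᶜ.Adj v w := by
  rw [S3_iff] at h1 h2
  rw [compl_adj_iff]
  have := bds u
  have := bds v
  have := bds w
  rintro (⟨h5, h6⟩ | ⟨h5, h6⟩) <;> rcases h1 with ⟨h3, h4⟩ | h3 <;>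
    rcases h2 with ⟨h7, h8⟩ | h7 <;> linarith

theorem S3_in (u v w : Dy) (h1 : S3 v u) (h2 : S3 w u) : ¬ R3ᶜ.Adj v w := by
  rw [S3_iff] at h1 h2
  rw [compl_adj_iff]
  have := bds u
  have := bds v
  have := bds w
  rintro (⟨h5, h6⟩ | ⟨h5, h6⟩) <;> rcases h1 with ⟨h3, h4⟩ | h3 <;>
    rcases h2 with ⟨h7, h8⟩ | h7 <;> linarith

theorem S3_cyc (u v w : Dy) (h1 : S3 u v) (h2 : S3 v w) : ¬ S3 w u := by
  rw [S3_iff] at h1 h2
  rw [S3_iff]
  have := bds u
  have := bds v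
  have := bds w
  rintro (⟨h5, h6⟩ | h5) <;> rcases h1 with ⟨h3, h4⟩ | h3 <;>
    rcases h2 with ⟨h7, h8⟩ | h7 <;> linarith

theorem tf_R3c : TF R3ᶜ := by
  intro u v w h1 h2 h3
  rw [compl_adj_iff] at h1 h2 h3
  rcases h1 with ⟨h1, h1'⟩ | ⟨h1, h1'⟩ <;> rcases h2 with ⟨h2, h2'⟩ | ⟨h2, h2'⟩ <;>
    rcases h3 with ⟨h3, h3'⟩ | ⟨h3, h3'⟩ <;> linarith

theorem orn_S3 : Orn R3ᶜ S3 where
  asym := S3_asym
  tot := S3_tot
  sub := S3_not_adj
  loc u v w h1 h2 h3 := by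
    have hne : u ≠ w := by
      rintro rfl
      exact S3_not_adj _ _ h3 h1.symm
    rcases S3_tot u w hne h2 with h4 | h4
    · exact absurd h1 (S3_out u v w h3 h4)
    · exact h4
  loc' u v w h1 h2 h3 := by
    have hne : u ≠ w := by
      rintro rfl
      exact S3_not_adj _ _ h3 h1
    rcases S3_tot u w hne h2 with h4 | h4
    · exact h4
    · exact absurd h1 (S3_in u v w h3 h4)
  cyc := S3_cyc

/-! Rotations and the reflection. -/

theorem IsDy.add' {a b : ℚ} (ha : IsDy a) (hb : IsDy b) : IsDy (a + b) := by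
  have h0 : IsDy 0 := ⟨0, 0, by norm_num⟩
  have := ha.sub (h0.sub hb)
  rwa [zero_sub, sub_neg_eq_add] at this

theorem IsDy.neg' {a : ℚ} (ha : IsDy a) : IsDy (-a) := by
  have h0 : IsDy 0 := ⟨0, 0, by norm_num⟩
  have := h0.sub ha
  rwa [zero_sub] at this

/-- the point of the circle given by a dyadic rational -/
def mkDy (q : ℚ) (h : IsDy q) : Dy := ⟨Int.fract q, Int.fract_nonneg q, Int.fract_lt_one q, by
  have h2 : IsDy (q - ((⌊q⌋ : ℤ) : ℚ)) := h.sub ⟨0, ⌊q⌋, by simp⟩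
  exact h2⟩

theorem isDy_val (x : Dy) : IsDy x.1 := x.2.2.2

theorem mkDy_eq (x : Dy) (q : ℚ) (h : IsDy q) (z : ℤ) (hz : q - x.1 = z) : mkDy q h = x := by
  apply Subtype.ext
  show Int.fract q = x.1
  have h1 : Int.fract x.1 = x.1 := Int.fract_eq_self.2 (bds x)
  rw [← h1, Int.fract_eq_fract]
  exact ⟨z, hz⟩

theorem S3_mkDy (p q : ℚ) (hp : IsDy p) (hq : IsDy q) :
    S3 (mkDy p hp) (mkDy q hq) ↔ 0 < Int.fract (q - p) ∧ Int.fract (q - p) < 1 / 3 := by
  have h : Int.fract (Int.fract q - Int.fract p) = Int.fract (q - p) := by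
    rw [Int.fract_eq_fract]
    refine ⟨⌊p⌋ - ⌊q⌋, ?_⟩
    simp only [Int.fract]
    push_cast
    ring
  show 0 < Int.fract (Int.fract q - Int.fract p) ∧ Int.fract (Int.fract q - Int.fract p) < 1 / 3 ↔ _
  rw [h]

/-- rotations -/
def rot (v : ℚ) (hv : IsDy v) : Dy ≃ Dy where
  toFun x := mkDy (x.1 + v) (IsDy.add' (isDy_val x) hv)
  invFun x := mkDy (x.1 - v) ((isDy_val x).sub hv)
  left_inv x := mkDy_eq x _ _ (-⌊x.1 + v⌋) (by
    show Int.fract (x.1 + v) - v - x.1 = _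
    simp only [Int.fract]
    push_cast
    ring)
  right_inv x := mkDy_eq x _ _ (-⌊x.1 - v⌋) (by
    show Int.fract (x.1 - v) + v - x.1 = _
    simp only [Int.fract]
    push_cast
    ring)

theorem S3_rot (v : ℚ) (hv : IsDy v) (x y : Dy) : S3 (rot v hv x) (rot v hv y) ↔ S3 x y := by
  refine (S3_mkDy (x.1 + v) (y.1 + v) (IsDy.add' (isDy_val x) hv)
    (IsDy.add' (isDy_val y) hv)).trans ?_
  rw [add_sub_add_right_eq_sub]
  rfl

/-- the reflection -/
def refl : Dy ≃ Dy where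
  toFun x := mkDy (-x.1) (IsDy.neg' (isDy_val x))
  invFun x := mkDy (-x.1) (IsDy.neg' (isDy_val x))
  left_inv x := mkDy_eq x _ _ ⌊-x.1⌋ (by
    show -Int.fract (-x.1) - x.1 = _
    simp only [Int.fract]
    ring)
  right_inv x := mkDy_eq x _ _ ⌊-x.1⌋ (by
    show -Int.fract (-x.1) - x.1 = _
    simp only [Int.fract]
    ring)

theorem S3_refl (x y : Dy) : S3 (refl x) (refl y) ↔ S3 y x := by
  refine (S3_mkDy (-x.1) (-y.1) (IsDy.neg' (isDy_val x)) (IsDy.neg' (isDy_val y))).trans ?_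
  rw [neg_sub_neg]
  rfl

theorem exists_rot_base (u : Dy) : ∃ α : Dy ≃ Dy, (∀ x y, S3 (α x) (α y) ↔ S3 x y) ∧
    α u = base := by
  refine ⟨rot (-u.1) (IsDy.neg' (isDy_val u)), S3_rot _ _, ?_⟩
  refine mkDy_eq base (u.1 + -u.1) (IsDy.add' (isDy_val u) (IsDy.neg' (isDy_val u))) 0 ?_
  show u.1 + -u.1 - 0 = _
  push_cast
  ring

/-! `S(3)` in the coloured model. -/

theorem S3_some (x y : X) : S3 (toDy (some x)) (toDy (some y)) ↔
    (col x = col y ∧ x < y) ∨ (y < x ∧ ((col x = 2 ∧ col y = 0) ∨ (col x = 0 ∧ col y = 1) ∨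
      (col x = 1 ∧ col y = 2))) := by
  rw [S3_iff]
  simp only [toDy, lt_iff]
  have e01 : (0 : Fin 3) ≠ 1 := by decide
  have e02 : (0 : Fin 3) ≠ 2 := by decide
  have e12 : (1 : Fin 3) ≠ 2 := by decide
  have k1 := key_pos x
  have k2 := key_pos y
  have k3 := key_lt_one x
  have k4 := key_lt_one y
  rcases cases3 x with ⟨cx, hx1, hx2, kx⟩ | ⟨cx, hx1, hx2, kx⟩ | ⟨cx, hx1, hx2, kx⟩ <;>
  rcases cases3 y with ⟨cy, hy1, hy2, ky⟩ | ⟨cy, hy1, hy2, ky⟩ | ⟨cy, hy1, hy2, ky⟩ <;>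
  rw [cx, cy, kx, ky] <;>
  simp only [e01, e02, e12, e01.symm, e02.symm, e12.symm, false_and, and_false, or_false,
    false_or, true_and, and_true, iff_false, not_or, not_and, not_lt]
  · constructor
    · rintro (⟨h1, h2⟩ | h1) <;> linarith
    · intro h; left; constructor <;> linarith
  · constructor
    · rintro (⟨h1, h2⟩ | h1) <;> linarith
    · intro h; left; constructor <;> linarith
  · constructor
    · intro h; linarith
    · linarith
  · constructor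
    · intro h; linarith
    · linarith
  · constructor
    · rintro (⟨h1, h2⟩ | h1) <;> linarith
    · intro h; left; constructor <;> linarith
  · constructor
    · rintro (⟨h1, h2⟩ | h1) <;> linarith
    · intro h; left; constructor <;> linarith
  · constructor
    · rintro (⟨h1, h2⟩ | h1) <;> linarith
    · intro h; right; linarith
  · constructor
    · intro h; linarith
    · linarith
  · constructor
    · rintro (⟨h1, h2⟩ | h1) <;> linarith
    · intro h; left; constructor <;> linarith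

theorem S3_base_some (x : X) : S3 base (toDy (some x)) ↔ col x = 2 := by
  rw [S3_iff]
  simp only [toDy, base]
  rcases cases3 x with ⟨cx, hx1, hx2, kx⟩ | ⟨cx, hx1, hx2, kx⟩ | ⟨cx, hx1, hx2, kx⟩ <;> rw [cx]
  · exact ⟨fun _ => rfl, fun _ => Or.inl ⟨by linarith, by linarith⟩⟩
  · refine ⟨?_, fun h => absurd h (by decide)⟩
    rintro (⟨h1, h2⟩ | h1) <;> exfalso <;> linarith
  · refine ⟨?_, fun h => absurd h (by decide)⟩
    rintro (⟨h1, h2⟩ | h1) <;> exfalso <;> linarith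

theorem S3_some_base (x : X) : S3 (toDy (some x)) base ↔ col x = 1 := by
  rw [S3_iff]
  simp only [toDy, base]
  rcases cases3 x with ⟨cx, hx1, hx2, kx⟩ | ⟨cx, hx1, hx2, kx⟩ | ⟨cx, hx1, hx2, kx⟩ <;> rw [cx]
  · refine ⟨?_, fun h => absurd h (by decide)⟩
    rintro (⟨h1, h2⟩ | h1) <;> exfalso <;> linarith
  · refine ⟨?_, fun h => absurd h (by decide)⟩
    rintro (⟨h1, h2⟩ | h1) <;> exfalso <;> linarith
  · exact ⟨fun _ => rfl, fun _ => Or.inr (by linarith)⟩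

theorem col_eq {x x' : X} (h1 : S3 base (toDy (some x)) ↔ S3 base (toDy (some x')))
    (h2 : S3 (toDy (some x)) base ↔ S3 (toDy (some x')) base) : col x' = col x := by
  rw [S3_base_some, S3_base_some] at h1
  rw [S3_some_base, S3_some_base] at h2
  have key : ∀ a b : Fin 3, (a = 2 ↔ b = 2) → (a = 1 ↔ b = 1) → b = a := by decide
  exact key _ _ h1 h2

theorem lt_iff_S3 (x y : X) (h : x ≠ y) : x < y ↔
    (col x = col y ∧ S3 (toDy (some x)) (toDy (some y))) ∨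
    (((col x = 2 ∧ col y = 0) ∨ (col x = 0 ∧ col y = 1) ∨ (col x = 1 ∧ col y = 2)) ∧
      ¬ S3 (toDy (some x)) (toDy (some y))) ∨
    (((col y = 2 ∧ col x = 0) ∨ (col y = 0 ∧ col x = 1) ∨ (col y = 1 ∧ col x = 2)) ∧
      S3 (toDy (some y)) (toDy (some x))) := by
  rw [S3_some, S3_some]
  have e01 : (0 : Fin 3) ≠ 1 := by decide
  have e02 : (0 : Fin 3) ≠ 2 := by decide
  have e12 : (1 : Fin 3) ≠ 2 := by decide
  rcases cases3 x with ⟨cx, -⟩ | ⟨cx, -⟩ | ⟨cx, -⟩ <;>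
  rcases cases3 y with ⟨cy, -⟩ | ⟨cy, -⟩ | ⟨cy, -⟩ <;>
  rw [cx, cy] <;>
  simp only [e01, e02, e12, e01.symm, e02.symm, e12.symm, false_and, and_false, or_false,
    false_or, true_and, and_true, not_lt, not_false_iff, le_iff_lt_or_eq, h, h.symm]

end Ori
end SetHom
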