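import Pool.Agent.Helper25.DI.Final

/-!
# MP_506470_co : universal set-homogeneous graphs are homogeneous
-/

namespace SetHom

variable {V : Type} {G : SimpleGraph V}

/-- Two copies of a finite graph are conjugate up to an automorphism of the graph. -/
theorem sh_emb' (hs : SetHomogeneous G) {δ : Type} [Finite δ] (f f' : δ → V)
    (hf : Function.Injective f) (hf' : Function.Injective f')
    (hadj : ∀ x y, G.Adj (f x) (f y) ↔ G.Adj (f' x) (f' y)) :
    ∃ (φ : G ≃g G) (σ : Equiv.Perm δ), (∀ x, φ (f x) = f' (σ x)) ∧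
      ∀ x y, (G.Adj (f' (σ x)) (f' (σ y)) ↔ G.Adj (f' x) (f' y)) := by
  classical
  have := Fintype.ofFinite δ
  let S : Finset V := Finset.univ.image f
  have hmem : ∀ i, f i ∈ S := fun i => Finset.mem_image_of_mem f (Finset.mem_univ i)
  have hS : ∀ x ∈ S, ∃ i, f i = x := by
    intro x hx
    obtain ⟨i, -, rfl⟩ := Finset.mem_image.1 hx
    exact ⟨i, rfl⟩
  let h : V → V := fun x => if hx : ∃ i, f i = x then f' (Classical.choose hx) else x
  have hh : ∀ i, h (f i) = f' i := by
    intro i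
    have hx : ∃ j, f j = f i := ⟨i, rfl⟩
    have h1 : h (f i) = f' (Classical.choose hx) := dif_pos hx
    rw [h1, hf (Classical.choose_spec hx)]
  obtain ⟨φ, hφ⟩ := SHmap hs S h
    (by
      intro x hx y hy hxy
      obtain ⟨i, rfl⟩ := hS x hx
      obtain ⟨j, rfl⟩ := hS y hy
      rw [hh, hh] at hxy
      rw [hf' hxy])
    (by
      intro x hx y hy
      obtain ⟨i, rfl⟩ := hS x hx
      obtain ⟨j, rfl⟩ := hS y hy
      rw [hh, hh, hadj])
  have key : ∀ i, ∃ j, φ (f i) = f' j := by
    intro i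
    have h1 : φ (f i) ∈ h '' (S : Set V) := by
      rw [← hφ]
      exact Set.mem_image_of_mem _ (hmem i)
    obtain ⟨x, hx, h2⟩ := h1
    obtain ⟨j, rfl⟩ := hS x hx
    exact ⟨j, by rw [← h2, hh]⟩
  choose s hs2 using key
  have hsinj : Function.Injective s := by
    intro i j hij
    apply hf
    apply φ.injective
    rw [hs2, hs2, hij]
  have hsbij : Function.Bijective s := Finite.injective_iff_bijective.1 hsinj
  refine ⟨φ, Equiv.ofBijective s hsbij, fun i => by simpa using hs2 i, ?_⟩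
  intro i j
  show G.Adj (f' (s i)) (f' (s j)) ↔ G.Adj (f' i) (f' j)
  rw [← hs2, ← hs2, φ.map_adj_iff, hadj]

/-- The graph `Q` with `(i + 2) (n + 1)` pendant vertices at `i`. -/
def pinG {n : ℕ} (Q : SimpleGraph (Fin n)) :
    SimpleGraph (Fin n ⊕ (Σ i : Fin n, Fin ((i.1 + 2) * (n + 1)))) where
  Adj x y := match x, y with
    | Sum.inl i, Sum.inl j => Q.Adj i j
    | Sum.inl i, Sum.inr p => p.1 = i
    | Sum.inr p, Sum.inl i => p.1 = i
    | Sum.inr _, Sum.inr _ => False
  symm := ⟨by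
    rintro (i | p) (j | q) h
    · exact SimpleGraph.Adj.symm (G := Q) h
    · exact h
    · exact h
    · exact h⟩
  loopless := ⟨by
    rintro (i | p) h
    · exact Q.irrefl h
    · exact h⟩

/-- The graph `Q` with copies of the pendant vertices for all permutations. -/
def pinE {n : ℕ} (Q : SimpleGraph (Fin n)) :
    SimpleGraph (Fin n ⊕ (Equiv.Perm (Fin n) × (Σ i : Fin n, Fin ((i.1 + 2) * (n + 1))))) where
  Adj x y := match x, y with
    | Sum.inl i, Sum.inl j => Q.Adj i j
    | Sum.inl i, Sum.inr p => p.1 p.2.1 = i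
    | Sum.inr p, Sum.inl i => p.1 p.2.1 = i
    | Sum.inr _, Sum.inr _ => False
  symm := ⟨by
    rintro (i | p) (j | q) h
    · exact SimpleGraph.Adj.symm (G := Q) h
    · exact h
    · exact h
    · exact h⟩
  loopless := ⟨by
    rintro (i | p) h
    · exact Q.irrefl h
    · exact h⟩

theorem pinG_rigid {n : ℕ} (Q : SimpleGraph (Fin n))
    (τ : Equiv.Perm (Fin n ⊕ (Σ i : Fin n, Fin ((i.1 + 2) * (n + 1)))))
    (hτ : ∀ x y, (pinG Q).Adj (τ x) (τ y) ↔ (pinG Q).Adj x y) (i : Fin n) :
    τ (Sum.inl i) = Sum.inl i := by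
  classical
  have hdeg : ∀ x, {y | (pinG Q).Adj (τ x) y}.ncard = {y | (pinG Q).Adj x y}.ncard := by
    intro x
    have : {y | (pinG Q).Adj (τ x) y} = τ '' {y | (pinG Q).Adj x y} := by
      ext y
      constructor
      · intro hy
        refine ⟨τ.symm y, ?_, by simp⟩
        show (pinG Q).Adj x (τ.symm y)
        rw [← hτ, Equiv.apply_symm_apply]
        exact hy
      · rintro ⟨z, hz, rfl⟩
        exact (hτ x z).2 hz
    rw [this, Set.ncard_image_of_injective _ τ.injective]
  have hpin : ∀ p, {y | (pinG Q).Adj (Sum.inr p) y}.ncard = 1 := by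
    intro p
    have : {y | (pinG Q).Adj (Sum.inr p) y} = {Sum.inl p.1} := by
      ext y
      rcases y with j | q
      · simp only [Set.mem_setOf_eq, Set.mem_singleton_iff, Sum.inl.injEq]
        exact ⟨fun h => (show p.1 = j from h).symm, fun h => (show p.1 = j from h.symm)⟩
      · simp only [Set.mem_setOf_eq, Set.mem_singleton_iff, reduceCtorEq, iff_false]
        exact fun h => h
    rw [this, Set.ncard_singleton]
  have hpart : ∀ j : Fin n, {y | (pinG Q).Adj (Sum.inl j) y} =
      Sum.inl '' {k | Q.Adj j k} ∪ Sum.inr '' {p | p.1 = j} := by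
    intro j
    ext y
    rcases y with k | q
    · simp only [Set.mem_setOf_eq, Set.mem_union, Set.mem_image, Sum.inl.injEq, exists_eq_right,
        reduceCtorEq, and_false, exists_false, or_false]
      exact Iff.rfl
    · simp only [Set.mem_setOf_eq, Set.mem_union, Set.mem_image, Sum.inr.injEq, exists_eq_right,
        reduceCtorEq, and_false, exists_false, false_or]
      exact Iff.rfl
  have hfib : ∀ j : Fin n, {p : (Σ i : Fin n, Fin ((i.1 + 2) * (n + 1))) | p.1 = j}.ncard =
      (j.1 + 2) * (n + 1) := by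
    intro j
    have : {p : (Σ i : Fin n, Fin ((i.1 + 2) * (n + 1))) | p.1 = j} =
        Set.range (fun k : Fin ((j.1 + 2) * (n + 1)) => (⟨j, k⟩ :
          (Σ i : Fin n, Fin ((i.1 + 2) * (n + 1))))) := by
      ext ⟨a, k⟩
      simp only [Set.mem_setOf_eq, Set.mem_range]
      constructor
      · rintro rfl
        exact ⟨k, rfl⟩
      · rintro ⟨k', h⟩
        exact (congrArg Sigma.fst h).symm
    rw [this, ← Set.image_univ, Set.ncard_image_of_injective]
    · rw [Set.ncard_univ, Nat.card_eq_fintype_card, Fintype.card_fin]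
    · intro a b h
      simpa using h
  have hlow : ∀ j : Fin n, (j.1 + 2) * (n + 1) ≤ {y | (pinG Q).Adj (Sum.inl j) y}.ncard := by
    intro j
    rw [hpart, ← hfib j, ← Set.ncard_image_of_injective _ (Sum.inr_injective (α := Fin n))]
    exact Set.ncard_le_ncard Set.subset_union_right (Set.toFinite _)
  have hupp : ∀ j : Fin n, {y | (pinG Q).Adj (Sum.inl j) y}.ncard < (j.1 + 3) * (n + 1) := by
    intro j
    rw [hpart]
    have h1 := Set.ncard_union_le ((Sum.inl : Fin n → Fin n ⊕ (Σ i : Fin n,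
      Fin ((i.1 + 2) * (n + 1)))) '' {k | Q.Adj j k}) (Sum.inr '' {p | p.1 = j})
    rw [Set.ncard_image_of_injective _ Sum.inl_injective,
      Set.ncard_image_of_injective _ Sum.inr_injective, hfib j] at h1
    have h2 : {k | Q.Adj j k}.ncard ≤ n := by
      have := Set.ncard_le_ncard (Set.subset_univ {k | Q.Adj j k}) (Set.toFinite _)
      rwa [Set.ncard_univ, Nat.card_eq_fintype_card, Fintype.card_fin] at this
    have h3 : (j.1 + 3) * (n + 1) = (j.1 + 2) * (n + 1) + (n + 1) := by ring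
    omega
  have hi := hdeg (Sum.inl i)
  rcases hτi : τ (Sum.inl i) with j | p
  · rw [hτi] at hi
    have h1 := hlow i
    have h2 := hupp i
    have h3 := hlow j
    have h4 := hupp j
    rw [hi] at h3 h4
    congr 1
    apply Fin.ext
    by_contra hne
    rcases Nat.lt_or_gt_of_ne hne with hlt | hlt
    · have : (j.1 + 3) * (n + 1) ≤ (i.1 + 2) * (n + 1) := Nat.mul_le_mul_right _ (by omega)
      omega
    · have : (i.1 + 3) * (n + 1) ≤ (j.1 + 2) * (n + 1) := Nat.mul_le_mul_right _ (by omega)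
      omega
  · rw [hτi, hpin] at hi
    have h1 := hlow i
    rw [← hi] at h1
    have : 2 * 1 ≤ (i.1 + 2) * (n + 1) := Nat.mul_le_mul (by omega) (by omega)
    omega

/-- Universal set-homogeneous graphs are homogeneous. -/
theorem hom_of_universal (hs : SetHomogeneous G)
    (hu : ∀ (ι : Type) [Finite ι] (Q : SimpleGraph ι), Nonempty (Q ↪g G)) : Homogeneous G := by
  classical
  intro U W F
  -- label `U`
  obtain ⟨n, ⟨e⟩⟩ : ∃ n, Nonempty (Fin n ≃ {x // x ∈ (U : Set V)}) :=
    ⟨U.card, ⟨(Fintype.equivFinOfCardEq (by simp)).symm⟩⟩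
  let f : Fin n → V := fun i => (e i).1
  let f' : Fin n → V := fun i => (F (e i)).1
  have hf : Function.Injective f := fun i j h => e.injective (Subtype.ext h)
  have hf' : Function.Injective f' := fun i j h => e.injective (F.injective (Subtype.ext h))
  have hadj : ∀ i j, G.Adj (f i) (f j) ↔ G.Adj (f' i) (f' j) := by
    intro i j
    exact (F.map_adj_iff (v := e i) (w := e j)).symm
  let Q : SimpleGraph (Fin n) := G.comap f
  have hQ : ∀ i j, Q.Adj i j ↔ G.Adj (f i) (f j) := fun i j => Iff.rfl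
  obtain ⟨E⟩ := hu _ (pinE Q)
  let g : Fin n → V := fun i => E (Sum.inl i)
  have hg : Function.Injective g := fun i j h => Sum.inl_injective (E.injective h)
  have hgQ : ∀ i j, G.Adj (g i) (g j) ↔ Q.Adj i j := fun i j => E.map_adj_iff
  obtain ⟨ψ, ρ, hψ, hρ⟩ := sh_emb' hs f g hf hg (fun i j => (hgQ i j).symm)
  obtain ⟨φ, σ, hφ, hσ⟩ := sh_emb' hs f f' hf hf' hadj
  -- `φ (f x) = f' (σ x)`; we need the automorphism of the copy `g` for `ρ σ⁻¹ ρ⁻¹`
  have hρQ : ∀ i j, Q.Adj (ρ i) (ρ j) ↔ Q.Adj i j := by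
    intro i j
    rw [← hgQ, ← hgQ]
    exact hρ i j
  have hσQ : ∀ i j, Q.Adj (σ i) (σ j) ↔ Q.Adj i j := by
    intro i j
    rw [hQ, hQ, hadj, hadj]
    exact hσ i j
  let π : Equiv.Perm (Fin n) := ρ * σ⁻¹ * ρ⁻¹
  have hπQ : ∀ i j, Q.Adj (π i) (π j) ↔ Q.Adj i j := by
    intro i j
    have h1 : ∀ x, ρ (ρ⁻¹ x) = x := fun x => by simp
    have h2 : ∀ x, σ (σ⁻¹ x) = x := fun x => by simp
    show Q.Adj (ρ (σ⁻¹ (ρ⁻¹ i))) (ρ (σ⁻¹ (ρ⁻¹ j))) ↔ Q.Adj i j
    rw [hρQ, ← hσQ, h2, h2, ← hρQ, h1, h1]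
  -- the automorphism
  obtain ⟨χ, τ, hχ, hτ⟩ := sh_emb' hs
    (fun x : Fin n ⊕ (Σ i : Fin n, Fin ((i.1 + 2) * (n + 1))) =>
      E (Sum.map id (fun p => ((1 : Equiv.Perm (Fin n)), p)) x))
    (fun x => E (Sum.map π (fun p => (π, p)) x))
    (by
      intro x y h
      have h1 := E.injective h
      rcases x with i | p <;> rcases y with j | q
      · simpa using h1
      · simp at h1
      · simp at h1
      · simpa using h1)
    (by
      intro x y h
      have h1 := E.injective h
      rcases x with i | p <;> rcases y with j | q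
      · simpa using h1
      · simp at h1
      · simp at h1
      · simpa using h1)
    (by
      intro x y
      rw [E.map_adj_iff, E.map_adj_iff]
      rcases x with i | p <;> rcases y with j | q
      · exact (hπQ i j).symm
      · show ((1 : Equiv.Perm (Fin n)) q.1 = i) ↔ (π q.1 = π i)
        simp
      · show ((1 : Equiv.Perm (Fin n)) p.1 = j) ↔ (π p.1 = π j)
        simp
      · exact Iff.rfl)
  have hτ2 : ∀ x y, (pinG Q).Adj (τ x) (τ y) ↔ (pinG Q).Adj x y := by
    have key : ∀ x y, G.Adj (E (Sum.map π (fun p => (π, p)) x))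
        (E (Sum.map π (fun p => (π, p)) y)) ↔ (pinG Q).Adj x y := by
      intro x y
      rw [E.map_adj_iff]
      rcases x with i | p <;> rcases y with j | q
      · exact hπQ i j
      · show (π q.1 = π i) ↔ (q.1 = i)
        simp
      · show (π p.1 = π j) ↔ (p.1 = j)
        simp
      · exact Iff.rfl
    intro x y
    rw [← key, ← key]
    exact hτ x y
  have hχg : ∀ i, χ (g i) = g (π i) := by
    intro i
    have h1 := hχ (Sum.inl i)
    rw [pinG_rigid Q τ hτ2 i] at h1
    exact h1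
  -- conclusion
  refine ⟨((ψ.trans χ).trans ψ.symm).trans φ, ?_⟩
  intro u
  obtain ⟨i, rfl⟩ := e.surjective u
  show φ (ψ.symm (χ (ψ (f i)))) = f' i
  have h1 : ρ⁻¹ (ρ i) = i := by simp
  have h2 : π (ρ i) = ρ (σ⁻¹ i) := by
    show ρ (σ⁻¹ (ρ⁻¹ (ρ i))) = ρ (σ⁻¹ i)
    rw [h1]
  have h3 : σ (σ⁻¹ i) = i := by simp
  rw [hψ, hχg, h2, ← hψ, ψ.symm_apply_apply, hφ, h3]

end SetHom
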